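import Mathlib

/-!
# Double character sums below the square root barrier, part A

A commutative group `G` acts on a finite set `X`, `M` is a finite subset of `G` and
`W M f x = ∑_{t ∈ M} f (t x)`. The norms `a_n = ∑_x (W^n f)(x)^2` are logarithmically convex, so
`a_1^k ≤ a_0^(k-1) a_k`, and `a_k` is bounded by means of the number of representations as products
of `k` elements of `M`.
-/

set_option autoImplicit false

namespace Pool.Agent.helper46.PY

open Finset

section
variable {G X : Type*} [CommGroup G] [MulAction G X]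

/-- the sum over the translates by the elements of `M` -/
def W (M : Finset G) (f : X → ℝ) : X → ℝ := fun x => ∑ t ∈ M, f (t • x)

/-- the adjoint -/
def W' (M : Finset G) (f : X → ℝ) : X → ℝ := fun x => ∑ t ∈ M, f (t⁻¹ • x)

variable [Fintype X]

theorem sum_smul (t : G) (f : X → ℝ) : ∑ x, f (t • x) = ∑ x, f x :=
  Fintype.sum_equiv (MulAction.toPerm t) _ _ fun _ => rfl

theorem sum_W_mul (M : Finset G) (f g : X → ℝ) :
    ∑ x, W M f x * g x = ∑ x, f x * W' M g x := by
  unfold W W'
  simp only [Finset.sum_mul, Finset.mul_sum]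
  rw [Finset.sum_comm]
  conv_rhs => rw [Finset.sum_comm]
  refine Finset.sum_congr rfl fun t _ => ?_
  rw [← sum_smul t⁻¹ fun x => f (t • x) * g x]
  simp

theorem sum_sq_W' (M : Finset G) (h : X → ℝ) :
    ∑ x, W' M h x ^ 2 = ∑ x, W M h x ^ 2 := by
  unfold W W'
  simp only [sq, Finset.sum_mul_sum]
  rw [Finset.sum_comm]
  conv_rhs => rw [Finset.sum_comm]
  conv_rhs => rw [Finset.sum_congr rfl fun t _ => Finset.sum_comm]
  rw [Finset.sum_congr rfl fun t _ => Finset.sum_comm]
  rw [Finset.sum_comm]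
  refine Finset.sum_congr rfl fun t _ => Finset.sum_congr rfl fun s _ => ?_
  rw [← sum_smul (s * t) fun x => h (s⁻¹ • x) * h (t⁻¹ • x)]
  refine Finset.sum_congr rfl fun x _ => ?_
  have h1 : s⁻¹ • (s * t) • x = t • x := by rw [smul_smul, inv_mul_cancel_left]
  have h2 : t⁻¹ • (s * t) • x = s • x := by
    rw [smul_smul, mul_comm s t, inv_mul_cancel_left]
  rw [h1, h2]

theorem logconv (M : Finset G) (g : X → ℝ) :
    (∑ x, W M g x ^ 2) ^ 2 ≤ (∑ x, g x ^ 2) * ∑ x, W M (W M g) x ^ 2 := by
  have h1 : ∑ x, W M g x ^ 2 = ∑ x, g x * W' M (W M g) x := by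
    rw [← sum_W_mul]
    exact Finset.sum_congr rfl fun x _ => sq _
  have h2 := Finset.sum_mul_sq_le_sq_mul_sq Finset.univ g (W' M (W M g))
  rw [← h1, sum_sq_W'] at h2
  exact h2

end

/-- log-convex sequences -/
theorem pow_le_of_logconvex (a : ℕ → ℝ) (h0 : ∀ n, 0 ≤ a n)
    (h : ∀ n, a (n + 1) ^ 2 ≤ a n * a (n + 2)) (n : ℕ) : a 1 ^ (n + 1) ≤ a 0 ^ n * a (n + 1) := by
  have key : ∀ n, a 1 * a n ≤ a 0 * a (n + 1) := by
    intro n
    induction n with
    | zero => rw [mul_comm]
    | succ n ih =>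
      rcases (h0 (n + 1)).eq_or_lt with h1 | h1
      · rw [← h1, mul_zero]
        exact mul_nonneg (h0 0) (h0 _)
      · rcases (h0 n).eq_or_lt with h2 | h2
        · have h3 := h n
          rw [← h2, zero_mul] at h3
          have h4 : 0 < a (n + 1) ^ 2 := by positivity
          exact absurd h3 (not_le.2 h4)
        · have h3 : a 1 * a n * a (n + 1) ^ 2 ≤ a 0 * a (n + 1) * (a n * a (n + 2)) :=
            mul_le_mul ih (h n) (by positivity) (mul_nonneg (h0 0) h1.le)
          have h4 : 0 < a n * a (n + 1) := by positivity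
          have h5 : (a n * a (n + 1)) * (a 1 * a (n + 1)) ≤
              (a n * a (n + 1)) * (a 0 * a (n + 2)) := by
            calc (a n * a (n + 1)) * (a 1 * a (n + 1)) = a 1 * a n * a (n + 1) ^ 2 := by ring
              _ ≤ a 0 * a (n + 1) * (a n * a (n + 2)) := h3
              _ = _ := by ring
          exact le_of_mul_le_mul_left h5 h4
  induction n with
  | zero => simp
  | succ n ih =>
    calc a 1 ^ (n + 1 + 1) = a 1 * a 1 ^ (n + 1) := by ring
      _ ≤ a 1 * (a 0 ^ n * a (n + 1)) := mul_le_mul_of_nonneg_left ih (h0 1)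
      _ = a 0 ^ n * (a 1 * a (n + 1)) := by ring
      _ ≤ a 0 ^ n * (a 0 * a (n + 2)) := mul_le_mul_of_nonneg_left (key _) (pow_nonneg (h0 0) _)
      _ = _ := by ring

section
variable {G X : Type*} [CommGroup G] [MulAction G X] [Fintype X] [Fintype G] [DecidableEq G]

/-- number of representations of `u` as a product of `k` elements of `M` -/
def R (M : Finset G) : ℕ → G → ℕ
  | 0 => fun u => if u = 1 then 1 else 0
  | k + 1 => fun u => ∑ t ∈ M, R M k (t⁻¹ * u)

omit [Fintype X] in
theorem iterate_W (M : Finset G) (f : X → ℝ) (k : ℕ) (x : X) :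
    (W M)^[k] f x = ∑ u : G, (R M k u : ℝ) * f (u • x) := by
  induction k generalizing x with
  | zero => simp [R]
  | succ k ih =>
    rw [Function.iterate_succ_apply']
    change ∑ t ∈ M, (W M)^[k] f (t • x) = _
    simp only [ih, R, Nat.cast_sum, Finset.sum_mul]
    rw [Finset.sum_comm (s := Finset.univ) (t := M)]
    refine Finset.sum_congr rfl fun t _ => ?_
    refine Fintype.sum_equiv (Equiv.mulLeft t) _ _ fun u => ?_
    simp only [Equiv.coe_mulLeft, inv_mul_cancel_left, smul_smul]
    rw [mul_comm u t]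

/-- the sum over the orbit -/
def Phi (f : X → ℝ) : X → ℝ := fun x => ∑ u : G, f (u • x)

omit [DecidableEq G] [Fintype X] in
theorem Phi_smul (f : X → ℝ) (t : G) (x : X) : Phi (G := G) f (t • x) = Phi (G := G) f x := by
  unfold Phi
  refine Fintype.sum_equiv (Equiv.mulRight t) _ _ fun u => ?_
  simp [smul_smul]

omit [DecidableEq G] in
theorem sum_W_Phi (M : Finset G) (f g : X → ℝ) :
    ∑ x, W M g x * Phi (G := G) f x = M.card * ∑ x, g x * Phi (G := G) f x := by
  unfold W
  simp only [Finset.sum_mul]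
  rw [Finset.sum_comm, ← nsmul_eq_mul, ← Finset.sum_const]
  refine Finset.sum_congr rfl fun t _ => ?_
  rw [← sum_smul t fun x => g x * Phi (G := G) f x]
  simp only [Phi_smul]

omit [DecidableEq G] in
theorem sum_iterate_Phi (M : Finset G) (f g : X → ℝ) (k : ℕ) :
    ∑ x, (W M)^[k] g x * Phi (G := G) f x = (M.card : ℝ) ^ k * ∑ x, g x * Phi (G := G) f x := by
  induction k with
  | zero => simp
  | succ k ih =>
    rw [Function.iterate_succ_apply', sum_W_Phi, ih, pow_succ]
    ring

theorem sum_sq_iterate_le (M : Finset G) (f : X → ℝ) (hf : ∀ x, 0 ≤ f x) (k C : ℕ)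
    (hR : ∀ u, R M k u ≤ C) :
    ∑ x, (W M)^[k] f x ^ 2 ≤ C * (M.card : ℝ) ^ k * ∑ x, f x * Phi (G := G) f x := by
  have h1 : ∀ x, 0 ≤ (W M)^[k] f x := fun x => by
    rw [iterate_W]
    exact Finset.sum_nonneg fun u _ => mul_nonneg (Nat.cast_nonneg _) (hf _)
  have h2 : ∀ x, (W M)^[k] f x ≤ C * Phi (G := G) f x := fun x => by
    rw [iterate_W, Phi, Finset.mul_sum]
    refine Finset.sum_le_sum fun u _ => ?_
    exact mul_le_mul_of_nonneg_right (by exact_mod_cast hR u) (hf _)
  calc ∑ x, (W M)^[k] f x ^ 2 ≤ ∑ x, C * ((W M)^[k] f x * Phi (G := G) f x) := by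
        refine Finset.sum_le_sum fun x _ => ?_
        rw [sq]
        calc (W M)^[k] f x * (W M)^[k] f x ≤ (W M)^[k] f x * (C * Phi (G := G) f x) :=
              mul_le_mul_of_nonneg_left (h2 x) (h1 x)
          _ = _ := by ring
    _ = _ := by
        rw [← Finset.mul_sum, sum_iterate_Phi]
        ring

/-- the main inequality -/
theorem collision_pow_le (M : Finset G) (f : X → ℝ) (hf : ∀ x, 0 ≤ f x) (k C : ℕ)
    (hR : ∀ u, R M (k + 1) u ≤ C) :
    (∑ x, W M f x ^ 2) ^ (k + 1) ≤ (∑ x, f x ^ 2) ^ k *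
      (C * (M.card : ℝ) ^ (k + 1) * ∑ x, f x * Phi (G := G) f x) := by
  have h := pow_le_of_logconvex (fun n => ∑ x, (W M)^[n] f x ^ 2)
    (fun n => Finset.sum_nonneg fun _ _ => by positivity)
    (fun n => by
      have h1 := logconv M ((W M)^[n] f)
      simp only [Function.iterate_succ_apply']
      exact h1) k
  refine h.trans ?_
  refine mul_le_mul_of_nonneg_left ?_ (pow_nonneg (Finset.sum_nonneg fun _ _ => by positivity) _)
  exact sum_sq_iterate_le M f hf (k + 1) C hR

end

end Pool.Agent.helper46.PY
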