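import Mathlib
import Pool.Agent.helper46.PY.A

/-!
# Double character sums below the square root barrier, part C

The function `f(z) = #{(x, b, b') ∈ P × B × B : (x + b, x + b') = z}` outside the diagonal of `F²`.
-/

set_option autoImplicit false

namespace Pool.Agent.helper46.PY

open Finset

section
variable {F : Type*} [Field F] [DecidableEq F]

/-- number of `(x, b, b') ∈ P × B × B` with `(x + b, x + b') = z` -/
def cnt (P B : Finset F) (z : F × F) : ℕ :=
  ((P ×ˢ (B ×ˢ B)).filter fun i => (i.1 + i.2.1, i.1 + i.2.2) = z).card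

theorem cnt_le_P (P B : Finset F) (z : F × F) : cnt P B z ≤ P.card := by
  unfold cnt
  refine Finset.card_le_card_of_injOn (fun i => i.1) ?_ ?_
  · intro i hi
    rw [mem_coe, mem_filter, mem_product] at hi
    exact hi.1.1
  · intro i hi j hj hij
    rw [mem_coe, mem_filter] at hi hj
    have h1 := hi.2.trans hj.2.symm
    simp only [Prod.mk.injEq] at h1 hij
    rw [hij] at h1
    exact Prod.ext hij (Prod.ext (add_left_cancel h1.1) (add_left_cancel h1.2))

theorem cnt_le_B (P B : Finset F) (z : F × F) : cnt P B z ≤ B.card := by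
  unfold cnt
  refine Finset.card_le_card_of_injOn (fun i => i.2.1) ?_ ?_
  · intro i hi
    rw [mem_coe, mem_filter, mem_product, mem_product] at hi
    exact hi.1.2.1
  · intro i hi j hj hij
    rw [mem_coe, mem_filter] at hi hj
    have h1 := hi.2.trans hj.2.symm
    simp only [Prod.mk.injEq] at h1 hij
    rw [hij] at h1
    have h2 : i.1 = j.1 := add_right_cancel h1.1
    rw [h2] at h1
    exact Prod.ext h2 (Prod.ext hij (add_left_cancel h1.2))

variable [Fintype F]

theorem sum_cnt (P B : Finset F) : ∑ z, cnt P B z = P.card * B.card ^ 2 := by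
  unfold cnt
  rw [← Finset.card_eq_sum_card_fiberwise (fun i _ => Finset.mem_coe.2 (Finset.mem_univ _)),
    card_product, card_product, sq]

theorem sum_cnt_diag (P B : Finset F) :
    ∑ z ∈ univ.filter (fun z : F × F => z.1 = z.2), cnt P B z = P.card * B.card := by
  have h1 : ∑ z ∈ univ.filter (fun z : F × F => z.1 = z.2), cnt P B z =
      ((P ×ˢ (B ×ˢ B)).filter (fun i => i.2.1 = i.2.2)).card := by
    rw [Finset.card_eq_sum_card_fiberwise (f := fun i => (i.1 + i.2.1, i.1 + i.2.2))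
      (t := univ.filter (fun z : F × F => z.1 = z.2))]
    · refine Finset.sum_congr rfl fun z hz => ?_
      rw [mem_filter] at hz
      unfold cnt
      congr 1
      ext i
      simp only [mem_filter]
      constructor
      · rintro ⟨h1, h2⟩
        refine ⟨⟨h1, ?_⟩, h2⟩
        have h3 : i.1 + i.2.1 = z.1 := congrArg Prod.fst h2
        have h4 : i.1 + i.2.2 = z.2 := congrArg Prod.snd h2
        rw [← h3, ← h4] at hz
        exact add_left_cancel hz.2
      · rintro ⟨⟨h1, -⟩, h2⟩
        exact ⟨h1, h2⟩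
    · intro i hi
      rw [mem_coe, mem_filter] at hi
      rw [mem_coe, mem_filter]
      refine ⟨mem_univ _, ?_⟩
      change i.1 + i.2.1 = i.1 + i.2.2
      rw [hi.2]
  rw [h1, ← Finset.card_product]
  refine Finset.card_bij (fun i _ => (i.1, i.2.1)) ?_ ?_ ?_
  · intro i hi
    rw [mem_filter, mem_product, mem_product] at hi
    exact mem_product.2 ⟨hi.1.1, hi.1.2.1⟩
  · intro i hi j hj hij
    rw [mem_filter] at hi hj
    simp only [Prod.mk.injEq] at hij
    exact Prod.ext hij.1 (Prod.ext hij.2 (by rw [← hi.2, ← hj.2, hij.2]))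
  · intro i hi
    rw [mem_product] at hi
    exact ⟨(i.1, (i.2, i.2)), mem_filter.2 ⟨mem_product.2 ⟨hi.1, mem_product.2 ⟨hi.2, hi.2⟩⟩, rfl⟩,
      rfl⟩

/-- the function `f` -/
def fF (P B : Finset F) (z : F × F) : ℝ := if z.1 = z.2 then 0 else cnt P B z

omit [Fintype F] in
theorem fF_nonneg (P B : Finset F) (z : F × F) : 0 ≤ fF P B z := by
  unfold fF
  split_ifs <;> positivity

omit [Fintype F] in
theorem fF_le (P B : Finset F) (z : F × F) : fF P B z ≤ cnt P B z := by
  unfold fF
  split_ifs <;> simp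

theorem sum_sq_fF (P B : Finset F) :
    ∑ z, fF P B z ^ 2 ≤ ((P.card : ℝ) * B.card) ^ 2 := by
  calc ∑ z, fF P B z ^ 2 ≤ ∑ z, (P.card : ℝ) * cnt P B z := by
        refine Finset.sum_le_sum fun z _ => ?_
        rw [sq]
        exact mul_le_mul ((fF_le P B z).trans (by exact_mod_cast cnt_le_P P B z)) (fF_le P B z)
          (fF_nonneg P B z) (Nat.cast_nonneg _)
    _ = _ := by
        rw [← Finset.mul_sum, ← Nat.cast_sum, sum_cnt]
        push_cast
        ring

omit [Fintype F] in
theorem smul_diag (u : Fˣ) (z : F × F) : (u • z).1 = (u • z).2 ↔ z.1 = z.2 := by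
  rw [Prod.smul_fst, Prod.smul_snd]
  exact smul_left_cancel_iff u

theorem Phi_eq (P B : Finset F) (z : F × F) (hz : z.1 ≠ z.2) :
    Phi (G := Fˣ) (fF P B) z = ((((univ : Finset Fˣ) ×ˢ (P ×ˢ (B ×ˢ B))).filter
      fun i => (i.2.1 + i.2.2.1, i.2.1 + i.2.2.2) = i.1 • z).card : ℝ) := by
  have h1 : ∀ u : Fˣ, fF P B (u • z) = cnt P B (u • z) := fun u => by
    unfold fF
    rw [if_neg]
    rw [smul_diag]
    exact hz
  unfold Phi
  simp only [h1]
  rw [← Nat.cast_sum]
  congr 1
  unfold cnt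
  rw [Finset.card_filter, Finset.sum_product]
  refine Finset.sum_congr rfl fun u _ => ?_
  rw [Finset.card_filter]

theorem Phi_off (P B : Finset F) (z : F × F) (hz : z.1 ≠ z.2) :
    Phi (G := Fˣ) (fF P B) z ≤ (B.card : ℝ) ^ 2 := by
  rw [Phi_eq P B z hz, sq, ← Nat.cast_mul, ← Finset.card_product]
  norm_cast
  refine Finset.card_le_card_of_injOn (fun i => i.2.2) ?_ ?_
  · intro i hi
    rw [mem_coe, mem_filter, mem_product, mem_product] at hi
    exact hi.1.2.2
  · intro i hi j hj hij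
    rw [mem_coe, mem_filter] at hi hj
    have h1 := congrArg Prod.fst hi.2
    have h2 := congrArg Prod.snd hi.2
    have h3 := congrArg Prod.fst hj.2
    have h4 := congrArg Prod.snd hj.2
    simp only [Prod.smul_fst, Prod.smul_snd, Units.smul_def, smul_eq_mul] at h1 h2 h3 h4
    have hij' : i.2.2 = j.2.2 := hij
    rw [← hij'] at h3 h4
    have h5 : ((i.1 : F) - j.1) * (z.1 - z.2) = 0 := by linear_combination h2 - h1 - h4 + h3
    have h6 : (i.1 : F) = j.1 :=
      sub_eq_zero.1 ((mul_eq_zero.1 h5).resolve_right (sub_ne_zero.2 hz))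
    have h7 : i.2.1 = j.2.1 := by
      rw [h6] at h1
      linear_combination h1 - h3
    exact Prod.ext (Units.ext h6) (Prod.ext h7 hij')

theorem sum_fF_Phi (P B : Finset F) :
    ∑ z, fF P B z * Phi (G := Fˣ) (fF P B) z ≤ (P.card : ℝ) * (B.card : ℝ) ^ 4 := by
  have h1 : ∀ z : F × F, fF P B z * Phi (G := Fˣ) (fF P B) z ≤
      cnt P B z * (B.card : ℝ) ^ 2 := by
    intro z
    have h0 : 0 ≤ Phi (G := Fˣ) (fF P B) z := Finset.sum_nonneg fun u _ => fF_nonneg P B _
    by_cases hz : z.1 = z.2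
    · have h2 : fF P B z = 0 := by
        unfold fF
        rw [if_pos hz]
      rw [h2, zero_mul]
      positivity
    · exact mul_le_mul (fF_le P B z) (Phi_off P B z hz) h0 (Nat.cast_nonneg _)
  refine (Finset.sum_le_sum fun z _ => h1 z).trans ?_
  rw [← Finset.sum_mul, ← Nat.cast_sum, sum_cnt]
  push_cast
  apply le_of_eq
  ring

/-- The collision bound: `∑_z (∑_{t ∈ M} f(t z))^2`, raised to the power `k + 1`. -/
theorem collision_fF (M : Finset Fˣ) (P B : Finset F) (k C : ℕ)
    (hR : ∀ u, R M (k + 1) u ≤ C) :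
    (∑ z, W M (fF P B) z ^ 2) ^ (k + 1) ≤ (((P.card : ℝ) * B.card) ^ 2) ^ k *
      (C * (M.card : ℝ) ^ (k + 1) * ((P.card : ℝ) * (B.card : ℝ) ^ 4)) := by
  refine (collision_pow_le M (fF P B) (fF_nonneg P B) k C hR).trans ?_
  refine mul_le_mul ?_ ?_ ?_ ?_
  · exact pow_le_pow_left₀ (Finset.sum_nonneg fun _ _ => by positivity) (sum_sq_fF P B) k
  · exact mul_le_mul_of_nonneg_left (sum_fF_Phi P B) (by positivity)
  · refine mul_nonneg (by positivity) (Finset.sum_nonneg fun z _ => ?_)
    exact mul_nonneg (fF_nonneg P B z) (Finset.sum_nonneg fun u _ => fF_nonneg P B _)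
  · positivity

/-- All collisions, including the diagonal. -/
theorem total_le (M : Finset Fˣ) (P B : Finset F) :
    ∑ z : F × F, (∑ t ∈ M, (cnt P B (t • z) : ℝ)) ^ 2 ≤
      ∑ z, W M (fF P B) z ^ 2 + (M.card : ℝ) ^ 2 * (P.card * (B.card : ℝ) ^ 2) := by
  have h1 : ∀ z : F × F, (∑ t ∈ M, (cnt P B (t • z) : ℝ)) ^ 2 ≤ W M (fF P B) z ^ 2 +
      (if z.1 = z.2 then ((M.card : ℝ) * B.card) * ∑ t ∈ M, (cnt P B (t • z) : ℝ) else 0) := by
    intro z
    by_cases hz : z.1 = z.2
    · rw [if_pos hz]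
      have h2 : ∑ t ∈ M, (cnt P B (t • z) : ℝ) ≤ (M.card : ℝ) * B.card := by
        rw [← nsmul_eq_mul, ← Finset.sum_const]
        exact Finset.sum_le_sum fun t _ => by exact_mod_cast cnt_le_B P B _
      have h3 : 0 ≤ ∑ t ∈ M, (cnt P B (t • z) : ℝ) := Finset.sum_nonneg fun _ _ => Nat.cast_nonneg _
      have h5 : 0 ≤ W M (fF P B) z ^ 2 := by positivity
      have h6 : (∑ t ∈ M, (cnt P B (t • z) : ℝ)) ^ 2 ≤
          ((M.card : ℝ) * B.card) * ∑ t ∈ M, (cnt P B (t • z) : ℝ) := by
        rw [sq]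
        exact mul_le_mul_of_nonneg_right h2 h3
      linarith
    · rw [if_neg hz, add_zero]
      apply le_of_eq
      congr 1
      unfold W
      refine Finset.sum_congr rfl fun t _ => ?_
      unfold fF
      rw [if_neg]
      rw [smul_diag]
      exact hz
  refine (Finset.sum_le_sum fun z _ => h1 z).trans ?_
  rw [Finset.sum_add_distrib, ← Finset.sum_filter, ← Finset.mul_sum, Finset.sum_comm]
  have h2 : ∀ t ∈ M, ∑ z ∈ univ.filter (fun z : F × F => z.1 = z.2), (cnt P B (t • z) : ℝ) =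
      (P.card : ℝ) * B.card := by
    intro t _
    rw [← Nat.cast_mul, ← sum_cnt_diag P B, Nat.cast_sum]
    refine Finset.sum_bij (fun z _ => t • z) ?_ ?_ ?_ ?_
    · intro z hz
      rw [mem_filter] at hz ⊢
      exact ⟨mem_univ _, (smul_diag t z).2 hz.2⟩
    · intro z _ w _ h
      exact smul_left_cancel t h
    · intro w hw
      rw [mem_filter] at hw
      refine ⟨t⁻¹ • w, ?_, smul_inv_smul t w⟩
      rw [mem_filter]
      exact ⟨mem_univ _, (smul_diag t⁻¹ w).2 hw.2⟩
    · intro z _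
      rfl
  rw [Finset.sum_congr rfl h2, Finset.sum_const, nsmul_eq_mul]
  apply le_of_eq
  ring

end

end Pool.Agent.helper46.PY
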