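import Mathlib
import Pool.Agent.helper82.Weil.Q
import Pool.Agent.helper46.PY.C

/-!
# Double character sums below the square root barrier, part D

The Burgess-Karatsuba inequality for pairs, with the number of collisions (adapted from
`energy_bound` in `Pool/Agent/helper82/Weil/Q.lean`).
-/

set_option autoImplicit false

namespace Pool.Agent.helper46.PY

open Finset Pool.Agent.helper82.Weil

section
variable {F : Type*} [Field F] [Fintype F] [DecidableEq F]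

theorem fibre_card (M : Finset Fˣ) (P B : Finset F) (z : F × F) :
    (((M ×ˢ P) ×ˢ (B ×ˢ B)).filter fun i =>
      ((i.1.2 + i.2.1) / (i.1.1 : F), (i.1.2 + i.2.2) / (i.1.1 : F)) = z).card =
      ∑ t ∈ M, cnt P B (t • z) := by
  unfold cnt
  rw [Finset.card_filter, Finset.sum_product, Finset.sum_product]
  refine Finset.sum_congr rfl fun t _ => ?_
  rw [Finset.card_filter, Finset.sum_product]
  refine Finset.sum_congr rfl fun x _ => Finset.sum_congr rfl fun b _ => ?_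
  refine if_congr ?_ rfl rfl
  have ht : (t : F) ≠ 0 := t.ne_zero
  constructor
  · intro h
    rw [← h]
    simp only [Prod.smul_mk, Units.smul_def, smul_eq_mul]
    rw [mul_div_cancel₀ _ ht, mul_div_cancel₀ _ ht]
  · intro h
    have h1 : x + b.1 = (t : F) * z.1 := congrArg Prod.fst h
    have h2 : x + b.2 = (t : F) * z.2 := congrArg Prod.snd h
    refine Prod.ext ?_ ?_
    · change (x + b.1) / (t : F) = z.1
      rw [h1, mul_div_cancel_left₀ _ ht]
    · change (x + b.2) / (t : F) = z.2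
      rw [h2, mul_div_cancel_left₀ _ ht]

theorem collisions_eq (M : Finset Fˣ) (P B : Finset F) :
    (((((M ×ˢ P) ×ˢ (B ×ˢ B)) ×ˢ ((M ×ˢ P) ×ˢ (B ×ˢ B))).filter fun x =>
      ((x.1.1.2 + x.1.2.1) / (x.1.1.1 : F), (x.1.1.2 + x.1.2.2) / (x.1.1.1 : F)) =
      ((x.2.1.2 + x.2.2.1) / (x.2.1.1 : F), (x.2.1.2 + x.2.2.2) / (x.2.1.1 : F))).card : ℝ) =
      ∑ z : F × F, (∑ t ∈ M, (cnt P B (t • z) : ℝ)) ^ 2 := by
  have h1 : ∀ z : F × F, (∑ t ∈ M, (cnt P B (t • z) : ℝ)) ^ 2 =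
      (((((M ×ˢ P) ×ˢ (B ×ˢ B)).filter fun i =>
        ((i.1.2 + i.2.1) / (i.1.1 : F), (i.1.2 + i.2.2) / (i.1.1 : F)) = z).card ^ 2 : ℕ) : ℝ) := by
    intro z
    rw [fibre_card]
    push_cast
    rfl
  simp only [h1]
  rw [← Nat.cast_sum, Nat.cast_inj,
    Finset.card_eq_sum_card_fiberwise (f := fun x : ((Fˣ × F) × (F × F)) × ((Fˣ × F) × (F × F)) =>
      ((x.1.1.2 + x.1.2.1) / (x.1.1.1 : F), (x.1.1.2 + x.1.2.2) / (x.1.1.1 : F)))
      (t := Finset.univ) (fun x _ => Finset.mem_coe.mpr (Finset.mem_univ _))]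
  refine Finset.sum_congr rfl fun z _ => ?_
  rw [sq, ← Finset.card_product]
  congr 1
  ext x
  simp only [Finset.mem_filter, Finset.mem_product]
  constructor
  · rintro ⟨⟨⟨a, b⟩, c⟩, d⟩
    exact ⟨⟨a, d⟩, ⟨b, by rw [← c, d]⟩⟩
  · rintro ⟨⟨a, b⟩, c, d⟩
    exact ⟨⟨⟨a, c⟩, by rw [b, d]⟩, b⟩

theorem pair_bound (χ : MulChar F ℂ) (hχ : χ ≠ 1) (A P T B : Finset F) (M : Finset Fˣ)
    (hP : ∀ a ∈ A, ∀ m ∈ M, ∀ t ∈ T, a - (m : F) * t ∈ P)
    (β : F → ℂ) (hβ : ∀ b, ‖β b‖ ≤ 1) (k : ℕ) (hk : 0 < k) :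
    ((M.card : ℝ) * T.card * ∑ a ∈ A, ‖∑ b ∈ B, β b * χ (a + b)‖ ^ 2) ^ (2 * k) ≤
      ((M.card : ℝ) * P.card * (B.card : ℝ) ^ 2) ^ (2 * k - 2) *
        (∑ z : F × F, (∑ t ∈ M, (cnt P B (t • z) : ℝ)) ^ 2) *
        ((k : ℝ) ^ (2 * k) * (T.card : ℝ) ^ k * (Fintype.card F : ℝ) ^ 2 +
          (T.card : ℝ) ^ (2 * k) * (2 * k * Real.sqrt (Fintype.card F)) ^ 2) := by
  set R : F × F → ℂ := fun uv => ∑ t ∈ T, χ (t + uv.1) * (starRingEnd ℂ) (χ (t + uv.2)) with hR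
  set S : F → ℂ := fun a => ∑ b ∈ B, β b * χ (a + b) with hS
  -- for each m
  have step1 : ∀ m ∈ M, (T.card : ℝ) * ∑ a ∈ A, ‖S a‖ ^ 2 ≤
      ∑ x ∈ P, ∑ i ∈ B ×ˢ B, ‖R ((x + i.1) / (m : F), (x + i.2) / (m : F))‖ := by
    intro m hm
    have hm0 : (m : F) ≠ 0 := m.ne_zero
    have h1 : (T.card : ℝ) * ∑ a ∈ A, ‖S a‖ ^ 2 ≤ ∑ t ∈ T, ∑ x ∈ P, ‖S (x + m * t)‖ ^ 2 := by
      rw [← nsmul_eq_mul, ← Finset.sum_const]
      refine Finset.sum_le_sum fun t ht => ?_
      have hinj : Set.InjOn (fun a => a - (m : F) * t) ↑A := by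
        intro a _ b _ h
        exact sub_left_injective h
      have h2 : ∑ a ∈ A, ‖S a‖ ^ 2 =
          ∑ x ∈ A.image (fun a => a - (m : F) * t), ‖S (x + m * t)‖ ^ 2 := by
        rw [Finset.sum_image hinj]
        refine Finset.sum_congr rfl fun a _ => ?_
        rw [sub_add_cancel]
      rw [h2]
      apply Finset.sum_le_sum_of_subset_of_nonneg
      · intro x hx
        rw [mem_image] at hx
        obtain ⟨a, ha, rfl⟩ := hx
        exact hP a ha m hm t ht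
      · intro _ _ _; positivity
    refine h1.trans ?_
    rw [Finset.sum_comm]
    refine Finset.sum_le_sum fun x _ => ?_
    have h3 : ((∑ t ∈ T, ‖S (x + m * t)‖ ^ 2 : ℝ) : ℂ) =
        ∑ i ∈ B ×ˢ B, β i.1 * (starRingEnd ℂ) (β i.2) *
          R ((x + i.1) / (m : F), (x + i.2) / (m : F)) := by
      push_cast
      have h5 : χ m * (starRingEnd ℂ) (χ m) = 1 := by
        have hpos : 0 < Fintype.card Fˣ := Fintype.card_pos
        have h6 : (χ m) ^ (Fintype.card Fˣ) = 1 := by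
          rw [← MulChar.pow_apply' χ hpos.ne', MulChar.pow_card_eq_one χ]
          exact MulChar.one_apply (isUnit_iff_ne_zero.mpr hm0)
        rw [Complex.mul_conj', Complex.norm_eq_one_of_pow_eq_one h6 hpos.ne']
        simp
      have h4 : ∀ t : F, ((‖S (x + m * t)‖ : ℝ) : ℂ) ^ 2 =
          ∑ i ∈ B ×ˢ B, β i.1 * (starRingEnd ℂ) (β i.2) *
            (χ (t + (x + i.1) / (m : F)) * (starRingEnd ℂ) (χ (t + (x + i.2) / (m : F)))) := by
        intro t
        have e1 : ∀ b : F, χ (x + m * t + b) = χ m * χ (t + (x + b) / (m : F)) := by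
          intro b
          rw [← map_mul]
          congr 1
          field_simp
          ring
        simp only [hS]
        rw [← Complex.mul_conj', map_sum, Finset.sum_mul_sum, Finset.sum_product]
        refine Finset.sum_congr rfl fun b _ => Finset.sum_congr rfl fun b' _ => ?_
        rw [e1, e1, map_mul, map_mul]
        linear_combination (β b * (starRingEnd ℂ) (β b') * χ (t + (x + b) / (m : F)) *
          (starRingEnd ℂ) (χ (t + (x + b') / (m : F)))) * h5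
      simp_rw [h4]
      rw [Finset.sum_comm]
      refine Finset.sum_congr rfl fun i _ => ?_
      rw [hR, Finset.mul_sum]
    have h5 : ∑ t ∈ T, ‖S (x + m * t)‖ ^ 2 = ‖((∑ t ∈ T, ‖S (x + m * t)‖ ^ 2 : ℝ) : ℂ)‖ := by
      rw [Complex.norm_real, Real.norm_eq_abs, abs_of_nonneg]
      exact Finset.sum_nonneg fun _ _ => by positivity
    rw [h5, h3]
    refine (norm_sum_le _ _).trans (Finset.sum_le_sum fun i _ => ?_)
    rw [norm_mul, norm_mul, RCLike.norm_conj]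
    have h6 : ‖β i.1‖ * ‖β i.2‖ ≤ 1 := mul_le_one₀ (hβ _) (norm_nonneg _) (hβ _)
    exact mul_le_of_le_one_left (norm_nonneg _) h6
  have step2 : (M.card : ℝ) * T.card * ∑ a ∈ A, ‖S a‖ ^ 2 ≤
      ∑ i ∈ (M ×ˢ P) ×ˢ (B ×ˢ B),
        ‖R ((i.1.2 + i.2.1) / (i.1.1 : F), (i.1.2 + i.2.2) / (i.1.1 : F))‖ := by
    rw [Finset.sum_product, Finset.sum_product, mul_assoc, ← nsmul_eq_mul, ← Finset.sum_const]
    exact Finset.sum_le_sum step1
  have h0 : 0 ≤ (M.card : ℝ) * T.card * ∑ a ∈ A, ‖S a‖ ^ 2 :=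
    mul_nonneg (by positivity) (Finset.sum_nonneg fun _ _ => by positivity)
  refine (pow_le_pow_left₀ h0 step2 (2 * k)).trans ?_
  have h1 := holder_collision ((M ×ˢ P) ×ˢ (B ×ˢ B))
    (fun i : (Fˣ × F) × (F × F) => ((i.1.2 + i.2.1) / (i.1.1 : F), (i.1.2 + i.2.2) / (i.1.1 : F)))
    (fun x => ‖R x‖) (fun _ => norm_nonneg _) k hk
  rw [Finset.card_product, Finset.card_product, Finset.card_product, collisions_eq] at h1
  push_cast at h1
  refine h1.trans ?_
  rw [← sq]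
  have h2 : ∑ j, ‖R j‖ ^ (2 * k) ≤ (k : ℝ) ^ (2 * k) * (T.card : ℝ) ^ k * (Fintype.card F : ℝ) ^ 2 +
          (T.card : ℝ) ^ (2 * k) * (2 * k * Real.sqrt (Fintype.card F)) ^ 2 := by
    rw [Fintype.sum_prod_type]
    exact moment_two χ hχ k T
  exact mul_le_mul_of_nonneg_left h2
    (mul_nonneg (by positivity) (Finset.sum_nonneg fun _ _ => by positivity))

end

end Pool.Agent.helper46.PY
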