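import Mathlib
import Pool.Agent.helper46.PY.A

/-!
# Double character sums below the square root barrier, part B

Products of `k` primes `≤ X` modulo `p`, `X ^ k < p`.
-/

set_option autoImplicit false

namespace Pool.Agent.helper46.PY

open Finset

section
variable (p : ℕ) [Fact p.Prime]

/-- the classes of the primes `≤ X` -/
def MU (X : ℕ) : Finset (ZMod p)ˣ :=
  Finset.univ.filter fun u => ((u : ZMod p).val).Prime ∧ (u : ZMod p).val ≤ X

theorem mem_MU (X : ℕ) (u : (ZMod p)ˣ) :
    u ∈ MU p X ↔ ((u : ZMod p).val).Prime ∧ (u : ZMod p).val ≤ X := by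
  simp [MU]

/-- the integers `n ≤ X ^ k` in the class `u` with exactly `k` prime factors -/
def TT (X k : ℕ) (u : ZMod p) : Finset ℕ :=
  (Finset.Icc 1 (X ^ k)).filter fun n => (n : ZMod p) = u ∧ n.primeFactorsList.length = k

theorem card_TT_le (X k : ℕ) (u : ZMod p) : (TT p X k u).card ≤ X ^ k / p + 1 := by
  have hp : Nat.Prime p := Fact.out
  rw [← Finset.card_range (X ^ k / p + 1)]
  refine Finset.card_le_card_of_injOn (fun n => n / p) ?_ ?_
  · intro n hn
    rw [Finset.mem_coe, TT, Finset.mem_filter, Finset.mem_Icc] at hn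
    rw [Finset.mem_coe, Finset.mem_range]
    exact Nat.lt_succ_of_le (Nat.div_le_div_right hn.1.2)
  · intro n hn m hm hnm
    rw [Finset.mem_coe, TT, Finset.mem_filter] at hn hm
    have h1 : (n : ZMod p) = (m : ZMod p) := hn.2.1.trans hm.2.1.symm
    rw [ZMod.natCast_eq_natCast_iff'] at h1
    rw [← Nat.div_add_mod n p, ← Nat.div_add_mod m p, h1]
    have h2 : n / p = m / p := hnm
    rw [h2]

theorem R_le_TT (X k : ℕ) : ∀ u : (ZMod p)ˣ,
    R (MU p X) k u ≤ k.factorial * (TT p X k u).card := by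
  have hp : Nat.Prime p := Fact.out
  induction k with
  | zero =>
    intro u
    by_cases hu : u = 1
    · subst hu
      have h1 : (1 : ℕ) ∈ TT p X 0 ((1 : (ZMod p)ˣ) : ZMod p) := by
        simp [TT]
      have h2 : 1 ≤ (TT p X 0 ((1 : (ZMod p)ˣ) : ZMod p)).card := Finset.card_pos.2 ⟨1, h1⟩
      simpa [R] using h2
    · simp [R, hu]
  | succ k ih =>
    intro u
    change ∑ t ∈ MU p X, R (MU p X) k (t⁻¹ * u) ≤ _
    have h1 : ∑ t ∈ MU p X, R (MU p X) k (t⁻¹ * u) ≤ k.factorial *
        ((MU p X).sigma fun t => TT p X k ((t⁻¹ * u : (ZMod p)ˣ) : ZMod p)).card := by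
      rw [Finset.card_sigma, Finset.mul_sum]
      exact Finset.sum_le_sum fun t _ => ih _
    refine h1.trans ?_
    rw [Nat.factorial_succ, mul_comm (k + 1) k.factorial, mul_assoc]
    refine Nat.mul_le_mul_left _ ?_
    set J := (MU p X).sigma fun t => TT p X k ((t⁻¹ * u : (ZMod p)ˣ) : ZMod p) with hJ
    let φ : (Σ _ : (ZMod p)ˣ, ℕ) → ℕ := fun x => (x.1 : ZMod p).val * x.2
    have hmaps : ∀ x ∈ J, φ x ∈ TT p X (k + 1) u ∧ ((x.1 : ZMod p).val).Prime ∧ x.2 ≠ 0 := by
      intro x hx
      rw [hJ, Finset.mem_sigma, mem_MU, TT, Finset.mem_filter, Finset.mem_Icc] at hx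
      obtain ⟨⟨h2, h3⟩, ⟨h4, h5⟩, h6, h7⟩ := hx
      have h8 : x.2 ≠ 0 := by omega
      refine ⟨?_, h2, h8⟩
      rw [TT, Finset.mem_filter, Finset.mem_Icc]
      refine ⟨⟨Nat.mul_pos h2.pos h4, ?_⟩, ?_, ?_⟩
      · rw [pow_succ, mul_comm (X ^ k)]
        exact Nat.mul_le_mul h3 h5
      · change (((x.1 : ZMod p).val * x.2 : ℕ) : ZMod p) = u
        rw [Nat.cast_mul, h6, ZMod.natCast_val, ZMod.cast_id, ← Units.val_mul,
          mul_inv_cancel_left]
      · rw [(Nat.perm_primeFactorsList_mul h2.ne_zero h8).length_eq, List.length_append,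
          Nat.primeFactorsList_prime h2, h7]
        simp [add_comm]
    have h2 : J.card ≤ (k + 1) * (J.image φ).card := by
      refine Finset.card_le_mul_card_image J (k + 1) ?_
      intro m hm
      rw [Finset.mem_image] at hm
      obtain ⟨x₀, hx₀, hm⟩ := hm
      have h3 := (hmaps x₀ hx₀).1
      rw [hm, TT, Finset.mem_filter, Finset.mem_Icc] at h3
      have h4 : (J.filter fun x => φ x = m).card ≤ m.primeFactors.card := by
        refine Finset.card_le_card_of_injOn (fun x => (x.1 : ZMod p).val) ?_ ?_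
        · intro x hx
          rw [Finset.mem_coe, Finset.mem_filter] at hx
          rw [Finset.mem_coe, Nat.mem_primeFactors]
          exact ⟨(hmaps x hx.1).2.1, ⟨x.2, hx.2.symm⟩, by omega⟩
        · intro x hx y hy hxy
          rw [Finset.mem_coe, Finset.mem_filter] at hx hy
          have h5 : x.1 = y.1 := Units.ext (ZMod.val_injective p hxy)
          have h6 : (x.1 : ZMod p).val * x.2 = (y.1 : ZMod p).val * y.2 := hx.2.trans hy.2.symm
          rw [h5] at h6
          have h7 : x.2 = y.2 := Nat.eq_of_mul_eq_mul_left (hmaps y hy.1).2.1.pos h6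
          exact Sigma.ext h5 (heq_of_eq h7)
      refine h4.trans ?_
      rw [← h3.2.2, Nat.primeFactors]
      exact List.toFinset_card_le _
    refine h2.trans (Nat.mul_le_mul_left _ ?_)
    refine Finset.card_le_card ?_
    intro m hm
    rw [Finset.mem_image] at hm
    obtain ⟨x, hx, rfl⟩ := hm
    exact (hmaps x hx).1

/-- number of representations as a product of `k` primes `≤ X` modulo `p` -/
theorem R_bound (X k : ℕ) (u : (ZMod p)ˣ) :
    R (MU p X) k u ≤ k.factorial * (X ^ k / p + 1) :=
  (R_le_TT p X k u).trans (Nat.mul_le_mul_left _ (card_TT_le p X k u))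

open Nat in
/-- many primes -/
theorem card_MU_ge (X : ℕ) (hX : X < p) : primeCounting X ≤ (MU p X).card := by
  rw [primeCounting, primeCounting', Nat.count_eq_card_filter_range]
  refine Finset.card_le_card_of_injOn (fun q => if h : Nat.Coprime q p then
    ZMod.unitOfCoprime q h else 1) ?_ ?_
  · intro q hq
    rw [Finset.mem_coe, Finset.mem_filter, Finset.mem_range] at hq
    have hqp : q < p := by omega
    have hc : Nat.Coprime q p :=
      (Nat.coprime_primes hq.2 Fact.out).2 hqp.ne
    rw [Finset.mem_coe, mem_MU]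
    simp only [dif_pos hc]
    rw [ZMod.coe_unitOfCoprime, ZMod.val_natCast_of_lt hqp]
    exact ⟨hq.2, by omega⟩
  · intro q hq q' hq' h
    rw [Finset.mem_coe, Finset.mem_filter, Finset.mem_range] at hq hq'
    have hqp : q < p := by omega
    have hqp' : q' < p := by omega
    have hc : Nat.Coprime q p :=
      (Nat.coprime_primes hq.2 Fact.out).2 hqp.ne
    have hc' : Nat.Coprime q' p :=
      (Nat.coprime_primes hq'.2 Fact.out).2 hqp'.ne
    simp only [dif_pos hc, dif_pos hc'] at h
    have h1 := congrArg (fun u : (ZMod p)ˣ => (u : ZMod p).val) h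
    simp only [ZMod.coe_unitOfCoprime] at h1
    rwa [ZMod.val_natCast_of_lt hqp, ZMod.val_natCast_of_lt hqp'] at h1

end

end Pool.Agent.helper46.PY
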