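import Mathlib
import Pool.Agent.helper46.PY.B

/-!
# Double character sums below the square root barrier, part E

Generalised arithmetic progressions, and the number of primes `≤ X`.
-/

set_option autoImplicit false

namespace Pool.Agent.helper46.PY

open Finset Pointwise

/-- The generalised arithmetic progression `{∑_i n_i v_i : |n_i| ≤ N_i}` in `ZMod p`. -/
noncomputable def gap {p r : ℕ} (v : Fin r → ZMod p) (N : Fin r → ℕ) : Finset (ZMod p) :=
  (Fintype.piFinset fun i => Finset.Icc (-(N i : ℤ)) (N i)).image fun n => ∑ i, (n i : ZMod p) * v i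

theorem mem_gap {p r : ℕ} (v : Fin r → ZMod p) (N : Fin r → ℕ) (x : ZMod p) :
    x ∈ gap v N ↔ ∃ n : Fin r → ℤ, (∀ i, |n i| ≤ N i) ∧ ∑ i, (n i : ZMod p) * v i = x := by
  unfold gap
  rw [Finset.mem_image]
  constructor
  · rintro ⟨n, hn, hx⟩
    rw [Fintype.mem_piFinset] at hn
    exact ⟨n, fun i => abs_le.2 (Finset.mem_Icc.1 (hn i)), hx⟩
  · rintro ⟨n, hn, hx⟩
    exact ⟨n, Fintype.mem_piFinset.2 fun i => Finset.mem_Icc.2 (abs_le.1 (hn i)), hx⟩

theorem gap_nonempty {p r : ℕ} (v : Fin r → ZMod p) (N : Fin r → ℕ) : (gap v N).Nonempty :=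
  ⟨0, (mem_gap v N 0).2 ⟨0, fun i => by simp, by simp⟩⟩

theorem neg_mul_mem_gap {p r : ℕ} (v : Fin r → ZMod p) (N : Fin r → ℕ) (X m : ℕ) (hm : m ≤ X)
    (t : ZMod p) (ht : t ∈ gap v fun i => N i / X) : -((m : ZMod p) * t) ∈ gap v N := by
  rw [mem_gap] at ht ⊢
  obtain ⟨n, hn, rfl⟩ := ht
  refine ⟨fun i => -(m * n i), fun i => ?_, ?_⟩
  · rw [abs_neg, abs_mul, Nat.abs_cast]
    have h1 := hn i
    have h2 : (m : ℤ) * |n i| ≤ X * (N i / X : ℕ) :=
      mul_le_mul (by exact_mod_cast hm) h1 (abs_nonneg _) (by positivity)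
    have h3 : X * (N i / X) ≤ N i := Nat.mul_div_le _ _
    calc (m : ℤ) * |n i| ≤ X * (N i / X : ℕ) := h2
      _ = ((X * (N i / X) : ℕ) : ℤ) := by push_cast; rfl
      _ ≤ N i := by exact_mod_cast h3
  · push_cast
    rw [Finset.mul_sum, ← Finset.sum_neg_distrib]
    refine Finset.sum_congr rfl fun i _ => ?_
    ring

theorem card_gap_const_le {p r : ℕ} (v : Fin r → ZMod p) (X : ℕ) :
    (gap v fun _ => X).card ≤ (2 * X + 1) ^ r := by
  unfold gap
  refine Finset.card_image_le.trans ?_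
  rw [Fintype.card_piFinset]
  have h1 : ∀ i : Fin r, (Finset.Icc (-(X : ℤ)) X).card = 2 * X + 1 := by
    intro i
    rw [Int.card_Icc]
    omega
  rw [Finset.prod_congr rfl fun i _ => h1 i]
  simp

theorem balanced (N X : ℕ) (hX : 1 ≤ X) (n : ℤ) (hn : |n| ≤ N) :
    ∃ q s : ℤ, |q| ≤ X ∧ |s| ≤ (N / X : ℕ) ∧ n = q * (2 * (N / X : ℕ) + 1) + s := by
  set h : ℕ := N / X with hh
  have hN : N < X * (h + 1) := by
    rw [hh]
    exact Nat.lt_mul_div_succ N (by omega)
  have hN' : (N : ℤ) < X * (h + 1) := by exact_mod_cast hN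
  have hd : (0 : ℤ) < 2 * h + 1 := by positivity
  have hX' : (1 : ℤ) ≤ X := by exact_mod_cast hX
  have hh0 : (0 : ℤ) ≤ h := by positivity
  have hhX : 0 ≤ (h : ℤ) * (X - 1) := mul_nonneg hh0 (by linarith)
  obtain ⟨hn1, hn2⟩ := abs_le.1 hn
  refine ⟨(n + h) / (2 * h + 1), (n + h) % (2 * h + 1) - h, ?_, ?_, ?_⟩
  · rw [abs_le]
    constructor
    · apply Int.le_ediv_of_mul_le hd
      nlinarith
    · apply Int.le_of_lt_add_one
      apply Int.ediv_lt_of_lt_mul hd
      nlinarith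
  · have h1 := Int.emod_nonneg (n + h) hd.ne'
    have h2 := Int.emod_lt_of_pos (n + h) hd
    rw [abs_le]
    constructor <;> linarith
  · have h3 := Int.mul_ediv_add_emod (n + h) (2 * h + 1)
    linarith

theorem card_gap_le {p r : ℕ} (v : Fin r → ZMod p) (N : Fin r → ℕ) (X : ℕ) (hX : 1 ≤ X) :
    (gap v N).card ≤ (gap v fun i => N i / X).card * (2 * X + 1) ^ r := by
  have h1 : gap v N ⊆ (gap v fun i => N i / X) +
      gap (fun i => (2 * (N i / X : ℕ) + 1 : ZMod p) * v i) fun _ => X := by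
    intro x hx
    rw [mem_gap] at hx
    obtain ⟨n, hn, rfl⟩ := hx
    choose q s hq hs hqs using fun i => balanced (N i) X hX (n i) (hn i)
    rw [Finset.mem_add]
    refine ⟨∑ i, (s i : ZMod p) * v i, (mem_gap _ _ _).2 ⟨s, hs, rfl⟩,
      ∑ i, (q i : ZMod p) * ((2 * (N i / X : ℕ) + 1 : ZMod p) * v i),
      (mem_gap _ _ _).2 ⟨q, hq, rfl⟩, ?_⟩
    rw [← Finset.sum_add_distrib]
    refine Finset.sum_congr rfl fun i _ => ?_
    conv_rhs => rw [hqs i]
    simp only [Int.cast_add, Int.cast_mul, Int.cast_ofNat, Int.cast_natCast, Int.cast_one]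
    ring
  refine (Finset.card_le_card h1).trans (Finset.card_add_le.trans ?_)
  exact Nat.mul_le_mul_left _ (card_gap_const_le _ X)

theorem succ_sq_le_two_pow (X : ℕ) (hX : 6 ≤ X) : (X + 1) ^ 2 ≤ 2 ^ X := by
  induction X, hX using Nat.le_induction with
  | base => norm_num
  | succ n hn ih =>
    calc (n + 1 + 1) ^ 2 ≤ 2 * (n + 1) ^ 2 := by nlinarith
      _ ≤ 2 * 2 ^ n := Nat.mul_le_mul_left _ ih
      _ = 2 ^ (n + 1) := by ring

/-- a lower bound for the number of primes -/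
theorem primeCounting_ge (X : ℕ) (hX : 6 ≤ X) (L : ℝ) (hL : Real.log X ≤ L) :
    (X : ℝ) / 3 ≤ L * Nat.primeCounting X := by
  have hX1 : (1 : ℝ) < X := by exact_mod_cast (by omega : 1 < X)
  have hlog : 0 < Real.log X := Real.log_pos hX1
  have h1 := Chebyshev.pi_ge X
  rw [div_le_iff₀ hlog] at h1
  have h2 : 2 * Real.log ((X : ℝ) + 1) ≤ X * Real.log 2 := by
    have h3 : (((X : ℝ) + 1) ^ 2) ≤ 2 ^ X := by exact_mod_cast succ_sq_le_two_pow X hX
    have h4 := Real.log_le_log (by positivity) h3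
    rw [Real.log_pow, Real.log_pow] at h4
    exact_mod_cast h4
  have h5 : (0.6931471803 : ℝ) < Real.log 2 := Real.log_two_gt_d9
  have h6 : (X : ℝ) / 3 ≤ X * Real.log 2 - Real.log ((X : ℝ) + 1) := by
    nlinarith
  calc (X : ℝ) / 3 ≤ X * Real.log 2 - Real.log ((X : ℝ) + 1) := h6
    _ ≤ Nat.primeCounting X * Real.log X := h1
    _ ≤ Nat.primeCounting X * L := mul_le_mul_of_nonneg_left hL (Nat.cast_nonneg _)
    _ = _ := mul_comm _ _

end Pool.Agent.helper46.PY
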