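import Mathlib
import Pool.Agent.helper82.Weil.R
import Pool.Agent.helper46.PY.D
import Pool.Agent.helper46.PY.E

/-!
# Double character sums below the square root barrier, part F

Numerical part and assembly.
-/

set_option autoImplicit false

namespace Pool.Agent.helper46.PY

open Finset Pointwise Pool.Agent.helper82.Weil

/-- Numerical part: `K = k + 1 ≥ 2`, `e = p ^ η`. -/
theorem numeric (k : ℕ) (hk : 0 < k) (p e h X M P B S a1 C Q : ℝ) (hp : 1 ≤ p)
    (he : 2 ^ (2 * (k + 1) + 1) * ((k + 1).factorial : ℝ) ≤ e) (hh : 0 < h) (hX : h ≤ 2 * e ^ 2 * X)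
    (hM : X ≤ e * M) (hP0 : 0 < P) (hB0 : 0 ≤ B)
    (hS0 : 0 ≤ S) (hS : S ≤ P * B ^ (2 * k)) (ha0 : 0 ≤ a1)
    (h1 : p ^ (k + 1) * e ^ (8 * (k + 1)) ≤ h ^ (k + 1) * S)
    (h2 : p ^ (k + 1) * e ^ (8 * (k + 1)) ≤ p * S)
    (hPe : e ^ (8 * (k + 1)) ≤ P)
    (hC0 : 0 ≤ C) (hC : C ≤ (k + 1).factorial * (X ^ (k + 1) / p + 1))
    (ha : a1 ^ (k + 1) ≤ ((P * B) ^ 2) ^ k * (C * M ^ (k + 1) * (P * B ^ 4)))
    (hQ : Q ≤ a1 + M ^ 2 * (P * B ^ 2)) :
    Q * (p * e) ≤ (M * P * B ^ 2) ^ 2 := by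
  set f : ℝ := ((k + 1).factorial : ℝ) with hf
  have hf1 : 1 ≤ f := by
    rw [hf]
    exact_mod_cast Nat.one_le_iff_ne_zero.2 (Nat.factorial_ne_zero _)
  have hp0 : 0 < p := by linarith
  have h2k : (1 : ℝ) ≤ 2 ^ (2 * (k + 1) + 1) := one_le_pow₀ (by norm_num)
  have he1 : 1 ≤ e := by nlinarith
  have he0 : 0 < e := by linarith
  have he2 : 2 ≤ e := by
    have : (2 : ℝ) ≤ 2 ^ (2 * (k + 1) + 1) := by
      calc (2 : ℝ) = 2 ^ 1 := by norm_num
        _ ≤ 2 ^ (2 * (k + 1) + 1) := pow_le_pow_right₀ (by norm_num) (by omega)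
    nlinarith
  have hX0 : 0 < X := by
    by_contra hcon
    push Not at hcon
    have : 2 * e ^ 2 * X ≤ 0 := mul_nonpos_of_nonneg_of_nonpos (by positivity) hcon
    linarith
  have hM0 : 0 < M := by
    by_contra hcon
    push Not at hcon
    have : e * M ≤ 0 := mul_nonpos_of_nonneg_of_nonpos he0.le hcon
    linarith
  -- powers of e
  have hfe : 2 ^ (2 * (k + 1) + 1) * f ≤ e ^ (4 * (k + 1)) := by
    refine he.trans ?_
    calc e = e ^ 1 := (pow_one e).symm
      _ ≤ e ^ (4 * (k + 1)) := pow_le_pow_right₀ he1 (by omega)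
  -- (b2)
  have hb2 : f * 2 ^ (k + 2) * p ^ (k + 1) * e ^ (2 * (k + 1)) ≤ X ^ (k + 1) * S := by
    have h3 : h ^ (k + 1) ≤ 2 ^ (k + 1) * e ^ (2 * (k + 1)) * X ^ (k + 1) := by
      calc h ^ (k + 1) ≤ (2 * e ^ 2 * X) ^ (k + 1) := pow_le_pow_left₀ hh.le hX _
        _ = _ := by rw [mul_pow, mul_pow, ← pow_mul]
    have h4 : p ^ (k + 1) * e ^ (8 * (k + 1)) ≤
        2 ^ (k + 1) * e ^ (2 * (k + 1)) * (X ^ (k + 1) * S) := by
      refine h1.trans ?_
      calc h ^ (k + 1) * S ≤ (2 ^ (k + 1) * e ^ (2 * (k + 1)) * X ^ (k + 1)) * S :=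
            mul_le_mul_of_nonneg_right h3 hS0
        _ = _ := by ring
    have h5 : 2 ^ (k + 1) * e ^ (2 * (k + 1)) *
        (f * 2 ^ (k + 2) * p ^ (k + 1) * e ^ (2 * (k + 1))) ≤ p ^ (k + 1) * e ^ (8 * (k + 1)) := by
      calc 2 ^ (k + 1) * e ^ (2 * (k + 1)) * (f * 2 ^ (k + 2) * p ^ (k + 1) * e ^ (2 * (k + 1)))
          = p ^ (k + 1) * e ^ (4 * (k + 1)) * (2 ^ (2 * (k + 1) + 1) * f) := by
            rw [show 2 * (k + 1) + 1 = (k + 1) + (k + 2) by ring, pow_add (2 : ℝ),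
              show 4 * (k + 1) = 2 * (k + 1) + 2 * (k + 1) by ring, pow_add e]
            ring
        _ ≤ p ^ (k + 1) * e ^ (4 * (k + 1)) * e ^ (4 * (k + 1)) :=
            mul_le_mul_of_nonneg_left hfe (by positivity)
        _ = _ := by
            rw [mul_assoc, ← pow_add]
            congr 2
            ring
    have h6 : (0 : ℝ) < 2 ^ (k + 1) * e ^ (2 * (k + 1)) := by positivity
    exact le_of_mul_le_mul_left (h5.trans h4) h6
  -- (b1)
  have hb1 : f * 2 ^ (k + 2) * p ^ (k + 1) * e ^ (2 * (k + 1)) ≤ p * S := by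
    refine le_trans ?_ h2
    have h3 : f * 2 ^ (k + 2) ≤ e ^ (4 * (k + 1)) := by
      refine le_trans ?_ hfe
      rw [mul_comm]
      refine mul_le_mul_of_nonneg_right ?_ (by linarith)
      exact pow_le_pow_right₀ (by norm_num) (by omega)
    calc f * 2 ^ (k + 2) * p ^ (k + 1) * e ^ (2 * (k + 1))
        ≤ e ^ (4 * (k + 1)) * p ^ (k + 1) * e ^ (2 * (k + 1)) := by
          refine mul_le_mul_of_nonneg_right ?_ (by positivity)
          exact mul_le_mul_of_nonneg_right h3 (by positivity)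
      _ = p ^ (k + 1) * e ^ (6 * (k + 1)) := by
          rw [show 6 * (k + 1) = 4 * (k + 1) + 2 * (k + 1) by ring, pow_add e]
          ring
      _ ≤ p ^ (k + 1) * e ^ (8 * (k + 1)) :=
          mul_le_mul_of_nonneg_left (pow_le_pow_right₀ he1 (by omega)) (by positivity)
  -- the key inequality
  have hkey : C * (2 * (p * e)) ^ (k + 1) ≤ M ^ (k + 1) * (P * B ^ (2 * k)) := by
    have h3 : C * (2 * (p * e)) ^ (k + 1) * e ^ (k + 1) ≤ X ^ (k + 1) * S := by
      have h4 : C * (2 * (p * e)) ^ (k + 1) * e ^ (k + 1) ≤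
          f * (X ^ (k + 1) / p + 1) * (2 ^ (k + 1) * p ^ (k + 1) * e ^ (2 * (k + 1))) := by
        calc C * (2 * (p * e)) ^ (k + 1) * e ^ (k + 1)
            = C * (2 ^ (k + 1) * p ^ (k + 1) * e ^ (2 * (k + 1))) := by
              rw [show 2 * (k + 1) = (k + 1) + (k + 1) by ring, pow_add e, mul_pow, mul_pow]
              ring
          _ ≤ _ := mul_le_mul_of_nonneg_right hC (by positivity)
      refine h4.trans ?_
      have h5 : f * (2 ^ (k + 1) * p ^ (k + 1) * e ^ (2 * (k + 1))) * 2 ≤ X ^ (k + 1) * S := by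
        calc f * (2 ^ (k + 1) * p ^ (k + 1) * e ^ (2 * (k + 1))) * 2
            = f * 2 ^ (k + 2) * p ^ (k + 1) * e ^ (2 * (k + 1)) := by
              rw [show k + 2 = (k + 1) + 1 by ring, pow_succ (2 : ℝ) (k + 1)]
              ring
          _ ≤ _ := hb2
      have h6 : f * (2 ^ (k + 1) * p ^ (k + 1) * e ^ (2 * (k + 1))) * 2 ≤ p * S := by
        calc f * (2 ^ (k + 1) * p ^ (k + 1) * e ^ (2 * (k + 1))) * 2
            = f * 2 ^ (k + 2) * p ^ (k + 1) * e ^ (2 * (k + 1)) := by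
              rw [show k + 2 = (k + 1) + 1 by ring, pow_succ (2 : ℝ) (k + 1)]
              ring
          _ ≤ _ := hb1
      have h7 : X ^ (k + 1) / p * (f * (2 ^ (k + 1) * p ^ (k + 1) * e ^ (2 * (k + 1))) * 2) ≤
          X ^ (k + 1) * S := by
        calc X ^ (k + 1) / p * (f * (2 ^ (k + 1) * p ^ (k + 1) * e ^ (2 * (k + 1))) * 2)
            ≤ X ^ (k + 1) / p * (p * S) := mul_le_mul_of_nonneg_left h6 (by positivity)
          _ = X ^ (k + 1) * S := by
              field_simp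
      linarith
    have h8 : X ^ (k + 1) * S ≤ (M ^ (k + 1) * (P * B ^ (2 * k))) * e ^ (k + 1) := by
      calc X ^ (k + 1) * S ≤ (e * M) ^ (k + 1) * (P * B ^ (2 * k)) :=
            mul_le_mul (pow_le_pow_left₀ hX0.le hM _) hS hS0 (by positivity)
        _ = _ := by rw [mul_pow]; ring
    have h9 : (0 : ℝ) < e ^ (k + 1) := by positivity
    exact le_of_mul_le_mul_right (h3.trans h8) h9
  -- the off-diagonal part
  have hoff : a1 * (2 * (p * e)) ≤ (M * P * B ^ 2) ^ 2 := by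
    have h3 : (a1 * (2 * (p * e))) ^ (k + 1) ≤ ((M * P * B ^ 2) ^ 2) ^ (k + 1) := by
      calc (a1 * (2 * (p * e))) ^ (k + 1) = a1 ^ (k + 1) * (2 * (p * e)) ^ (k + 1) := mul_pow _ _ _
        _ ≤ (((P * B) ^ 2) ^ k * (C * M ^ (k + 1) * (P * B ^ 4))) * (2 * (p * e)) ^ (k + 1) :=
            mul_le_mul_of_nonneg_right ha (by positivity)
        _ = (((P * B) ^ 2) ^ k * (M ^ (k + 1) * (P * B ^ 4))) * (C * (2 * (p * e)) ^ (k + 1)) := by
            ring
        _ ≤ (((P * B) ^ 2) ^ k * (M ^ (k + 1) * (P * B ^ 4))) *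
            (M ^ (k + 1) * (P * B ^ (2 * k))) :=
            mul_le_mul_of_nonneg_left hkey (by positivity)
        _ = _ := by ring
    exact (pow_le_pow_iff_left₀ (by positivity) (by positivity) (by omega)).mp h3
  -- the diagonal part
  have hPB : 2 * (p * e) ≤ P * B ^ 2 := by
    have hE : 2 * e ≤ e ^ (8 * (k + 1)) := by
      calc 2 * e ≤ e * e := by nlinarith
        _ = e ^ 2 := (sq e).symm
        _ ≤ e ^ (8 * (k + 1)) := pow_le_pow_right₀ he1 (by omega)
    rcases le_total (B ^ 2) p with hBp | hBp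
    · obtain ⟨j, rfl⟩ : ∃ j, k = j + 1 := ⟨k - 1, by omega⟩
      have h3 : p * (P * B ^ (2 * (j + 1))) ≤ p ^ (j + 1) * (P * B ^ 2) := by
        have h4 : B ^ (2 * (j + 1)) = (B ^ 2) ^ j * B ^ 2 := by
          rw [← pow_mul, ← pow_add]
          congr 1
        calc p * (P * B ^ (2 * (j + 1))) = p * (B ^ 2) ^ j * (P * B ^ 2) := by rw [h4]; ring
          _ ≤ p * p ^ j * (P * B ^ 2) := by
              refine mul_le_mul_of_nonneg_right ?_ (by positivity)
              exact mul_le_mul_of_nonneg_left (pow_le_pow_left₀ (by positivity) hBp j) hp0.le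
          _ = _ := by ring
      have h5 : p ^ (j + 1) * (p * e ^ (8 * (j + 1 + 1))) ≤ p ^ (j + 1) * (P * B ^ 2) := by
        calc p ^ (j + 1) * (p * e ^ (8 * (j + 1 + 1))) = p ^ (j + 1 + 1) * e ^ (8 * (j + 1 + 1)) := by
              ring
          _ ≤ p * S := h2
          _ ≤ p * (P * B ^ (2 * (j + 1))) := mul_le_mul_of_nonneg_left hS hp0.le
          _ ≤ _ := h3
      have h6 := le_of_mul_le_mul_left h5 (by positivity)
      refine le_trans ?_ h6
      calc 2 * (p * e) = p * (2 * e) := by ring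
        _ ≤ _ := mul_le_mul_of_nonneg_left hE hp0.le
    · calc 2 * (p * e) = (2 * e) * p := by ring
        _ ≤ e ^ (8 * (k + 1)) * p := mul_le_mul_of_nonneg_right hE hp0.le
        _ ≤ P * B ^ 2 := mul_le_mul hPe hBp hp0.le hP0.le
  have hdiag : M ^ 2 * (P * B ^ 2) * (2 * (p * e)) ≤ (M * P * B ^ 2) ^ 2 := by
    calc M ^ 2 * (P * B ^ 2) * (2 * (p * e)) ≤ M ^ 2 * (P * B ^ 2) * (P * B ^ 2) :=
          mul_le_mul_of_nonneg_left hPB (by positivity)
      _ = _ := by ring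
  have hpe : 0 ≤ p * e := by positivity
  have h3 : Q * (p * e) ≤ (a1 + M ^ 2 * (P * B ^ 2)) * (p * e) := mul_le_mul_of_nonneg_right hQ hpe
  linarith

end Pool.Agent.helper46.PY
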