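import Mathlib
import Pool.Agent.helper46.PY.F

/-!
# Double character sums below the square root barrier, part G

Assembly.
-/

set_option autoImplicit false

namespace Pool.Agent.helper46.PY

open Finset Pointwise Pool.Agent.helper82.Weil

/-- for every constant `K` and `η > 0`, `p ^ η ≥ K` and `8 log p ≤ p ^ η` for large `p` -/
theorem large (η K : ℝ) (hη : 0 < η) : ∃ p₀ : ℕ, ∀ p : ℕ, p₀ < p →
    (1 : ℝ) < p ∧ K ≤ (p : ℝ) ^ η ∧ 8 * Real.log p ≤ (p : ℝ) ^ η := by
  have h1 : Filter.Tendsto (fun p : ℕ => (p : ℝ) ^ η) Filter.atTop Filter.atTop :=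
    (tendsto_rpow_atTop hη).comp tendsto_natCast_atTop_atTop
  have h2 := (isLittleO_log_rpow_atTop hη).bound (show (0 : ℝ) < 1 / 8 by norm_num)
  have h3 := (tendsto_natCast_atTop_atTop (R := ℝ)).eventually h2
  have h4 := (h1.eventually_ge_atTop K).and h3
  rw [Filter.eventually_atTop] at h4
  obtain ⟨p₀, hp₀⟩ := h4
  refine ⟨max p₀ 1, fun p hp => ?_⟩
  have hp1 : (1 : ℝ) < p := by exact_mod_cast lt_of_le_of_lt (le_max_right p₀ 1) hp
  obtain ⟨h5, h6⟩ := hp₀ p (le_of_lt (lt_of_le_of_lt (le_max_left p₀ 1) hp))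
  refine ⟨hp1, h5, ?_⟩
  rw [Real.norm_eq_abs, Real.norm_eq_abs, abs_of_nonneg (Real.log_nonneg hp1.le),
    abs_of_nonneg (Real.rpow_nonneg (by linarith) _)] at h6
  linarith

theorem main (r k : ℕ) (ε : ℝ) (hr : 0 < r) (hk : 0 < k) (hε : 0 < ε) :
    ∃ p₀ : ℕ, ∃ δ : ℝ, 0 < δ ∧ ∀ p : ℕ, p.Prime → p₀ < p →
      ∀ (A B : Finset (ZMod p)) (v : Fin r → ZMod p) (N : Fin r → ℕ),
        (p : ℝ) ^ ε ≤ ((gap v N).card : ℝ) →
        ((A + gap v N).card : ℝ) ≤ (p : ℝ) ^ δ * A.card →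
        (p : ℝ) ^ ((k : ℝ) + 1 + ε) ≤
          min (p : ℝ) (((gap v N).card : ℝ) ^ (((k : ℝ) + 1) / r)) * A.card *
            (B.card : ℝ) ^ (2 * k) →
        ∀ χ : MulChar (ZMod p) ℂ, χ ≠ 1 → ∀ β : ZMod p → ℂ, (∀ b, ‖β b‖ ≤ 1) →
          ∑ a ∈ A, ‖∑ b ∈ B, β b * χ (a + b)‖ ≤ (p : ℝ) ^ (-δ) * A.card * B.card := by
  have hrR : (0 : ℝ) < r := by exact_mod_cast hr
  have hkR : (0 : ℝ) < (k : ℝ) + 1 := by positivity
  set η : ℝ := ε / (8 * (k + 1) * r) with hη
  have hη0 : 0 < η := by positivity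
  obtain ⟨kk, p₁, δ, hkk, hδ, key⟩ := asymp_three η hη0
  obtain ⟨p₂, hp₂⟩ := large η (2 ^ (2 * (k + 1) + 1) * ((k + 1).factorial : ℝ) + 12) hη0
  refine ⟨max p₁ p₂, δ, hδ, ?_⟩
  intro p hp hpp A B v N hg hAG hyp χ hχ β hβ
  have : Fact p.Prime := ⟨hp⟩
  obtain ⟨hp1, heK, hlog⟩ := hp₂ p (lt_of_le_of_lt (le_max_right _ _) hpp)
  have hp0 : (0 : ℝ) < p := by linarith
  set e : ℝ := (p : ℝ) ^ η with he
  have hfac : (0 : ℝ) < 2 ^ (2 * (k + 1) + 1) * ((k + 1).factorial : ℝ) := by positivity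
  have he12 : 12 ≤ e := by linarith
  have heK' : 2 ^ (2 * (k + 1) + 1) * ((k + 1).factorial : ℝ) ≤ e := by linarith
  have he0 : 0 < e := by linarith
  have he1 : 1 ≤ e := by linarith
  have heε : (p : ℝ) ^ ε = e ^ (8 * (k + 1) * r) := by
    rw [he, ← Real.rpow_natCast, ← Real.rpow_mul hp0.le]
    congr 1
    rw [hη]
    push_cast
    field_simp
  -- the progression
  set G := gap v N with hG
  set g : ℝ := (G.card : ℝ) with hgdef
  have hg1 : 1 ≤ g := by
    rw [hgdef]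
    exact_mod_cast (gap_nonempty v N).card_pos
  have hg0 : 0 < g := by linarith
  have hgp : g ≤ p := by
    rw [hgdef]
    have h1 := Finset.card_le_univ G
    rw [ZMod.card] at h1
    exact_mod_cast h1
  set h : ℝ := g ^ (1 / (r : ℝ)) with hh
  have hh0 : 0 < h := Real.rpow_pos_of_pos hg0 _
  have hhr : h ^ r = g := by
    rw [hh, ← Real.rpow_natCast, ← Real.rpow_mul hg0.le, one_div, inv_mul_cancel₀ hrR.ne',
      Real.rpow_one]
  have hhk : h ^ (k + 1) = g ^ (((k : ℝ) + 1) / r) := by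
    rw [hh, ← Real.rpow_natCast, ← Real.rpow_mul hg0.le]
    congr 1
    push_cast
    ring
  have hhe : e ^ (8 * (k + 1)) ≤ h := by
    have h1 : (e ^ (8 * (k + 1))) ^ r ≤ h ^ r := by
      rw [hhr, ← pow_mul, ← heε]
      exact hg
    exact (pow_le_pow_iff_left₀ (by positivity) hh0.le hr.ne').mp h1
  have hhg : h ≤ g := by
    rw [hh]
    calc g ^ (1 / (r : ℝ)) ≤ g ^ (1 : ℝ) := by
          apply Real.rpow_le_rpow_of_exponent_le hg1
          rw [div_le_one hrR]
          exact_mod_cast hr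
      _ = g := Real.rpow_one g
  -- the length
  set x : ℝ := h / e ^ 2 with hx
  have hx0 : 0 < x := by positivity
  have hx12 : 12 ≤ x := by
    rw [hx, le_div_iff₀ (by positivity)]
    refine le_trans ?_ hhe
    calc 12 * e ^ 2 ≤ e * e ^ 2 := mul_le_mul_of_nonneg_right he12 (by positivity)
      _ = e ^ 3 := by ring
      _ ≤ e ^ (8 * (k + 1)) := pow_le_pow_right₀ he1 (by omega)
  set X : ℕ := ⌊x⌋₊ with hX
  have hXx : (X : ℝ) ≤ x := Nat.floor_le hx0.le
  have hxX : x < X + 1 := Nat.lt_floor_add_one x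
  have hX6 : 6 ≤ X := by
    have : (6 : ℝ) ≤ X := by linarith
    exact_mod_cast this
  have hXh : h ≤ 2 * e ^ 2 * X := by
    have h1 : x ≤ 2 * X := by linarith
    calc h = e ^ 2 * x := by rw [hx]; field_simp
      _ ≤ e ^ 2 * (2 * X) := mul_le_mul_of_nonneg_left h1 (by positivity)
      _ = _ := by ring
  have hxh : x < h := by
    rw [hx, div_lt_iff₀ (by positivity)]
    have : 1 < e ^ 2 := by nlinarith
    nlinarith
  have hXp : X < p := by
    have : (X : ℝ) < p := by linarith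
    exact_mod_cast this
  have hXpos : (0 : ℝ) < X := by exact_mod_cast (by omega : 0 < X)
  -- the primes
  set M := MU p X with hM
  have hMX : (X : ℝ) ≤ e * M.card := by
    have h1 := primeCounting_ge X hX6 (e / 8) (by
      have h2 : Real.log X ≤ Real.log p := Real.log_le_log hXpos (by exact_mod_cast hXp.le)
      linarith)
    have h3 : (Nat.primeCounting X : ℝ) ≤ M.card := by exact_mod_cast card_MU_ge p X hXp
    have h4 : e / 8 * Nat.primeCounting X ≤ e / 8 * M.card :=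
      mul_le_mul_of_nonneg_left h3 (by positivity)
    have h5 : (0 : ℝ) ≤ M.card := Nat.cast_nonneg _
    nlinarith
  have hMpos : 0 < (M.card : ℝ) := by
    by_contra hcon
    push Not at hcon
    have : e * (M.card : ℝ) ≤ 0 := mul_nonpos_of_nonneg_of_nonpos he0.le hcon
    linarith
  -- the set of translations
  set T := gap v fun i => N i / X with hT
  have hTcard : e < (T.card : ℝ) := by
    have h1 : g ≤ T.card * (3 * x) ^ r := by
      have h2 := card_gap_le v N X (by omega)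
      have h3 : g ≤ (T.card : ℝ) * (2 * X + 1) ^ r := by
        rw [hgdef]
        exact_mod_cast h2
      refine h3.trans (mul_le_mul_of_nonneg_left ?_ (Nat.cast_nonneg _))
      exact pow_le_pow_left₀ (by positivity) (by linarith) _
    have h2 : (3 * x) ^ r = g * (3 / e ^ 2) ^ r := by
      rw [← hhr, ← mul_pow]
      congr 1
      rw [hx]
      ring
    rw [h2] at h1
    have h3 : 1 ≤ (T.card : ℝ) * (3 / e ^ 2) ^ r := by
      have h4 : g * 1 ≤ g * ((T.card : ℝ) * (3 / e ^ 2) ^ r) := by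
        calc g * 1 = g := mul_one g
          _ ≤ T.card * (g * (3 / e ^ 2) ^ r) := h1
          _ = _ := by ring
      exact le_of_mul_le_mul_left h4 hg0
    have h4 : (3 / e ^ 2) ^ r ≤ 3 / e ^ 2 := by
      have h5 : 3 / e ^ 2 ≤ 1 := by
        rw [div_le_one (by positivity)]
        nlinarith
      calc (3 / e ^ 2) ^ r ≤ (3 / e ^ 2) ^ 1 :=
            pow_le_pow_of_le_one (by positivity) h5 (by omega)
        _ = _ := pow_one _
    have h6 : 1 ≤ (T.card : ℝ) * (3 / e ^ 2) :=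
      h3.trans (mul_le_mul_of_nonneg_left h4 (Nat.cast_nonneg _))
    have h7 : e ^ 2 ≤ (T.card : ℝ) * 3 := by
      have h8 : e ^ 2 * 1 ≤ e ^ 2 * ((T.card : ℝ) * (3 / e ^ 2)) :=
        mul_le_mul_of_nonneg_left h6 (by positivity)
      calc e ^ 2 = e ^ 2 * 1 := (mul_one _).symm
        _ ≤ e ^ 2 * ((T.card : ℝ) * (3 / e ^ 2)) := h8
        _ = (T.card : ℝ) * 3 := by field_simp
    nlinarith
  -- the set P
  set P := A + G with hP
  have hpow : (0 : ℝ) < (p : ℝ) ^ ((k : ℝ) + 1 + ε) := Real.rpow_pos_of_pos hp0 _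
  have hAne : A.Nonempty := by
    rw [Finset.nonempty_iff_ne_empty]
    rintro rfl
    simp only [Finset.card_empty, Nat.cast_zero, mul_zero, zero_mul] at hyp
    linarith
  have hAP : (A.card : ℝ) ≤ P.card := by
    exact_mod_cast Finset.card_le_card_add_right (gap_nonempty v N)
  have hGP : g ≤ P.card := by
    rw [hgdef]
    exact_mod_cast Finset.card_le_card_add_left hAne
  have hP0 : (0 : ℝ) < P.card := by linarith
  have hmem : ∀ a ∈ A, ∀ m ∈ M, ∀ t ∈ T, a - (m : ZMod p) * t ∈ P := by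
    intro a ha m hm t ht
    rw [hM, mem_MU] at hm
    have h1 := neg_mul_mem_gap v N X _ hm.2 t ht
    rw [ZMod.natCast_val, ZMod.cast_id] at h1
    rw [sub_eq_add_neg]
    exact Finset.add_mem_add ha h1
  -- the hypothesis
  set S : ℝ := (A.card : ℝ) * (B.card : ℝ) ^ (2 * k) with hS
  have hS0 : 0 ≤ S := by positivity
  have hyp' : (p : ℝ) ^ (k + 1) * e ^ (8 * (k + 1) * r) ≤ min (p : ℝ) (h ^ (k + 1)) * S := by
    have h1 : (p : ℝ) ^ ((k : ℝ) + 1 + ε) = (p : ℝ) ^ (k + 1) * e ^ (8 * (k + 1) * r) := by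
      rw [Real.rpow_add hp0, heε]
      congr 1
      rw [← Real.rpow_natCast]
      push_cast
      rfl
    rw [← h1, hhk]
    refine hyp.trans (le_of_eq ?_)
    rw [hS]
    ring
  have heE : e ^ (8 * (k + 1)) ≤ e ^ (8 * (k + 1) * r) :=
    pow_le_pow_right₀ he1 (Nat.le_mul_of_pos_right _ hr)
  have hyp'' : (p : ℝ) ^ (k + 1) * e ^ (8 * (k + 1)) ≤ min (p : ℝ) (h ^ (k + 1)) * S :=
    le_trans (mul_le_mul_of_nonneg_left heE (by positivity)) hyp'
  -- collisions
  set a1 : ℝ := ∑ z, W M (fF P B) z ^ 2 with ha1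
  have ha10 : 0 ≤ a1 := Finset.sum_nonneg fun _ _ => by positivity
  set C : ℕ := (k + 1).factorial * (X ^ (k + 1) / p + 1) with hC
  have hcoll := collision_fF M P B k C (fun u => R_bound p X (k + 1) u)
  have hQ := numeric k hk p e h X M.card P.card B.card S a1 C
    (∑ z : ZMod p × ZMod p, (∑ t ∈ M, (cnt P B (t • z) : ℝ)) ^ 2) hp1.le heK' hh0 hXh hMX hP0
    (Nat.cast_nonneg _) hS0
    (mul_le_mul_of_nonneg_right hAP (by positivity)) ha10
    (hyp''.trans (mul_le_mul_of_nonneg_right (min_le_right _ _) hS0))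
    (hyp''.trans (mul_le_mul_of_nonneg_right (min_le_left _ _) hS0))
    (hhe.trans (hhg.trans hGP)) (Nat.cast_nonneg _)
    (by
      rw [hC]
      push_cast
      refine mul_le_mul_of_nonneg_left ?_ (Nat.cast_nonneg _)
      have h1 : (((X ^ (k + 1) / p : ℕ) : ℝ)) ≤ (X : ℝ) ^ (k + 1) / p := by
        have h2 := Nat.cast_div_le (α := ℝ) (m := X ^ (k + 1)) (n := p)
        push_cast at h2
        exact h2
      linarith)
    hcoll (total_le M P B)
  -- the sum
  have h0 := pair_bound χ hχ A P T B M hmem β hβ kk hkk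
  rw [ZMod.card] at h0
  have hE0 : 0 ≤ ∑ a ∈ A, ‖∑ b ∈ B, β b * χ (a + b)‖ ^ 2 :=
    Finset.sum_nonneg fun _ _ => by positivity
  have hpe : (p : ℝ) ^ (1 + η) = p * e := by
    rw [Real.rpow_add hp0, Real.rpow_one]
  have h1 := key p (lt_of_le_of_lt (le_max_left _ _) hpp) M.card T.card A.card P.card B.card _ _
    hMpos hTcard (by positivity) hP0.le hAG (by positivity)
    (Finset.sum_nonneg fun _ _ => by positivity) hE0 h0 (by rw [hpe]; exact hQ)
  have h2 : (∑ a ∈ A, ‖∑ b ∈ B, β b * χ (a + b)‖) ^ 2 ≤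
      (A.card : ℝ) * ∑ a ∈ A, ‖∑ b ∈ B, β b * χ (a + b)‖ ^ 2 :=
    sq_sum_le_card_mul_sum_sq
  have h3 : (∑ a ∈ A, ‖∑ b ∈ B, β b * χ (a + b)‖) ^ 2 ≤
      ((p : ℝ) ^ (-δ) * (A.card : ℝ) * (B.card : ℝ)) ^ 2 := by
    refine h2.trans ?_
    calc (A.card : ℝ) * ∑ a ∈ A, ‖∑ b ∈ B, β b * χ (a + b)‖ ^ 2
        ≤ (A.card : ℝ) * (((p : ℝ) ^ (-δ) * B.card) ^ 2 * A.card) :=
          mul_le_mul_of_nonneg_left h1 (by positivity)
      _ = _ := by ring
  exact (pow_le_pow_iff_left₀ (Finset.sum_nonneg fun _ _ => norm_nonneg _) (by positivity)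
    (by norm_num)).mp h3

end Pool.Agent.helper46.PY
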