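import Mathlib
import Pool.Agent.helper46.PY.A

/-!
# Double character sums below the square root barrier, part H

General interpolation for log-convex sequences.
-/

set_option autoImplicit false

namespace Pool.Agent.helper46.PY

open Finset

theorem lc_ratio (a : ℕ → ℝ) (h0 : ∀ n, 0 ≤ a n) (h : ∀ n, a (n + 1) ^ 2 ≤ a n * a (n + 2))
    (i n : ℕ) : a (i + 1) * a (i + n) ≤ a i * a (i + n + 1) := by
  induction n with
  | zero => rw [add_zero, mul_comm]
  | succ n ih =>
    have e1 : i + (n + 1) = i + n + 1 := by ring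
    rw [e1]
    rcases (h0 (i + n + 1)).eq_or_lt with h1 | h1
    · rw [← h1, mul_zero]
      exact mul_nonneg (h0 i) (h0 _)
    · rcases (h0 (i + n)).eq_or_lt with h2 | h2
      · have h3 := h (i + n)
        rw [← h2, zero_mul] at h3
        have h4 : 0 < a (i + n + 1) ^ 2 := by positivity
        exact absurd h3 (not_le.2 h4)
      · have h3 : a (i + 1) * a (i + n) * a (i + n + 1) ^ 2 ≤
            a i * a (i + n + 1) * (a (i + n) * a (i + n + 2)) :=
          mul_le_mul ih (h (i + n)) (by positivity) (mul_nonneg (h0 i) h1.le)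
        have h4 : 0 < a (i + n) * a (i + n + 1) := by positivity
        have h5 : (a (i + n) * a (i + n + 1)) * (a (i + 1) * a (i + n + 1)) ≤
            (a (i + n) * a (i + n + 1)) * (a i * a (i + n + 1 + 1)) := by
          calc (a (i + n) * a (i + n + 1)) * (a (i + 1) * a (i + n + 1))
              = a (i + 1) * a (i + n) * a (i + n + 1) ^ 2 := by ring
            _ ≤ a i * a (i + n + 1) * (a (i + n) * a (i + n + 2)) := h3
            _ = _ := by ring
        exact le_of_mul_le_mul_left h5 h4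

theorem lc_step (a : ℕ → ℝ) (h0 : ∀ n, 0 ≤ a n) (h : ∀ n, a (n + 1) ^ 2 ≤ a n * a (n + 2))
    (J : ℕ) : ∀ m, J ≤ m + 1 → a J * a m ^ J ≤ a 0 * a (m + 1) ^ J := by
  induction J with
  | zero => intro m _; simp
  | succ J ih =>
    intro m hm
    have h1 : a (J + 1) * a m ≤ a J * a (m + 1) := by
      obtain ⟨n, rfl⟩ : ∃ n, m = J + n := ⟨m - J, by omega⟩
      exact lc_ratio a h0 h J n
    have h2 := ih m (by omega)
    calc a (J + 1) * a m ^ (J + 1) = (a (J + 1) * a m) * a m ^ J := by ring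
      _ ≤ (a J * a (m + 1)) * a m ^ J := mul_le_mul_of_nonneg_right h1 (pow_nonneg (h0 m) J)
      _ = a (m + 1) * (a J * a m ^ J) := by ring
      _ ≤ a (m + 1) * (a 0 * a (m + 1) ^ J) := mul_le_mul_of_nonneg_left h2 (h0 _)
      _ = a 0 * a (m + 1) ^ (J + 1) := by ring

/-- interpolation: `a_J^K ≤ a_0^(K-J) a_K^J`, `K = J + d` -/
theorem lc_interp (a : ℕ → ℝ) (h0 : ∀ n, 0 ≤ a n) (h : ∀ n, a (n + 1) ^ 2 ≤ a n * a (n + 2))
    (J d : ℕ) : a J ^ (J + d) ≤ a 0 ^ d * a (J + d) ^ J := by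
  induction d with
  | zero => simp
  | succ d ih =>
    have h1 := lc_step a h0 h J (J + d) (by omega)
    calc a J ^ (J + (d + 1)) = a J * a J ^ (J + d) := by
          rw [show J + (d + 1) = (J + d) + 1 by ring, pow_succ]
          ring
      _ ≤ a J * (a 0 ^ d * a (J + d) ^ J) := mul_le_mul_of_nonneg_left ih (h0 J)
      _ = a 0 ^ d * (a J * a (J + d) ^ J) := by ring
      _ ≤ a 0 ^ d * (a 0 * a (J + d + 1) ^ J) :=
          mul_le_mul_of_nonneg_left h1 (pow_nonneg (h0 0) d)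
      _ = a 0 ^ (d + 1) * a (J + (d + 1)) ^ J := by
          rw [show J + (d + 1) = J + d + 1 by ring]
          ring

/-- The principle: if `a_K ≤ c s a_(K-1) + Z` then `a_K ≤ (2 c s)^K a_0 + 2 Z`. -/
theorem lc_principle (a : ℕ → ℝ) (h0 : ∀ n, 0 ≤ a n) (h : ∀ n, a (n + 1) ^ 2 ≤ a n * a (n + 2))
    (k : ℕ) (b Z : ℝ) (hb : 0 ≤ b) (hZ : 0 ≤ Z) (hk : a (k + 1) ≤ b * a k + Z) :
    a (k + 1) ≤ (2 * b) ^ (k + 1) * a 0 + 2 * Z := by
  rcases le_or_gt (a (k + 1)) (2 * Z) with h1 | h1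
  · have : 0 ≤ (2 * b) ^ (k + 1) * a 0 := mul_nonneg (by positivity) (h0 0)
    linarith
  · have h2 : a (k + 1) ≤ 2 * b * a k := by linarith
    have hy : 0 < a (k + 1) := by linarith
    have h3 := lc_interp a h0 h k 1
    rw [pow_one] at h3
    have h4 : a (k + 1) ^ (k + 1) ≤ (2 * b) ^ (k + 1) * (a 0 * a (k + 1) ^ k) := by
      calc a (k + 1) ^ (k + 1) ≤ (2 * b * a k) ^ (k + 1) := pow_le_pow_left₀ hy.le h2 _
        _ = (2 * b) ^ (k + 1) * a k ^ (k + 1) := mul_pow _ _ _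
        _ ≤ _ := mul_le_mul_of_nonneg_left h3 (by positivity)
    have h5 : a (k + 1) * a (k + 1) ^ k ≤ ((2 * b) ^ (k + 1) * a 0) * a (k + 1) ^ k := by
      calc a (k + 1) * a (k + 1) ^ k = a (k + 1) ^ (k + 1) := by ring
        _ ≤ _ := h4
        _ = _ := by ring
    have h6 := le_of_mul_le_mul_right h5 (by positivity)
    linarith

section
variable {G X : Type*} [CommGroup G] [MulAction G X] [Fintype X]

theorem lc_W (M : Finset G) (f : X → ℝ) (n : ℕ) :
    (∑ x, (W M)^[n + 1] f x ^ 2) ^ 2 ≤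
      (∑ x, (W M)^[n] f x ^ 2) * ∑ x, (W M)^[n + 2] f x ^ 2 := by
  have h1 := logconv M ((W M)^[n] f)
  simp only [Function.iterate_succ_apply']
  exact h1

end

end Pool.Agent.helper46.PY
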