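import Mathlib
import Pool.Agent.helper46.PY.H
import Pool.Agent.helper46.PY.B

/-!
# Double character sums below the square root barrier, part I

Products of `K` primes of a set `S`: reduction to pairs of coprime products.
-/

set_option autoImplicit false

namespace Pool.Agent.helper46.PY

open Finset

/-- number of `K`-tuples of elements of `S` with product `n` -/
def rr (S : Finset ℕ) : ℕ → ℕ → ℕ
  | 0 => fun n => if n = 1 then 1 else 0
  | K + 1 => fun n => ∑ q ∈ S, if q ∣ n then rr S K (n / q) else 0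

theorem rr_succ (S : Finset ℕ) (K n : ℕ) :
    rr S (K + 1) n = ∑ q ∈ S, if q ∣ n then rr S K (n / q) else 0 := rfl

theorem rr_supp (S : Finset ℕ) (X : ℕ) (hS : ∀ q ∈ S, q.Prime ∧ q ≤ X) (K : ℕ) :
    ∀ n, rr S K n ≠ 0 → 1 ≤ n ∧ n ≤ X ^ K ∧ ∀ q, q.Prime → q ∣ n → q ∈ S := by
  induction K with
  | zero =>
    intro n hn
    have h1 : n = 1 := by
      by_contra h
      simp [rr, h] at hn
    subst h1
    refine ⟨le_rfl, by simp, fun q hq h => ?_⟩
    exact absurd (Nat.dvd_one.1 h) hq.one_lt.ne'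
  | succ K ih =>
    intro n hn
    rw [rr_succ] at hn
    obtain ⟨q, hq, hqn⟩ := Finset.exists_ne_zero_of_sum_ne_zero hn
    by_cases hd : q ∣ n
    · rw [if_pos hd] at hqn
      obtain ⟨m, rfl⟩ := hd
      have hq0 : 0 < q := (hS q hq).1.pos
      rw [Nat.mul_div_cancel_left _ hq0] at hqn
      obtain ⟨h1, h2, h3⟩ := ih m hqn
      refine ⟨Nat.mul_pos hq0 h1, ?_, ?_⟩
      · rw [pow_succ, mul_comm]
        exact Nat.mul_le_mul h2 (hS q hq).2
      · intro q' hq' hd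
        rcases (Nat.Prime.dvd_mul hq').1 hd with h4 | h4
        · have := (Nat.prime_dvd_prime_iff_eq hq' (hS q hq).1).1 h4
          rw [this]
          exact hq
        · exact h3 q' hq' h4
    · rw [if_neg hd] at hqn
      exact absurd rfl hqn

/-- the multiplicity of a prime factor is at most `K` -/
theorem rr_le_mul (S : Finset ℕ) (hS : ∀ q ∈ S, q.Prime) (K : ℕ) :
    ∀ (n q : ℕ), q ∈ S → q ∣ n → rr S (K + 1) n ≤ (K + 1) * rr S K (n / q) := by
  induction K with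
  | zero =>
    intro n q hq hd
    rw [rr_succ, zero_add, one_mul, ← Finset.sum_erase_add _ _ hq, if_pos hd]
    have h0 : ∑ q' ∈ S.erase q, (if q' ∣ n then rr S 0 (n / q') else 0) = 0 := by
      refine Finset.sum_eq_zero fun q' hq' => ?_
      rw [Finset.mem_erase] at hq'
      by_cases hd' : q' ∣ n
      · rw [if_pos hd']
        by_contra hne
        have h1 : n / q' = 1 := by
          by_contra h
          simp [rr, h] at hne
        have h2 : n = q' := by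
          rw [← Nat.div_mul_cancel hd', h1, one_mul]
        rw [h2] at hd
        exact hq'.1 ((Nat.prime_dvd_prime_iff_eq (hS q hq) (hS q' hq'.2)).1 hd).symm
      · rw [if_neg hd']
    rw [h0, zero_add]
  | succ K ih =>
    intro n q hq hd
    rw [rr_succ, ← Finset.sum_erase_add _ _ hq, if_pos hd]
    have h0 : ∑ q' ∈ S.erase q, (if q' ∣ n then rr S (K + 1) (n / q') else 0) ≤
        (K + 1) * rr S (K + 1) (n / q) := by
      rw [rr_succ S K (n / q), Finset.mul_sum]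
      refine (Finset.sum_le_sum (g := fun q' => (K + 1) *
        (if q' ∣ n / q then rr S K (n / q / q') else 0)) ?_).trans
        (Finset.sum_le_sum_of_subset (Finset.erase_subset _ _))
      intro q' hq'
      rw [Finset.mem_erase] at hq'
      by_cases hd' : q' ∣ n
      · rw [if_pos hd']
        have hcop : Nat.Coprime q q' :=
          (Nat.coprime_primes (hS q hq) (hS q' hq'.2)).2 (Ne.symm hq'.1)
        have hmul : q * q' ∣ n := hcop.mul_dvd_of_dvd_of_dvd hd hd'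
        have h1 : q ∣ n / q' := by
          refine (Nat.dvd_div_iff_mul_dvd hd').2 ?_
          rw [mul_comm]
          exact hmul
        have h2 : q' ∣ n / q := (Nat.dvd_div_iff_mul_dvd hd).2 hmul
        rw [if_pos h2, Nat.div_div_eq_div_mul, mul_comm q q', ← Nat.div_div_eq_div_mul]
        exact ih (n / q') q hq h1
      · rw [if_neg hd']
        exact Nat.zero_le _
    calc ∑ q' ∈ S.erase q, (if q' ∣ n then rr S (K + 1) (n / q') else 0) + rr S (K + 1) (n / q)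
        ≤ (K + 1) * rr S (K + 1) (n / q) + rr S (K + 1) (n / q) := Nat.add_le_add_right h0 _
      _ = (K + 1 + 1) * rr S (K + 1) (n / q) := by ring

theorem rr_le_factorial (S : Finset ℕ) (hS : ∀ q ∈ S, q.Prime) (K : ℕ) :
    ∀ n, rr S K n ≤ K.factorial := by
  induction K with
  | zero =>
    intro n
    simp only [rr, Nat.factorial_zero]
    split_ifs <;> omega
  | succ K ih =>
    intro n
    by_cases hn : rr S (K + 1) n = 0
    · rw [hn]
      exact Nat.zero_le _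
    · have hn' := hn
      rw [rr_succ] at hn'
      obtain ⟨q, hq, hqn⟩ := Finset.exists_ne_zero_of_sum_ne_zero hn'
      by_cases hd : q ∣ n
      · refine (rr_le_mul S hS K n q hq hd).trans ?_
        rw [Nat.factorial_succ]
        exact Nat.mul_le_mul_left _ (ih _)
      · rw [if_neg hd] at hqn
        exact absurd rfl hqn

section
variable (p : ℕ) [Fact p.Prime]

/-- the class of `n` as a unit -/
noncomputable def uu (n : ℕ) : (ZMod p)ˣ :=
  if h : Nat.Coprime n p then ZMod.unitOfCoprime n h else 1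

theorem uu_coe (n : ℕ) (h : Nat.Coprime n p) : ((uu p n : (ZMod p)ˣ) : ZMod p) = n := by
  unfold uu
  rw [dif_pos h, ZMod.coe_unitOfCoprime]

theorem uu_mul (m n : ℕ) (hm : Nat.Coprime m p) (hn : Nat.Coprime n p) :
    uu p (m * n) = uu p m * uu p n := by
  refine Units.ext ?_
  rw [Units.val_mul, uu_coe p _ (Nat.Coprime.mul_left hm hn), uu_coe p _ hm, uu_coe p _ hn,
    Nat.cast_mul]

theorem uu_one : uu p 1 = 1 := by
  refine Units.ext ?_
  rw [uu_coe p 1 (Nat.coprime_one_left p)]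
  simp

theorem coprime_of_lt' (n : ℕ) (h1 : 1 ≤ n) (h2 : n < p) : Nat.Coprime n p := by
  have hp : p.Prime := Fact.out
  exact ((Nat.coprime_primes_or p n hp h1 h2))
where
  Nat.coprime_primes_or (p n : ℕ) (hp : p.Prime) (h1 : 1 ≤ n) (h2 : n < p) : Nat.Coprime n p :=
    (Nat.coprime_of_lt_prime (by omega) h2 hp).symm

theorem uu_inj (m n : ℕ) (hm : m < p) (hn : n < p) (hm1 : 1 ≤ m) (hn1 : 1 ≤ n)
    (h : uu p m = uu p n) : m = n := by
  have h1 : ((uu p m : (ZMod p)ˣ) : ZMod p).val = ((uu p n : (ZMod p)ˣ) : ZMod p).val := by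
    rw [h]
  rw [uu_coe p m (coprime_of_lt' p m hm1 hm), uu_coe p n (coprime_of_lt' p n hn1 hn)] at h1
  rwa [ZMod.val_natCast_of_lt hm, ZMod.val_natCast_of_lt hn] at h1

/-- the set of units of the elements of `S` -/
noncomputable def MS (S : Finset ℕ) : Finset (ZMod p)ˣ := S.image (uu p)

variable {p}

theorem card_MS (S : Finset ℕ) (hS : ∀ q ∈ S, 1 ≤ q ∧ q < p) : (MS p S).card = S.card := by
  unfold MS
  refine Finset.card_image_of_injOn ?_
  intro m hm n hn h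
  rw [Finset.mem_coe] at hm hn
  exact uu_inj p m n (hS m hm).2 (hS n hn).2 (hS m hm).1 (hS n hn).1 h

variable {Y : Type*} [MulAction (ZMod p)ˣ Y]

theorem W_MS (S : Finset ℕ) (hS : ∀ q ∈ S, 1 ≤ q ∧ q < p) (f : Y → ℝ) (x : Y) :
    W (MS p S) f x = ∑ q ∈ S, f (uu p q • x) := by
  unfold W MS
  rw [Finset.sum_image]
  intro m hm n hn h
  rw [Finset.mem_coe] at hm hn
  exact uu_inj p m n (hS m hm).2 (hS n hn).2 (hS m hm).1 (hS n hn).1 h

/-- the terms divisible by `q` -/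
theorem part_q (S : Finset ℕ) (X : ℕ) (hS : ∀ q ∈ S, q.Prime ∧ q ≤ X) (K : ℕ)
    (hX : X ^ (K + 1) < p) (f : Y → ℝ) (q : ℕ) (hq : q ∈ S) (x : Y) :
    ∑ n ∈ Icc 1 (X ^ K), (rr S K n : ℝ) * f (uu p n • uu p q • x) =
      ∑ m ∈ Icc 1 (X ^ (K + 1)), ((if q ∣ m then rr S K (m / q) else 0 : ℕ) : ℝ) *
        f (uu p m • x) := by
  have hqp : q.Prime := (hS q hq).1
  have hq0 : 0 < q := hqp.pos
  have hX0 : 0 < X := lt_of_lt_of_le hq0 (hS q hq).2
  refine Finset.sum_of_injOn (fun n => q * n) ?_ ?_ ?_ ?_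
  · intro m _ n _ h
    exact Nat.eq_of_mul_eq_mul_left hq0 h
  · intro n hn
    rw [Finset.mem_coe, Finset.mem_Icc] at hn ⊢
    refine ⟨Nat.mul_pos hq0 hn.1, ?_⟩
    change q * n ≤ X ^ (K + 1)
    rw [pow_succ, mul_comm (X ^ K)]
    exact Nat.mul_le_mul (hS q hq).2 hn.2
  · intro m hm hnot
    by_cases hd : q ∣ m
    · rw [if_pos hd]
      have h0 : rr S K (m / q) = 0 := by
        by_contra hne
        obtain ⟨h1, h2, -⟩ := rr_supp S X hS K _ hne
        refine hnot ⟨m / q, Finset.mem_coe.2 (Finset.mem_Icc.2 ⟨h1, h2⟩), ?_⟩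
        exact Nat.mul_div_cancel' hd
      rw [h0]
      simp
    · rw [if_neg hd]
      simp
  · intro n hn
    rw [Finset.mem_Icc] at hn
    rw [if_pos (dvd_mul_right q n), Nat.mul_div_cancel_left _ hq0, smul_smul]
    have hXK : X ^ K ≤ X ^ (K + 1) := Nat.pow_le_pow_right hX0 (Nat.le_succ K)
    have hqX : q ≤ X ^ (K + 1) := (hS q hq).2.trans (Nat.le_self_pow (by omega) X)
    rw [mul_comm q n, uu_mul p n q (coprime_of_lt' p n hn.1 (by omega))
      (coprime_of_lt' p q hq0 (by omega))]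

theorem iter_rr (S : Finset ℕ) (X : ℕ) (hS : ∀ q ∈ S, q.Prime ∧ q ≤ X) (K : ℕ) (hX : X ^ K < p)
    (hXp : X < p) (f : Y → ℝ) (x : Y) :
    (W (MS p S))^[K] f x = ∑ n ∈ Icc 1 (X ^ K), (rr S K n : ℝ) * f (uu p n • x) := by
  have hS' : ∀ q ∈ S, 1 ≤ q ∧ q < p := fun q hq =>
    ⟨(hS q hq).1.pos, lt_of_le_of_lt (hS q hq).2 hXp⟩
  induction K generalizing x with
  | zero =>
    simp [rr, uu_one]
  | succ K ih =>
    rcases S.eq_empty_or_nonempty with rfl | ⟨q₀, hq₀⟩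
    · rw [Function.iterate_succ_apply', W_MS _ hS']
      simp [rr]
    · have hX0 : 0 < X := lt_of_lt_of_le (hS q₀ hq₀).1.pos (hS q₀ hq₀).2
      have hXK : X ^ K < p := lt_of_le_of_lt (Nat.pow_le_pow_right hX0 (Nat.le_succ K)) hX
      rw [Function.iterate_succ_apply', W_MS _ hS']
      simp only [ih hXK]
      rw [Finset.sum_congr rfl fun q hq => part_q S X hS K hX f q hq x, Finset.sum_comm]
      refine Finset.sum_congr rfl fun m _ => ?_
      rw [rr_succ, Nat.cast_sum, Finset.sum_mul]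

theorem sum_rr (S : Finset ℕ) (X : ℕ) (hS : ∀ q ∈ S, q.Prime ∧ q ≤ X) (K : ℕ) (hX : X ^ K < p)
    (hXp : X < p) : ∑ n ∈ Icc 1 (X ^ K), (rr S K n : ℝ) = (S.card : ℝ) ^ K := by
  have hS' : ∀ q ∈ S, 1 ≤ q ∧ q < p := fun q hq =>
    ⟨(hS q hq).1.pos, lt_of_le_of_lt (hS q hq).2 hXp⟩
  have h1 := iter_rr (Y := (ZMod p)ˣ) S X hS K hX hXp (fun _ => 1) 1
  simp only [mul_one] at h1
  rw [← h1, ← card_MS S hS']
  have h2 : ∀ k : ℕ, ∀ x : (ZMod p)ˣ, (W (MS p S))^[k] (fun _ => (1 : ℝ)) x =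
      ((MS p S).card : ℝ) ^ k := by
    intro k
    induction k with
    | zero => intro x; simp
    | succ k ih =>
      intro x
      rw [Function.iterate_succ_apply', W, Finset.sum_congr rfl fun t _ => ih _, Finset.sum_const,
        nsmul_eq_mul, pow_succ, mul_comm]
  rw [h2]

variable [Fintype Y]

omit [Fintype Y] in
/-- the terms which are not coprime -/
theorem noncoprime_le (S : Finset ℕ) (X : ℕ) (hS : ∀ q ∈ S, q.Prime ∧ q ≤ X) (K : ℕ)
    (hX : X ^ (K + 1) < p) (hXp : X < p) (f : Y → ℝ) (hf : ∀ x, 0 ≤ f x) (x : Y) :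
    ∑ i ∈ (Icc 1 (X ^ (K + 1)) ×ˢ Icc 1 (X ^ (K + 1))).filter (fun i => ¬Nat.Coprime i.1 i.2),
      ((rr S (K + 1) i.1 : ℝ) * f (uu p i.1 • x)) * ((rr S (K + 1) i.2 : ℝ) * f (uu p i.2 • x)) ≤
      ((K : ℝ) + 1) ^ 2 * ∑ q ∈ S, (W (MS p S))^[K] f (uu p q • x) ^ 2 := by
  classical
  set g : ℕ → ℝ := fun n => (rr S (K + 1) n : ℝ) * f (uu p n • x) with hg
  have hg0 : ∀ n, 0 ≤ g n := fun n => mul_nonneg (Nat.cast_nonneg _) (hf _)
  have h1 : ∀ i ∈ (Icc 1 (X ^ (K + 1)) ×ˢ Icc 1 (X ^ (K + 1))).filter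
      (fun i => ¬Nat.Coprime i.1 i.2), g i.1 * g i.2 ≤
      ∑ q ∈ S, (if q ∣ i.1 then g i.1 else 0) * (if q ∣ i.2 then g i.2 else 0) := by
    intro i hi
    rw [Finset.mem_filter] at hi
    have hnn : ∀ q ∈ S, 0 ≤ (if q ∣ i.1 then g i.1 else 0) * (if q ∣ i.2 then g i.2 else 0) := by
      intro q _
      refine mul_nonneg ?_ ?_
      · split_ifs
        · exact hg0 _
        · exact le_rfl
      · split_ifs
        · exact hg0 _
        · exact le_rfl
    by_cases hr : rr S (K + 1) i.1 = 0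
    · have h2 : g i.1 = 0 := by simp [hg, hr]
      rw [h2, zero_mul]
      exact Finset.sum_nonneg fun q hq => by
        have := hnn q hq
        rw [h2] at this
        exact this
    · obtain ⟨q, hq, hq1, hq2⟩ := Nat.Prime.not_coprime_iff_dvd.1 hi.2
      have hqS : q ∈ S := (rr_supp S X hS (K + 1) _ hr).2.2 q hq hq1
      have h2 := Finset.single_le_sum hnn hqS
      rw [if_pos hq1, if_pos hq2] at h2
      exact h2
  refine (Finset.sum_le_sum h1).trans ?_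
  refine (Finset.sum_le_sum_of_subset_of_nonneg (Finset.filter_subset _ _) ?_).trans ?_
  · intro i _ _
    refine Finset.sum_nonneg fun q _ => mul_nonneg ?_ ?_
    · split_ifs
      · exact hg0 _
      · exact le_rfl
    · split_ifs
      · exact hg0 _
      · exact le_rfl
  rw [Finset.sum_comm, Finset.mul_sum]
  refine Finset.sum_le_sum fun q hq => ?_
  rw [Finset.sum_product]
  have hsp : ∑ a ∈ Icc 1 (X ^ (K + 1)), ∑ b ∈ Icc 1 (X ^ (K + 1)),
      (if q ∣ (a, b).1 then g (a, b).1 else 0) * (if q ∣ (a, b).2 then g (a, b).2 else 0) =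
      (∑ n ∈ Icc 1 (X ^ (K + 1)), (if q ∣ n then g n else 0)) ^ 2 := by
    rw [sq, Finset.sum_mul_sum]
  rw [hsp]
  rcases S.eq_empty_or_nonempty with rfl | ⟨q₀, hq₀⟩
  · simp at hq
  have hX0 : 0 < X := lt_of_lt_of_le (hS q₀ hq₀).1.pos (hS q₀ hq₀).2
  have hXK : X ^ K < p := lt_of_le_of_lt (Nat.pow_le_pow_right hX0 (Nat.le_succ K)) hX
  have h3 : ∑ n ∈ Icc 1 (X ^ (K + 1)), (if q ∣ n then g n else 0) ≤
      ((K : ℝ) + 1) * (W (MS p S))^[K] f (uu p q • x) := by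
    rw [iter_rr S X hS K hXK hXp f, part_q S X hS K hX f q hq x, Finset.mul_sum]
    refine Finset.sum_le_sum fun n _ => ?_
    by_cases hd : q ∣ n
    · rw [if_pos hd, if_pos hd]
      have h4 := rr_le_mul S (fun q hq => (hS q hq).1) K n q hq hd
      have h5 : (rr S (K + 1) n : ℝ) ≤ ((K : ℝ) + 1) * rr S K (n / q) := by exact_mod_cast h4
      calc g n = (rr S (K + 1) n : ℝ) * f (uu p n • x) := rfl
        _ ≤ (((K : ℝ) + 1) * rr S K (n / q)) * f (uu p n • x) :=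
            mul_le_mul_of_nonneg_right h5 (hf _)
        _ = _ := by ring
    · rw [if_neg hd, if_neg hd]
      simp
  have h6 : 0 ≤ ∑ n ∈ Icc 1 (X ^ (K + 1)), (if q ∣ n then g n else 0) := by
    refine Finset.sum_nonneg fun n _ => ?_
    split_ifs
    · exact hg0 _
    · exact le_rfl
  calc (∑ n ∈ Icc 1 (X ^ (K + 1)), (if q ∣ n then g n else 0)) ^ 2
      ≤ (((K : ℝ) + 1) * (W (MS p S))^[K] f (uu p q • x)) ^ 2 := pow_le_pow_left₀ h6 h3 2
    _ = _ := by ring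

/-- the coprime terms -/
theorem coprime_le (S : Finset ℕ) (X : ℕ) (hS : ∀ q ∈ S, q.Prime ∧ q ≤ X) (K : ℕ)
    (hX : X ^ (2 * K) < p) (hX1 : 1 ≤ X) (f : Y → ℝ) (hf : ∀ x, 0 ≤ f x) :
    ∑ x, ∑ i ∈ (Icc 1 (X ^ K) ×ˢ Icc 1 (X ^ K)).filter (fun i => Nat.Coprime i.1 i.2),
      ((rr S K i.1 : ℝ) * f (uu p i.1 • x)) * ((rr S K i.2 : ℝ) * f (uu p i.2 • x)) ≤
      ((K.factorial : ℝ)) ^ 2 * ∑ x, f x * Phi (G := (ZMod p)ˣ) f x := by
  classical
  set CP := (Icc 1 (X ^ K) ×ˢ Icc 1 (X ^ K)).filter (fun i => Nat.Coprime i.1 i.2) with hCP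
  have hX2 : X ^ K * X ^ K < p := by
    rw [← pow_add]
    rwa [show K + K = 2 * K by ring]
  have hXK : X ^ K < p := by
    have h1 : 1 ≤ X ^ K := Nat.one_le_pow _ _ hX1
    nlinarith
  have h1 : ∑ x, ∑ i ∈ CP, ((rr S K i.1 : ℝ) * f (uu p i.1 • x)) *
      ((rr S K i.2 : ℝ) * f (uu p i.2 • x)) ≤
      ∑ x, ∑ i ∈ CP, ((K.factorial : ℝ)) ^ 2 * (f (uu p i.1 • x) * f (uu p i.2 • x)) := by
    refine Finset.sum_le_sum fun x _ => Finset.sum_le_sum fun i _ => ?_
    have h2 : (rr S K i.1 : ℝ) ≤ K.factorial := by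
      exact_mod_cast rr_le_factorial S (fun q hq => (hS q hq).1) K i.1
    have h3 : (rr S K i.2 : ℝ) ≤ K.factorial := by
      exact_mod_cast rr_le_factorial S (fun q hq => (hS q hq).1) K i.2
    have h4 : (rr S K i.1 : ℝ) * rr S K i.2 ≤ (K.factorial : ℝ) ^ 2 := by
      rw [sq]
      exact mul_le_mul h2 h3 (Nat.cast_nonneg _) (Nat.cast_nonneg _)
    calc ((rr S K i.1 : ℝ) * f (uu p i.1 • x)) * ((rr S K i.2 : ℝ) * f (uu p i.2 • x))
        = ((rr S K i.1 : ℝ) * rr S K i.2) * (f (uu p i.1 • x) * f (uu p i.2 • x)) := by ring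
      _ ≤ _ := mul_le_mul_of_nonneg_right h4 (mul_nonneg (hf _) (hf _))
  refine h1.trans ?_
  simp only [← Finset.mul_sum]
  refine mul_le_mul_of_nonneg_left ?_ (by positivity)
  rw [Finset.sum_comm]
  have h2 : ∀ i ∈ CP, ∑ x, f (uu p i.1 • x) * f (uu p i.2 • x) =
      ∑ x, f x * f ((uu p i.2 * (uu p i.1)⁻¹) • x) := by
    intro i _
    rw [← sum_smul (uu p i.1) fun x => f x * f ((uu p i.2 * (uu p i.1)⁻¹) • x)]
    refine Finset.sum_congr rfl fun x _ => ?_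
    rw [smul_smul, inv_mul_cancel_right]
  rw [Finset.sum_congr rfl h2]
  have hinj : Set.InjOn (fun i : ℕ × ℕ => uu p i.2 * (uu p i.1)⁻¹) (CP : Set (ℕ × ℕ)) := by
    intro i hi j hj hij
    rw [Finset.mem_coe, hCP, Finset.mem_filter, Finset.mem_product, Finset.mem_Icc,
      Finset.mem_Icc] at hi hj
    obtain ⟨⟨⟨i1, i2⟩, i3, i4⟩, i5⟩ := hi
    obtain ⟨⟨⟨j1, j2⟩, j3, j4⟩, j5⟩ := hj
    have ci1 := coprime_of_lt' p i.1 i1 (by omega)
    have ci2 := coprime_of_lt' p i.2 i3 (by omega)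
    have cj1 := coprime_of_lt' p j.1 j1 (by omega)
    have cj2 := coprime_of_lt' p j.2 j3 (by omega)
    have h3 : uu p (i.2 * j.1) = uu p (j.2 * i.1) := by
      rw [uu_mul p _ _ ci2 cj1, uu_mul p _ _ cj2 ci1]
      have h4 : uu p i.2 * (uu p i.1)⁻¹ = uu p j.2 * (uu p j.1)⁻¹ := hij
      rw [mul_inv_eq_iff_eq_mul, mul_assoc, mul_comm (uu p j.1)⁻¹, ← mul_assoc,
        eq_mul_inv_iff_mul_eq] at h4
      exact h4
    have h4 : i.2 * j.1 ≤ X ^ K * X ^ K := Nat.mul_le_mul i4 j2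
    have h5 : j.2 * i.1 ≤ X ^ K * X ^ K := Nat.mul_le_mul j4 i2
    have h6 : i.2 * j.1 = j.2 * i.1 :=
      uu_inj p _ _ (by omega) (by omega) (Nat.mul_pos i3 j1) (Nat.mul_pos j3 i1) h3
    have h7 : i.1 ∣ j.1 := by
      have : i.1 ∣ i.2 * j.1 := by rw [h6]; exact dvd_mul_left _ _
      exact i5.dvd_of_dvd_mul_left this
    have h8 : j.1 ∣ i.1 := by
      have : j.1 ∣ j.2 * i.1 := by rw [← h6]; exact dvd_mul_left _ _
      exact j5.dvd_of_dvd_mul_left this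
    have h9 : i.1 = j.1 := Nat.dvd_antisymm h7 h8
    rw [h9] at h6
    have h10 : i.2 = j.2 := Nat.eq_of_mul_eq_mul_right (by omega) h6
    exact Prod.ext h9 h10
  have h3 : ∑ i ∈ CP, ∑ x, f x * f ((uu p i.2 * (uu p i.1)⁻¹) • x) =
      ∑ l ∈ CP.image (fun i : ℕ × ℕ => uu p i.2 * (uu p i.1)⁻¹), ∑ x, f x * f (l • x) := by
    rw [Finset.sum_image hinj]
  rw [h3]
  refine (Finset.sum_le_sum_of_subset_of_nonneg (Finset.subset_univ _) ?_).trans (le_of_eq ?_)
  · intro l _ _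
    exact Finset.sum_nonneg fun x _ => mul_nonneg (hf _) (hf _)
  · rw [Finset.sum_comm]
    refine Finset.sum_congr rfl fun x _ => ?_
    rw [Phi, Finset.mul_sum]

/-- The recursion for the norms. -/
theorem norm_rec (S : Finset ℕ) (X : ℕ) (hS : ∀ q ∈ S, q.Prime ∧ q ≤ X) (K : ℕ)
    (hX : X ^ (2 * (K + 1)) < p) (hX1 : 1 ≤ X) (f : Y → ℝ) (hf : ∀ x, 0 ≤ f x) :
    ∑ x, (W (MS p S))^[K + 1] f x ^ 2 ≤
      (((K : ℝ) + 1) ^ 2 * S.card) * ∑ x, (W (MS p S))^[K] f x ^ 2 +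
      (((K + 1).factorial : ℝ)) ^ 2 * ∑ x, f x * Phi (G := (ZMod p)ˣ) f x := by
  classical
  have hXK : X ^ (K + 1) < p :=
    lt_of_le_of_lt (Nat.pow_le_pow_right hX1 (by omega)) hX
  have hXp : X < p := lt_of_le_of_lt (Nat.le_self_pow (by omega) X) hXK
  have h1 : ∀ x : Y, (W (MS p S))^[K + 1] f x ^ 2 =
      ∑ i ∈ (Icc 1 (X ^ (K + 1)) ×ˢ Icc 1 (X ^ (K + 1))).filter (fun i => Nat.Coprime i.1 i.2),
        ((rr S (K + 1) i.1 : ℝ) * f (uu p i.1 • x)) * ((rr S (K + 1) i.2 : ℝ) * f (uu p i.2 • x)) +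
      ∑ i ∈ (Icc 1 (X ^ (K + 1)) ×ˢ Icc 1 (X ^ (K + 1))).filter (fun i => ¬Nat.Coprime i.1 i.2),
        ((rr S (K + 1) i.1 : ℝ) * f (uu p i.1 • x)) *
          ((rr S (K + 1) i.2 : ℝ) * f (uu p i.2 • x)) := by
    intro x
    rw [Finset.sum_filter_add_sum_filter_not, Finset.sum_product, iter_rr S X hS (K + 1) hXK hXp f,
      sq, Finset.sum_mul_sum]
  simp only [h1]
  rw [Finset.sum_add_distrib, add_comm]
  refine add_le_add ?_ (coprime_le S X hS (K + 1) hX hX1 f hf)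
  refine (Finset.sum_le_sum fun x _ => noncoprime_le S X hS K hXK hXp f hf x).trans (le_of_eq ?_)
  rw [← Finset.mul_sum, Finset.sum_comm]
  have h2 : ∀ q ∈ S, ∑ x, (W (MS p S))^[K] f (uu p q • x) ^ 2 =
      ∑ x, (W (MS p S))^[K] f x ^ 2 := fun q _ =>
    sum_smul (uu p q) fun x => (W (MS p S))^[K] f x ^ 2
  rw [Finset.sum_congr rfl h2, Finset.sum_const, nsmul_eq_mul]
  ring

/-- The norms: only coprime pairs and the diagonal matter. -/
theorem norm_le (S : Finset ℕ) (X : ℕ) (hS : ∀ q ∈ S, q.Prime ∧ q ≤ X) (K : ℕ)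
    (hX : X ^ (2 * (K + 1)) < p) (hX1 : 1 ≤ X) (f : Y → ℝ) (hf : ∀ x, 0 ≤ f x) :
    ∑ x, (W (MS p S))^[K + 1] f x ^ 2 ≤
      (2 * (((K : ℝ) + 1) ^ 2 * S.card)) ^ (K + 1) * ∑ x, f x ^ 2 +
      2 * ((((K + 1).factorial : ℝ)) ^ 2 * ∑ x, f x * Phi (G := (ZMod p)ˣ) f x) := by
  have h1 := lc_principle (fun n => ∑ x, (W (MS p S))^[n] f x ^ 2)
    (fun n => Finset.sum_nonneg fun _ _ => by positivity) (fun n => lc_W (MS p S) f n) K
    (((K : ℝ) + 1) ^ 2 * S.card)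
    ((((K + 1).factorial : ℝ)) ^ 2 * ∑ x, f x * Phi (G := (ZMod p)ˣ) f x) (by positivity)
    (mul_nonneg (by positivity) (Finset.sum_nonneg fun x _ => mul_nonneg (hf x)
      (Finset.sum_nonneg fun u _ => hf _)))
    (norm_rec S X hS K hX hX1 f hf)
  exact h1

/-- the set of products of `J` elements of `S` -/
noncomputable def MJ (p : ℕ) [Fact p.Prime] (S : Finset ℕ) (X J : ℕ) : Finset (ZMod p)ˣ :=
  ((Icc 1 (X ^ J)).filter fun n => rr S J n ≠ 0).image (uu p)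

omit [Fintype Y] in
theorem W_MJ_le (S : Finset ℕ) (X : ℕ) (hS : ∀ q ∈ S, q.Prime ∧ q ≤ X) (J : ℕ) (hX : X ^ J < p)
    (hXp : X < p) (f : Y → ℝ) (hf : ∀ x, 0 ≤ f x) (x : Y) :
    W (MJ p S X J) f x ≤ (W (MS p S))^[J] f x := by
  rw [iter_rr S X hS J hX hXp f]
  unfold W MJ
  rw [Finset.sum_image]
  · rw [Finset.sum_filter]
    refine Finset.sum_le_sum fun n _ => ?_
    by_cases h : rr S J n ≠ 0
    · rw [if_pos h]
      have h1 : (1 : ℝ) ≤ rr S J n := by exact_mod_cast Nat.one_le_iff_ne_zero.2 h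
      calc f (uu p n • x) = 1 * f (uu p n • x) := (one_mul _).symm
        _ ≤ _ := mul_le_mul_of_nonneg_right h1 (hf _)
    · rw [if_neg h]
      exact mul_nonneg (Nat.cast_nonneg _) (hf _)
  · intro m hm n hn h
    rw [Finset.mem_coe, Finset.mem_filter, Finset.mem_Icc] at hm hn
    exact uu_inj p m n (by omega) (by omega) hm.1.1 hn.1.1 h

theorem card_MJ (S : Finset ℕ) (X : ℕ) (hS : ∀ q ∈ S, q.Prime ∧ q ≤ X) (J : ℕ) (hX : X ^ J < p)
    (hXp : X < p) : (S.card : ℝ) ^ J ≤ J.factorial * (MJ p S X J).card := by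
  rw [← sum_rr (p := p) S X hS J hX hXp]
  unfold MJ
  rw [Finset.card_image_of_injOn]
  · rw [Finset.card_filter, Nat.cast_sum, Finset.mul_sum]
    refine Finset.sum_le_sum fun n _ => ?_
    by_cases h : rr S J n ≠ 0
    · rw [if_pos h]
      have h1 : (rr S J n : ℝ) ≤ J.factorial := by
        exact_mod_cast rr_le_factorial S (fun q hq => (hS q hq).1) J n
      simpa using h1
    · rw [if_neg h]
      push Not at h
      rw [h]
      simp
  · intro m hm n hn h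
    rw [Finset.mem_coe, Finset.mem_filter, Finset.mem_Icc] at hm hn
    exact uu_inj p m n (by omega) (by omega) hm.1.1 hn.1.1 h

/-- The collisions for the products of `J` primes, raised to the power `K = J + d`. -/
theorem collision_interp (S : Finset ℕ) (X : ℕ) (hS : ∀ q ∈ S, q.Prime ∧ q ≤ X) (J d : ℕ)
    (hJ : 0 < J) (hX : X ^ (2 * (J + d)) < p) (hX1 : 1 ≤ X) (f : Y → ℝ) (hf : ∀ x, 0 ≤ f x) :
    (∑ x, W (MJ p S X J) f x ^ 2) ^ (J + d) ≤ (∑ x, f x ^ 2) ^ d *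
      ((2 * (((J + d : ℕ) : ℝ) ^ 2 * S.card)) ^ (J + d) * ∑ x, f x ^ 2 +
        2 * ((((J + d).factorial : ℝ)) ^ 2 * ∑ x, f x * Phi (G := (ZMod p)ˣ) f x)) ^ J := by
  have hXJ : X ^ J < p := lt_of_le_of_lt (Nat.pow_le_pow_right hX1 (by omega)) hX
  have hXp : X < p := lt_of_le_of_lt (Nat.le_self_pow hJ.ne' X) hXJ
  have h1 : ∑ x, W (MJ p S X J) f x ^ 2 ≤ ∑ x, (W (MS p S))^[J] f x ^ 2 := by
    refine Finset.sum_le_sum fun x _ => pow_le_pow_left₀ ?_ (W_MJ_le S X hS J hXJ hXp f hf x) 2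
    exact Finset.sum_nonneg fun t _ => hf _
  have h0 : 0 ≤ ∑ x, W (MJ p S X J) f x ^ 2 := Finset.sum_nonneg fun _ _ => by positivity
  have h2 := lc_interp (fun n => ∑ x, (W (MS p S))^[n] f x ^ 2)
    (fun n => Finset.sum_nonneg fun _ _ => by positivity) (fun n => lc_W (MS p S) f n) J d
  obtain ⟨k, hk⟩ : ∃ k, J + d = k + 1 := ⟨J + d - 1, by omega⟩
  have h3 := norm_le S X hS k (by rw [← hk]; exact hX) hX1 f hf
  refine (pow_le_pow_left₀ h0 h1 _).trans (h2.trans ?_)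
  refine mul_le_mul_of_nonneg_left ?_ (pow_nonneg (Finset.sum_nonneg fun _ _ => by positivity) _)
  refine pow_le_pow_left₀ (Finset.sum_nonneg fun _ _ => by positivity) ?_ _
  rw [hk]
  refine h3.trans (le_of_eq ?_)
  push_cast
  ring

end

end Pool.Agent.helper46.PY
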