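import Mathlib
import Pool.Agent.helper46.PY.C
import Pool.Agent.helper46.PY.I

/-!
# Double character sums below the square root barrier, part J

The function `f(z) = #{(x, b, b') ∈ P × B × B : (x + b, x + b') = z}` on `F² \ 0`.
-/

set_option autoImplicit false

namespace Pool.Agent.helper46.PY

open Finset

section
variable {F : Type*} [Field F] [DecidableEq F]

/-- the function `f` -/
def f2 (P B : Finset F) (z : F × F) : ℝ := if z = 0 then 0 else cnt P B z

theorem f2_nonneg (P B : Finset F) (z : F × F) : 0 ≤ f2 P B z := by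
  unfold f2
  split_ifs <;> positivity

theorem f2_le (P B : Finset F) (z : F × F) : f2 P B z ≤ cnt P B z := by
  unfold f2
  split_ifs <;> simp

theorem smul_ne_zero' (u : Fˣ) (z : F × F) (hz : z ≠ 0) : u • z ≠ 0 := by
  intro h
  apply hz
  have h1 : u⁻¹ • u • z = u⁻¹ • (0 : F × F) := by rw [h]
  rw [inv_smul_smul] at h1
  rw [h1]
  refine Prod.ext ?_ ?_
  · change u⁻¹ • (0 : F) = 0
    rw [smul_zero]
  · change u⁻¹ • (0 : F) = 0
    rw [smul_zero]

theorem smul_zero'' (u : Fˣ) : u • (0 : F × F) = 0 := by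
  refine Prod.ext ?_ ?_
  · change u • (0 : F) = 0
    rw [smul_zero]
  · change u • (0 : F) = 0
    rw [smul_zero]

variable [Fintype F]

theorem sum_sq_f2_P (P B : Finset F) :
    ∑ z, f2 P B z ^ 2 ≤ (P.card : ℝ) * B.card ^ 2 * P.card := by
  calc ∑ z, f2 P B z ^ 2 ≤ ∑ z, (P.card : ℝ) * cnt P B z := by
        refine Finset.sum_le_sum fun z _ => ?_
        rw [sq]
        exact mul_le_mul ((f2_le P B z).trans (by exact_mod_cast cnt_le_P P B z)) (f2_le P B z)
          (f2_nonneg P B z) (Nat.cast_nonneg _)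
    _ = _ := by
        rw [← Finset.mul_sum, ← Nat.cast_sum, sum_cnt]
        push_cast
        ring

theorem sum_cnt_sq (P B : Finset F) :
    ∑ z, cnt P B z ^ 2 ≤ P.card * Finset.addEnergy B B := by
  have h1 : ∑ z, cnt P B z ^ 2 =
      (((P ×ˢ (B ×ˢ B)) ×ˢ (P ×ˢ (B ×ˢ B))).filter fun x =>
        (x.1.1 + x.1.2.1, x.1.1 + x.1.2.2) = (x.2.1 + x.2.2.1, x.2.1 + x.2.2.2)).card := by
    rw [Finset.card_eq_sum_card_fiberwise (f := fun x : (F × (F × F)) × (F × (F × F)) =>
      (x.1.1 + x.1.2.1, x.1.1 + x.1.2.2)) (t := Finset.univ)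
      (fun x _ => Finset.mem_coe.mpr (Finset.mem_univ _))]
    refine Finset.sum_congr rfl fun z _ => ?_
    unfold cnt
    rw [sq, ← Finset.card_product]
    congr 1
    ext x
    simp only [Finset.mem_filter, Finset.mem_product]
    constructor
    · rintro ⟨⟨a, b⟩, c, d⟩
      exact ⟨⟨⟨a, c⟩, by rw [b, d]⟩, b⟩
    · rintro ⟨⟨⟨a, b⟩, c⟩, d⟩
      exact ⟨⟨a, d⟩, ⟨b, by rw [← c, d]⟩⟩
  rw [h1, Finset.addEnergy, ← Finset.card_product]
  refine Finset.card_le_card_of_injOn
    (fun x => (x.1.1, ((x.1.2.1, x.2.2.1), (x.2.2.2, x.1.2.2)))) ?_ ?_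
  · intro x hx
    rw [mem_coe, mem_filter, mem_product, mem_product, mem_product, mem_product,
      mem_product] at hx
    obtain ⟨⟨⟨a1, a2, a3⟩, b1, b2, b3⟩, hE⟩ := hx
    have e1 : x.1.1 + x.1.2.1 = x.2.1 + x.2.2.1 := congrArg Prod.fst hE
    have e2 : x.1.1 + x.1.2.2 = x.2.1 + x.2.2.2 := congrArg Prod.snd hE
    simp only [mem_coe, mem_filter, mem_product]
    refine ⟨a1, ⟨⟨a2, b2⟩, b3, a3⟩, ?_⟩
    linear_combination e1 - e2
  · intro x hx y hy hxy
    rw [mem_coe, mem_filter] at hx hy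
    simp only [Prod.mk.injEq] at hxy
    obtain ⟨c1, ⟨c2, c3⟩, c4, c5⟩ := hxy
    have e1 : x.1.1 + x.1.2.1 = x.2.1 + x.2.2.1 := congrArg Prod.fst hx.2
    have e2 : y.1.1 + y.1.2.1 = y.2.1 + y.2.2.1 := congrArg Prod.fst hy.2
    have e3 : x.2.1 = y.2.1 := by
      rw [c1, c2, c3] at e1
      linear_combination e2 - e1
    exact Prod.ext (Prod.ext c1 (Prod.ext c2 c5)) (Prod.ext e3 (Prod.ext c3 c4))

theorem sum_sq_f2_E (P B : Finset F) :
    ∑ z, f2 P B z ^ 2 ≤ (P.card : ℝ) * Finset.addEnergy B B := by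
  calc ∑ z, f2 P B z ^ 2 ≤ ∑ z, ((cnt P B z ^ 2 : ℕ) : ℝ) := by
        refine Finset.sum_le_sum fun z _ => ?_
        push_cast
        exact pow_le_pow_left₀ (f2_nonneg P B z) (f2_le P B z) 2
    _ ≤ _ := by
        rw [← Nat.cast_sum]
        exact_mod_cast sum_cnt_sq P B

theorem Phi_f2_off (P B : Finset F) (z : F × F) (hz : z.1 ≠ z.2) :
    Phi (G := Fˣ) (f2 P B) z ≤ (B.card : ℝ) ^ 2 := by
  have h1 : Phi (G := Fˣ) (f2 P B) z = Phi (G := Fˣ) (fF P B) z := by
    unfold Phi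
    refine Finset.sum_congr rfl fun u _ => ?_
    unfold f2 fF
    rw [if_neg, if_neg]
    · rw [smul_diag]
      exact hz
    · intro h
      have h2 : (u • z).1 = (u • z).2 := by rw [h]; rfl
      rw [smul_diag] at h2
      exact hz h2
  rw [h1]
  exact Phi_off P B z hz

theorem Phi_f2_all (P B : Finset F) (z : F × F) (hz0 : z ≠ 0) :
    Phi (G := Fˣ) (f2 P B) z ≤ (P.card : ℝ) * B.card := by
  have h1 : ∀ u : Fˣ, f2 P B (u • z) = cnt P B (u • z) := fun u => by
    unfold f2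
    rw [if_neg (smul_ne_zero' u z hz0)]
  unfold Phi
  simp only [h1]
  rw [← Nat.cast_sum, ← Nat.cast_mul, ← Finset.card_product]
  have h2 : ∑ u : Fˣ, cnt P B (u • z) = (((univ : Finset Fˣ) ×ˢ (P ×ˢ (B ×ˢ B))).filter
      fun i => (i.2.1 + i.2.2.1, i.2.1 + i.2.2.2) = i.1 • z).card := by
    unfold cnt
    rw [Finset.card_filter, Finset.sum_product]
    refine Finset.sum_congr rfl fun u _ => ?_
    rw [Finset.card_filter]
  rw [h2]
  norm_cast
  by_cases hw : z.1 = 0
  · have hw2 : z.2 ≠ 0 := by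
      intro h
      exact hz0 (Prod.ext hw h)
    refine Finset.card_le_card_of_injOn (fun i => (i.2.1, i.2.2.2)) ?_ ?_
    · intro i hi
      rw [mem_coe, mem_filter, mem_product, mem_product, mem_product] at hi
      exact mem_product.2 ⟨hi.1.2.1, hi.1.2.2.2⟩
    · intro i hi j hj hij
      rw [mem_coe, mem_filter] at hi hj
      have e1 := congrArg Prod.fst hi.2
      have e2 := congrArg Prod.snd hi.2
      have e3 := congrArg Prod.fst hj.2
      have e4 := congrArg Prod.snd hj.2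
      simp only [Prod.smul_fst, Prod.smul_snd, Units.smul_def, smul_eq_mul] at e1 e2 e3 e4
      simp only [Prod.mk.injEq] at hij
      have e5 : ((i.1 : F) - j.1) * z.2 = 0 := by
        rw [hij.1, hij.2] at e2
        linear_combination e4 - e2
      have e6 : (i.1 : F) = j.1 := sub_eq_zero.1 ((mul_eq_zero.1 e5).resolve_right hw2)
      have e7 : i.2.2.1 = j.2.2.1 := by
        rw [hij.1, e6] at e1
        linear_combination e1 - e3
      exact Prod.ext (Units.ext e6) (Prod.ext hij.1 (Prod.ext e7 hij.2))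
  · refine Finset.card_le_card_of_injOn (fun i => (i.2.1, i.2.2.1)) ?_ ?_
    · intro i hi
      rw [mem_coe, mem_filter, mem_product, mem_product, mem_product] at hi
      exact mem_product.2 ⟨hi.1.2.1, hi.1.2.2.1⟩
    · intro i hi j hj hij
      rw [mem_coe, mem_filter] at hi hj
      have e1 := congrArg Prod.fst hi.2
      have e2 := congrArg Prod.snd hi.2
      have e3 := congrArg Prod.fst hj.2
      have e4 := congrArg Prod.snd hj.2
      simp only [Prod.smul_fst, Prod.smul_snd, Units.smul_def, smul_eq_mul] at e1 e2 e3 e4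
      simp only [Prod.mk.injEq] at hij
      have e5 : ((i.1 : F) - j.1) * z.1 = 0 := by
        rw [hij.1, hij.2] at e1
        linear_combination e3 - e1
      have e6 : (i.1 : F) = j.1 := sub_eq_zero.1 ((mul_eq_zero.1 e5).resolve_right hw)
      have e7 : i.2.2.2 = j.2.2.2 := by
        rw [hij.1, e6] at e2
        linear_combination e2 - e4
      exact Prod.ext (Units.ext e6) (Prod.ext hij.1 (Prod.ext hij.2 e7))

theorem sum_f2_Phi (P B : Finset F) :
    ∑ z, f2 P B z * Phi (G := Fˣ) (f2 P B) z ≤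
      (P.card : ℝ) * (B.card : ℝ) ^ 2 *
        ((B.card : ℝ) * min (P.card : ℝ) (B.card : ℝ) + P.card) := by
  have h1 : ∀ z : F × F, f2 P B z * Phi (G := Fˣ) (f2 P B) z ≤
      cnt P B z * ((B.card : ℝ) * min (P.card : ℝ) (B.card : ℝ)) +
        (if z.1 = z.2 then (cnt P B z : ℝ) * ((P.card : ℝ) * B.card) else 0) := by
    intro z
    have h0 : 0 ≤ Phi (G := Fˣ) (f2 P B) z := Finset.sum_nonneg fun u _ => f2_nonneg P B _
    have hm : 0 ≤ (B.card : ℝ) * min (P.card : ℝ) (B.card : ℝ) := by positivity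
    by_cases hz0 : z = 0
    · have h2 : f2 P B z = 0 := by
        unfold f2
        rw [if_pos hz0]
      rw [h2, zero_mul]
      have h3 : 0 ≤ (if z.1 = z.2 then (cnt P B z : ℝ) * ((P.card : ℝ) * B.card) else 0) := by
        split_ifs <;> positivity
      positivity
    · by_cases hz : z.1 = z.2
      · rw [if_pos hz]
        have h2 : f2 P B z * Phi (G := Fˣ) (f2 P B) z ≤ (cnt P B z : ℝ) * ((P.card : ℝ) * B.card) :=
          mul_le_mul (f2_le P B z) (Phi_f2_all P B z hz0) h0 (Nat.cast_nonneg _)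
        have h3 : 0 ≤ (cnt P B z : ℝ) * ((B.card : ℝ) * min (P.card : ℝ) (B.card : ℝ)) := by
          positivity
        linarith
      · rw [if_neg hz, add_zero]
        refine mul_le_mul (f2_le P B z) ?_ h0 (Nat.cast_nonneg _)
        rw [mul_min_of_nonneg _ _ (Nat.cast_nonneg _)]
        refine le_min ?_ ?_
        · rw [mul_comm]
          exact Phi_f2_all P B z hz0
        · rw [← sq]
          exact Phi_f2_off P B z hz
  refine (Finset.sum_le_sum fun z _ => h1 z).trans ?_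
  rw [Finset.sum_add_distrib, ← Finset.sum_mul, ← Nat.cast_sum, sum_cnt, ← Finset.sum_filter,
    ← Finset.sum_mul, ← Nat.cast_sum, sum_cnt_diag]
  push_cast
  apply le_of_eq
  ring

/-- All collisions. -/
theorem total2_le (M : Finset Fˣ) (P B : Finset F) :
    ∑ z : F × F, (∑ t ∈ M, (cnt P B (t • z) : ℝ)) ^ 2 ≤
      ∑ z, W M (f2 P B) z ^ 2 + (M.card : ℝ) ^ 2 * (B.card : ℝ) ^ 2 := by
  have h1 : ∀ z : F × F, (∑ t ∈ M, (cnt P B (t • z) : ℝ)) ^ 2 ≤ W M (f2 P B) z ^ 2 +
      (if z = 0 then (M.card : ℝ) ^ 2 * (B.card : ℝ) ^ 2 else 0) := by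
    intro z
    by_cases hz : z = 0
    · rw [if_pos hz]
      have h2 : ∑ t ∈ M, (cnt P B (t • z) : ℝ) ≤ (M.card : ℝ) * B.card := by
        rw [← nsmul_eq_mul, ← Finset.sum_const]
        exact Finset.sum_le_sum fun t _ => by exact_mod_cast cnt_le_B P B _
      have h3 : 0 ≤ ∑ t ∈ M, (cnt P B (t • z) : ℝ) := Finset.sum_nonneg fun _ _ => Nat.cast_nonneg _
      have h4 : (∑ t ∈ M, (cnt P B (t • z) : ℝ)) ^ 2 ≤ ((M.card : ℝ) * B.card) ^ 2 :=
        pow_le_pow_left₀ h3 h2 2
      have h5 : 0 ≤ W M (f2 P B) z ^ 2 := by positivity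
      rw [mul_pow] at h4
      linarith
    · rw [if_neg hz, add_zero]
      apply le_of_eq
      congr 1
      unfold W
      refine Finset.sum_congr rfl fun t _ => ?_
      unfold f2
      rw [if_neg (smul_ne_zero' t z hz)]
  refine (Finset.sum_le_sum fun z _ => h1 z).trans ?_
  rw [Finset.sum_add_distrib]
  refine add_le_add le_rfl ?_
  rw [Finset.sum_ite_eq']
  simp

end

/-- The collision bound for products of `J` primes `≤ X`, `K = J + d`. -/
theorem collision_two {p : ℕ} [Fact p.Prime] (S : Finset ℕ) (X : ℕ)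
    (hS : ∀ q ∈ S, q.Prime ∧ q ≤ X) (J d : ℕ) (hJ : 0 < J) (hX : X ^ (2 * (J + d)) < p)
    (hX1 : 1 ≤ X) (P B : Finset (ZMod p)) (a0 : ℝ) (ha0 : ∑ z, f2 P B z ^ 2 ≤ a0) :
    (∑ z, W (MJ p S X J) (f2 P B) z ^ 2) ^ (J + d) ≤ a0 ^ d *
      ((2 * (((J + d : ℕ) : ℝ) ^ 2 * S.card)) ^ (J + d) * a0 +
        2 * ((((J + d).factorial : ℝ)) ^ 2 *
          ((P.card : ℝ) * (B.card : ℝ) ^ 2 *
            ((B.card : ℝ) * min (P.card : ℝ) (B.card : ℝ) + P.card)))) ^ J := by
  have h0 : 0 ≤ ∑ z, f2 P B z ^ 2 := Finset.sum_nonneg fun _ _ => by positivity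
  have h1 := collision_interp S X hS J d hJ hX hX1 (f2 P B) (f2_nonneg P B)
  refine h1.trans ?_
  have h3 : 0 ≤ ∑ z, f2 P B z * Phi (G := (ZMod p)ˣ) (f2 P B) z :=
    Finset.sum_nonneg fun z _ => mul_nonneg (f2_nonneg P B z)
      (Finset.sum_nonneg fun u _ => f2_nonneg P B _)
  refine mul_le_mul (pow_le_pow_left₀ h0 ha0 d) (pow_le_pow_left₀ ?_ ?_ J) ?_ ?_
  · exact add_nonneg (mul_nonneg (by positivity) h0)
      (mul_nonneg (by norm_num) (mul_nonneg (by positivity) h3))
  · refine add_le_add (mul_le_mul_of_nonneg_left ha0 (by positivity)) ?_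
    refine mul_le_mul_of_nonneg_left ?_ (by norm_num)
    exact mul_le_mul_of_nonneg_left (sum_f2_Phi P B) (by positivity)
  · exact pow_nonneg (add_nonneg (mul_nonneg (by positivity) h0)
      (mul_nonneg (by norm_num) (mul_nonneg (by positivity) h3))) J
  · exact pow_nonneg (h0.trans ha0) d

end Pool.Agent.helper46.PY
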