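import Mathlib
import Pool.Agent.helper46.PY.D
import Pool.Agent.helper46.PY.E
import Pool.Agent.helper46.PY.J

/-!
# Double character sums below the square root barrier, part K

Numerical part.
-/

set_option autoImplicit false

namespace Pool.Agent.helper46.PY

/-- Numerical part, `q = √p`. -/
theorem numeric2 (J d : ℕ) (hJ : 0 < J) (p q e T M P A B m a1 C1 D E Q : ℝ) (hp : 1 ≤ p)
    (hq0 : 0 ≤ q) (hq : q ^ 2 = p) (he : 1 ≤ e) (hT : 0 ≤ T) (hJp : p ^ J ≤ p * T ^ (2 * (J + d)))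
    (hM0 : 0 ≤ M) (hM : T ≤ D * M) (hD : 0 ≤ D) (hP : 0 ≤ P) (hAP : A ≤ P) (hA : 0 ≤ A)
    (hB : 0 ≤ B) (hm : 0 ≤ m) (hC1 : 1 ≤ C1) (hE0 : 0 < E)
    (ha1 : 0 ≤ a1)
    (ha : a1 ^ (J + d) ≤ (P * B ^ 2 * (e * m)) ^ d * (C1 * q * (P * B ^ 2 * (e * m))) ^ J)
    (h1 : p * E * m ≤ T * A * B ^ 2)
    (hE : C1 ^ (J + d) * q * (2 * e ^ 2) ^ (J + d) * D ^ (2 * (J + d)) ≤ E ^ (J + d))
    (h2 : 2 * (p * e) ≤ P ^ 2 * B ^ 2)
    (hQ : Q ≤ a1 + M ^ 2 * B ^ 2) :
    Q * (p * e) ≤ (M * P * B ^ 2) ^ 2 := by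
  have hp0 : 0 < p := by linarith
  have he0 : 0 < e := by linarith
  have hC0 : 0 ≤ C1 := by linarith
  set a0 : ℝ := P * B ^ 2 * (e * m) with ha0
  have ha00 : 0 ≤ a0 := by positivity
  have hqJ : q ^ J ≤ q * T ^ (J + d) := by
    have h3 : (q ^ J) ^ 2 ≤ (q * T ^ (J + d)) ^ 2 := by
      calc (q ^ J) ^ 2 = (q ^ 2) ^ J := by ring
        _ = p ^ J := by rw [hq]
        _ ≤ p * T ^ (2 * (J + d)) := hJp
        _ = (q * T ^ (J + d)) ^ 2 := by rw [mul_pow, hq]; ring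
    exact (pow_le_pow_iff_left₀ (by positivity) (by positivity) (by norm_num)).mp h3
  have h3 : a1 ^ (J + d) ≤ C1 ^ (J + d) * (q * T ^ (J + d)) * a0 ^ (J + d) := by
    calc a1 ^ (J + d) ≤ a0 ^ d * (C1 * q * a0) ^ J := ha
      _ = C1 ^ J * q ^ J * a0 ^ (J + d) := by rw [mul_pow, mul_pow, pow_add a0]; ring
      _ ≤ C1 ^ (J + d) * (q * T ^ (J + d)) * a0 ^ (J + d) := by
          refine mul_le_mul_of_nonneg_right ?_ (by positivity)
          refine mul_le_mul ?_ hqJ (by positivity) (by positivity)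
          exact pow_le_pow_right₀ hC1 (by omega)
  have h1' : p * E * m ≤ T * P * B ^ 2 := by
    refine h1.trans ?_
    refine mul_le_mul_of_nonneg_right ?_ (by positivity)
    exact mul_le_mul_of_nonneg_left hAP hT
  have h4 : (p * E * m) ^ (J + d) ≤ (T * P * B ^ 2) ^ (J + d) :=
    pow_le_pow_left₀ (by positivity) h1' _
  -- the main part
  have hoff : a1 * (2 * (p * e)) ≤ (M * P * B ^ 2) ^ 2 := by
    have h5 : (a1 * (2 * (p * e))) ^ (J + d) * E ^ (J + d) ≤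
        ((M * P * B ^ 2) ^ 2) ^ (J + d) * E ^ (J + d) := by
      calc (a1 * (2 * (p * e))) ^ (J + d) * E ^ (J + d)
          = a1 ^ (J + d) * ((2 * (p * e)) ^ (J + d) * E ^ (J + d)) := by rw [mul_pow a1]; ring
        _ ≤ (C1 ^ (J + d) * (q * T ^ (J + d)) * a0 ^ (J + d)) *
            ((2 * (p * e)) ^ (J + d) * E ^ (J + d)) :=
            mul_le_mul_of_nonneg_right h3 (by positivity)
        _ = (C1 ^ (J + d) * q * (2 * e ^ 2) ^ (J + d)) * (T ^ (J + d) * (P * B ^ 2) ^ (J + d)) *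
            (p * E * m) ^ (J + d) := by
            rw [ha0]
            simp only [mul_pow]
            ring
        _ ≤ (C1 ^ (J + d) * q * (2 * e ^ 2) ^ (J + d)) * (T ^ (J + d) * (P * B ^ 2) ^ (J + d)) *
            (T * P * B ^ 2) ^ (J + d) := mul_le_mul_of_nonneg_left h4 (by positivity)
        _ = (C1 ^ (J + d) * q * (2 * e ^ 2) ^ (J + d)) * (T ^ (2 * (J + d)) *
            (P * B ^ 2) ^ (2 * (J + d))) := by
            simp only [mul_pow, pow_mul, mul_comm 2 (J + d)]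
            ring
        _ ≤ (C1 ^ (J + d) * q * (2 * e ^ 2) ^ (J + d)) * ((D * M) ^ (2 * (J + d)) *
            (P * B ^ 2) ^ (2 * (J + d))) := by
            refine mul_le_mul_of_nonneg_left ?_ (by positivity)
            refine mul_le_mul_of_nonneg_right ?_ (by positivity)
            exact pow_le_pow_left₀ hT hM _
        _ = (C1 ^ (J + d) * q * (2 * e ^ 2) ^ (J + d) * D ^ (2 * (J + d))) *
            ((M * P * B ^ 2) ^ 2) ^ (J + d) := by
            rw [← pow_mul, mul_pow D M]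
            simp only [mul_pow]
            ring
        _ ≤ E ^ (J + d) * ((M * P * B ^ 2) ^ 2) ^ (J + d) :=
            mul_le_mul_of_nonneg_right hE (by positivity)
        _ = _ := mul_comm _ _
    have h6 : (a1 * (2 * (p * e))) ^ (J + d) ≤ ((M * P * B ^ 2) ^ 2) ^ (J + d) :=
      le_of_mul_le_mul_right h5 (by positivity)
    exact (pow_le_pow_iff_left₀ (by positivity) (by positivity) (by omega)).mp h6
  have hdiag : M ^ 2 * B ^ 2 * (2 * (p * e)) ≤ (M * P * B ^ 2) ^ 2 := by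
    calc M ^ 2 * B ^ 2 * (2 * (p * e)) ≤ M ^ 2 * B ^ 2 * (P ^ 2 * B ^ 2) :=
          mul_le_mul_of_nonneg_left h2 (by positivity)
      _ = _ := by ring
  have hpe : 0 ≤ p * e := by positivity
  have h7 : Q * (p * e) ≤ (a1 + M ^ 2 * B ^ 2) * (p * e) := mul_le_mul_of_nonneg_right hQ hpe
  linarith

end Pool.Agent.helper46.PY
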