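import Mathlib
import Pool.Agent.helper82.Weil.R
import Pool.Agent.helper46.PY.G
import Pool.Agent.helper46.PY.K

/-!
# Double character sums below the square root barrier, part L

Assembly: sets `A` which are almost invariant under an arithmetic progression.
-/

set_option autoImplicit false

namespace Pool.Agent.helper46.PY

open Finset Pointwise Pool.Agent.helper82.Weil

/-- The arithmetic progression `{n v : |n| ≤ T}` in `ZMod p`. -/
noncomputable def ap {p : ℕ} (v : ZMod p) (T : ℕ) : Finset (ZMod p) :=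
  (Finset.Icc (-(T : ℤ)) T).image fun n : ℤ => (n : ZMod p) * v

theorem mem_ap {p : ℕ} (v : ZMod p) (T : ℕ) (x : ZMod p) :
    x ∈ ap v T ↔ ∃ n : ℤ, |n| ≤ T ∧ (n : ZMod p) * v = x := by
  unfold ap
  rw [Finset.mem_image]
  constructor
  · rintro ⟨n, hn, hx⟩
    exact ⟨n, abs_le.2 (Finset.mem_Icc.1 hn), hx⟩
  · rintro ⟨n, hn, hx⟩
    exact ⟨n, Finset.mem_Icc.2 (abs_le.1 hn), hx⟩

theorem natmul_inj {p : ℕ} [Fact p.Prime] (v : ZMod p) (hv : v ≠ 0) (m n : ℕ) (hm : m < p)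
    (hn : n < p) (h : (m : ZMod p) * v = (n : ZMod p) * v) : m = n := by
  have h1 : (m : ZMod p) = (n : ZMod p) := mul_right_cancel₀ hv h
  rw [ZMod.natCast_eq_natCast_iff'] at h1
  rwa [Nat.mod_eq_of_lt hm, Nat.mod_eq_of_lt hn] at h1

theorem card_ap_ge {p : ℕ} [Fact p.Prime] (v : ZMod p) (hv : v ≠ 0) (T : ℕ) (hT : T < p) :
    T ≤ (ap v T).card := by
  have h1 : ((Finset.range (T + 1)).image fun k : ℕ => (k : ZMod p) * v) ⊆ ap v T := by
    intro x hx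
    rw [Finset.mem_image] at hx
    obtain ⟨k, hk, rfl⟩ := hx
    rw [Finset.mem_range] at hk
    rw [mem_ap]
    refine ⟨(k : ℤ), ?_, ?_⟩
    · rw [Nat.abs_cast]
      exact_mod_cast Nat.lt_succ_iff.1 hk
    · simp
  have h2 := Finset.card_le_card h1
  rw [Finset.card_image_of_injOn, Finset.card_range] at h2
  · omega
  · intro m hm n hn h
    rw [Finset.mem_coe, Finset.mem_range] at hm hn
    exact natmul_inj v hv m n (by omega) (by omega) h

theorem exists_J (p T K : ℕ) (hK : 1 ≤ K) (hT : 2 ≤ T) (hT2 : T ^ 2 ≤ p) :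
    ∃ J d : ℕ, 0 < J ∧ J + d = K ∧ T ^ (2 * K) ≤ p ^ J ∧ p ^ J ≤ p * T ^ (2 * K) := by
  have hK' : T ^ (2 * K) ≤ p ^ K := by
    rw [pow_mul]
    exact Nat.pow_le_pow_left hT2 K
  have hex : ∃ j : ℕ, T ^ (2 * K) ≤ p ^ j := ⟨K, hK'⟩
  have hJspec := Nat.find_spec hex
  have hJK : Nat.find hex ≤ K := Nat.find_min' hex hK'
  have hJ0 : 0 < Nat.find hex := by
    rw [Nat.pos_iff_ne_zero]
    intro h0
    rw [h0, pow_zero] at hJspec
    have h2 : T ^ 1 ≤ T ^ (2 * K) := Nat.pow_le_pow_right (by omega) (by omega)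
    rw [pow_one] at h2
    omega
  have hJmin : p ^ (Nat.find hex - 1) < T ^ (2 * K) :=
    not_le.1 (Nat.find_min hex (show Nat.find hex - 1 < Nat.find hex by omega))
  refine ⟨Nat.find hex, K - Nat.find hex, hJ0, by omega, hJspec, ?_⟩
  calc p ^ (Nat.find hex) = p * p ^ (Nat.find hex - 1) := by
        rw [← pow_succ']
        congr 1
        omega
    _ ≤ p * T ^ (2 * K) := Nat.mul_le_mul_left _ hJmin.le

theorem coll_real (J d : ℕ) (a1 a0 k s F P A B q e m : ℝ) (hs0 : 0 ≤ s) (hk0 : 0 ≤ k)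
    (he1 : 1 ≤ e) (hq0 : 0 ≤ q) (hm0 : 0 ≤ m) (hA0 : 0 ≤ A) (hP0 : 0 ≤ P) (hB0 : 0 ≤ B)
    (ha0def : a0 = P * B ^ 2 * (e * m)) (hPe : P ≤ e * A)
    (hAm : A ≤ q * m) (hBm : B * min A B ≤ q * m) (hsq : s ^ (J + d) ≤ q)
    (hcoll : a1 ^ (J + d) ≤ a0 ^ d * ((2 * (k ^ 2 * s)) ^ (J + d) * a0 +
      2 * (F ^ 2 * (P * B ^ 2 * (B * min P B + P)))) ^ J) :
    a1 ^ (J + d) ≤ a0 ^ d * (((2 * k ^ 2) ^ (J + d) + 4 * F ^ 2) * q * a0) ^ J := by
  have he0 : 0 ≤ e := by linarith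
  have ha00 : 0 ≤ a0 := by rw [ha0def]; positivity
  have hmin : 0 ≤ min P B := le_min hP0 hB0
  refine hcoll.trans ?_
  refine mul_le_mul_of_nonneg_left ?_ (pow_nonneg ha00 d)
  have h1 : (2 * (k ^ 2 * s)) ^ (J + d) * a0 ≤ (2 * k ^ 2) ^ (J + d) * q * a0 := by
    refine mul_le_mul_of_nonneg_right ?_ ha00
    rw [← mul_assoc, mul_pow (2 * k ^ 2)]
    exact mul_le_mul_of_nonneg_left hsq (by positivity)
  have h2 : B * min P B + P ≤ 2 * q * (e * m) := by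
    have h3 : min P B ≤ e * min A B := by
      rw [mul_min_of_nonneg _ _ he0]
      refine le_min ((min_le_left _ _).trans hPe) ((min_le_right _ _).trans ?_)
      nlinarith
    have h4 : B * min P B ≤ e * (q * m) := by
      calc B * min P B ≤ B * (e * min A B) := mul_le_mul_of_nonneg_left h3 hB0
        _ = e * (B * min A B) := by ring
        _ ≤ e * (q * m) := mul_le_mul_of_nonneg_left hBm he0
    have h5 : P ≤ e * (q * m) := hPe.trans (mul_le_mul_of_nonneg_left hAm he0)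
    linarith
  have h3 : P * B ^ 2 * (B * min P B + P) ≤ 2 * q * a0 := by
    calc P * B ^ 2 * (B * min P B + P) ≤ P * B ^ 2 * (2 * q * (e * m)) :=
          mul_le_mul_of_nonneg_left h2 (by positivity)
      _ = 2 * q * a0 := by rw [ha0def]; ring
  have h4 : 2 * (F ^ 2 * (P * B ^ 2 * (B * min P B + P))) ≤ 4 * F ^ 2 * q * a0 := by
    calc 2 * (F ^ 2 * (P * B ^ 2 * (B * min P B + P)))
        = (2 * F ^ 2) * (P * B ^ 2 * (B * min P B + P)) := by ring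
      _ ≤ (2 * F ^ 2) * (2 * q * a0) := mul_le_mul_of_nonneg_left h3 (by positivity)
      _ = _ := by ring
  refine pow_le_pow_left₀ ?_ ?_ J
  · have h5 : 0 ≤ B * min P B + P := by positivity
    positivity
  · calc (2 * (k ^ 2 * s)) ^ (J + d) * a0 + 2 * (F ^ 2 * (P * B ^ 2 * (B * min P B + P)))
        ≤ (2 * k ^ 2) ^ (J + d) * q * a0 + 4 * F ^ 2 * q * a0 := add_le_add h1 h4
      _ = _ := by ring

theorem exps (J K : ℕ) (hJK : J ≤ K) (e C1 q E : ℝ) (he : 12 ≤ e) (heC : C1 ≤ e)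
    (hC : 0 ≤ C1) (heF : (K.factorial : ℝ) ≤ e) (hq0 : 0 ≤ q) (hqe : q ≤ e ^ (8 * K * (K + 1)))
    (hEe : E = e ^ (16 * (K + 1))) :
    C1 ^ K * q * (2 * e ^ 2) ^ K * ((J.factorial : ℝ) * (2 * e ^ 3) ^ J) ^ (2 * K) ≤ E ^ K := by
  have he1 : 1 ≤ e := by linarith
  have he0 : 0 ≤ e := by linarith
  have hDe : (J.factorial : ℝ) * (2 * e ^ 3) ^ J ≤ e ^ (4 * K + 1) := by
    have h1 : (J.factorial : ℝ) ≤ e := by
      refine le_trans ?_ heF
      exact_mod_cast Nat.factorial_le hJK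
    have h2 : (2 * e ^ 3) ^ J ≤ e ^ (4 * K) := by
      calc (2 * e ^ 3) ^ J ≤ (e * e ^ 3) ^ J :=
            pow_le_pow_left₀ (by positivity)
              (mul_le_mul_of_nonneg_right (by linarith) (by positivity)) J
        _ = e ^ (4 * J) := by
            rw [← pow_succ', ← pow_mul]
        _ ≤ e ^ (4 * K) := pow_le_pow_right₀ he1 (by omega)
    calc (J.factorial : ℝ) * (2 * e ^ 3) ^ J ≤ e * e ^ (4 * K) :=
          mul_le_mul h1 h2 (by positivity) he0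
      _ = e ^ (4 * K + 1) := by rw [pow_succ]; ring
  have h1 : C1 ^ K ≤ e ^ K := pow_le_pow_left₀ hC heC K
  have h2 : (2 * e ^ 2) ^ K ≤ e ^ (3 * K) := by
    calc (2 * e ^ 2) ^ K ≤ (e * e ^ 2) ^ K :=
          pow_le_pow_left₀ (by positivity)
            (mul_le_mul_of_nonneg_right (by linarith) (by positivity)) K
      _ = e ^ (3 * K) := by rw [← pow_succ', ← pow_mul]
  have h3 : ((J.factorial : ℝ) * (2 * e ^ 3) ^ J) ^ (2 * K) ≤ e ^ ((4 * K + 1) * (2 * K)) := by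
    rw [pow_mul e]
    exact pow_le_pow_left₀ (by positivity) hDe _
  calc C1 ^ K * q * (2 * e ^ 2) ^ K * ((J.factorial : ℝ) * (2 * e ^ 3) ^ J) ^ (2 * K)
      ≤ e ^ K * e ^ (8 * K * (K + 1)) * e ^ (3 * K) * e ^ ((4 * K + 1) * (2 * K)) := by
        refine mul_le_mul (mul_le_mul (mul_le_mul h1 hqe hq0 (by positivity)) h2 (by positivity)
          (by positivity)) h3 (by positivity) (by positivity)
    _ = e ^ (K + 8 * K * (K + 1) + 3 * K + (4 * K + 1) * (2 * K)) := by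
        rw [← pow_add, ← pow_add, ← pow_add]
    _ ≤ e ^ (16 * (K + 1) * K) := by
        refine pow_le_pow_right₀ he1 ?_
        nlinarith
    _ = E ^ K := by rw [hEe, ← pow_mul]

/-- The multipliers `M` (products of `J` primes) and the translations `Y`. -/
theorem exists_family {p : ℕ} [Fact p.Prime] (T J d : ℕ) (e : ℝ) (v : ZMod p) (hv : v ≠ 0)
    (hJ0 : 0 < J) (hT2 : T ^ 2 ≤ p) (he12 : 12 ≤ e) (hTe : e ^ (16 * J) ≤ T)
    (hJspec : T ^ (2 * (J + d)) ≤ p ^ J) (hlog : 8 * Real.log p ≤ e) :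
    ∃ (X : ℕ) (S : Finset ℕ) (Y : Finset (ZMod p)), (∀ r ∈ S, r.Prime ∧ r ≤ X) ∧ 1 ≤ X ∧
      X ^ (2 * (J + d)) < p ∧ ((S.card : ℝ) ^ (J + d)) ^ 2 ≤ p ∧
      (T : ℝ) ≤ ((J.factorial : ℝ) * (2 * e ^ 3) ^ J) * (MJ p S X J).card ∧ e < (Y.card : ℝ) ∧
      ∀ t ∈ MJ p S X J, ∀ y ∈ Y, -((t : ZMod p) * y) ∈ ap v T := by
  have hp : p.Prime := Fact.out
  have he0 : 0 < e := by linarith
  have he1 : 1 ≤ e := by linarith
  have he16J : e ^ 1 ≤ e ^ (16 * J) := pow_le_pow_right₀ he1 (by omega)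
  rw [pow_one] at he16J
  have hT12 : (12 : ℝ) ≤ T := by linarith
  have hTpos : (0 : ℝ) < T := by linarith
  have hT12' : 12 ≤ T := by exact_mod_cast hT12
  have hTp : T < p := by nlinarith
  have hJR : (0 : ℝ) < J := by exact_mod_cast hJ0
  obtain ⟨h, hh0, hhJ⟩ : ∃ h : ℝ, 0 < h ∧ h ^ J = T := by
    refine ⟨(T : ℝ) ^ (1 / (J : ℝ)), Real.rpow_pos_of_pos hTpos _, ?_⟩
    rw [← Real.rpow_natCast, ← Real.rpow_mul hTpos.le, one_div, inv_mul_cancel₀ hJR.ne',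
      Real.rpow_one]
  have hhe : e ^ 16 ≤ h := by
    have h1 : (e ^ 16) ^ J ≤ h ^ J := by
      rw [hhJ, ← pow_mul]
      exact hTe
    exact (pow_le_pow_iff_left₀ (by positivity) hh0.le hJ0.ne').mp h1
  obtain ⟨x, hx⟩ : ∃ x : ℝ, x = h / e ^ 2 := ⟨_, rfl⟩
  have hx0 : 0 < x := by rw [hx]; positivity
  have hx12 : 12 ≤ x := by
    rw [hx, le_div_iff₀ (by positivity)]
    refine le_trans ?_ hhe
    calc 12 * e ^ 2 ≤ e * e ^ 2 := mul_le_mul_of_nonneg_right he12 (by positivity)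
      _ = e ^ 3 := by ring
      _ ≤ e ^ 16 := pow_le_pow_right₀ he1 (by omega)
  obtain ⟨X, hXx, hxX⟩ : ∃ X : ℕ, (X : ℝ) ≤ x ∧ x < X + 1 :=
    ⟨⌊x⌋₊, Nat.floor_le hx0.le, Nat.lt_floor_add_one x⟩
  have hX6 : 6 ≤ X := by
    have : (6 : ℝ) ≤ X := by linarith
    exact_mod_cast this
  have hXpos : (0 : ℝ) < X := by exact_mod_cast (by omega : 0 < X)
  have hXh : h ≤ 2 * e ^ 2 * X := by
    have h1 : x ≤ 2 * X := by linarith
    calc h = e ^ 2 * x := by rw [hx]; field_simp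
      _ ≤ e ^ 2 * (2 * X) := mul_le_mul_of_nonneg_left h1 (by positivity)
      _ = _ := by ring
  have hXJe : (X : ℝ) ^ J * e ^ (2 * J) ≤ T := by
    calc (X : ℝ) ^ J * e ^ (2 * J) ≤ x ^ J * e ^ (2 * J) :=
          mul_le_mul_of_nonneg_right (pow_le_pow_left₀ hXpos.le hXx J) (by positivity)
      _ = T := by
          rw [hx, div_pow, ← hhJ, ← pow_mul]
          field_simp
  have he2J : e ^ 2 ≤ e ^ (2 * J) := pow_le_pow_right₀ he1 (by omega)
  have hXJe2 : (X : ℝ) ^ J * e ^ 2 ≤ T :=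
    le_trans (mul_le_mul_of_nonneg_left he2J (by positivity)) hXJe
  have he2 : 1 < e ^ 2 := by nlinarith
  have hXJT : X ^ J < T := by
    have h1 : (X : ℝ) ^ J < T := by
      have : (0 : ℝ) < (X : ℝ) ^ J := by positivity
      nlinarith
    exact_mod_cast h1
  have hX2K : X ^ (2 * (J + d)) < p := by
    have h1 : (X ^ (2 * (J + d))) ^ J < p ^ J := by
      calc (X ^ (2 * (J + d))) ^ J = (X ^ J) ^ (2 * (J + d)) := by
            rw [← pow_mul, ← pow_mul, mul_comm]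
        _ < T ^ (2 * (J + d)) := Nat.pow_lt_pow_left hXJT (by omega)
        _ ≤ p ^ J := hJspec
    exact lt_of_pow_lt_pow_left₀ J (Nat.zero_le _) h1
  have hXJp : X ^ J < p := lt_trans hXJT hTp
  have hXp : X < p := lt_of_le_of_lt (Nat.le_self_pow hJ0.ne' X) hXJp
  -- the primes
  obtain ⟨S, hSdef⟩ : ∃ S : Finset ℕ, S = (Finset.Icc 1 X).filter Nat.Prime := ⟨_, rfl⟩
  have hS : ∀ r ∈ S, r.Prime ∧ r ≤ X := by
    intro r hr
    rw [hSdef, Finset.mem_filter, Finset.mem_Icc] at hr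
    exact ⟨hr.2, hr.1.2⟩
  have hScard : S.card = Nat.primeCounting X := by
    rw [hSdef, Nat.primeCounting, Nat.primeCounting', Nat.count_eq_card_filter_range]
    congr 1
    ext r
    simp only [Finset.mem_filter, Finset.mem_Icc, Finset.mem_range]
    constructor
    · rintro ⟨⟨h1, h2⟩, h3⟩
      exact ⟨by omega, h3⟩
    · rintro ⟨h1, h3⟩
      exact ⟨⟨h3.pos, by omega⟩, h3⟩
  have hSX : (S.card : ℝ) ≤ X := by
    have h1 : S.card ≤ X := by
      have h2 := Finset.card_filter_le (Finset.Icc 1 X) Nat.Prime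
      rw [Nat.card_Icc] at h2
      simpa [hSdef] using h2
    exact_mod_cast h1
  have hSe : (X : ℝ) ≤ e * S.card := by
    have h1 := primeCounting_ge X hX6 (e / 8) (by
      have h2 : Real.log X ≤ Real.log p := Real.log_le_log hXpos (by exact_mod_cast hXp.le)
      linarith)
    rw [← hScard] at h1
    have h5 : (0 : ℝ) ≤ S.card := Nat.cast_nonneg _
    nlinarith
  have hsq : ((S.card : ℝ) ^ (J + d)) ^ 2 ≤ p := by
    calc ((S.card : ℝ) ^ (J + d)) ^ 2 ≤ ((X : ℝ) ^ (J + d)) ^ 2 :=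
          pow_le_pow_left₀ (by positivity) (pow_le_pow_left₀ (Nat.cast_nonneg _) hSX _) 2
      _ = (X : ℝ) ^ (2 * (J + d)) := by rw [← pow_mul, mul_comm]
      _ ≤ p := by exact_mod_cast hX2K.le
  have hTM : (T : ℝ) ≤ ((J.factorial : ℝ) * (2 * e ^ 3) ^ J) * (MJ p S X J).card := by
    have h1 : (T : ℝ) ≤ (2 * e ^ 3) ^ J * (S.card : ℝ) ^ J := by
      calc (T : ℝ) = h ^ J := hhJ.symm
        _ ≤ (2 * e ^ 2 * X) ^ J := pow_le_pow_left₀ hh0.le hXh J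
        _ ≤ (2 * e ^ 2 * (e * S.card)) ^ J := by
            refine pow_le_pow_left₀ (by positivity) ?_ J
            exact mul_le_mul_of_nonneg_left hSe (by positivity)
        _ = (2 * e ^ 3) ^ J * (S.card : ℝ) ^ J := by
            rw [← mul_pow]
            congr 1
            ring
    have h2 := card_MJ (p := p) S X hS J hXJp hXp
    calc (T : ℝ) ≤ (2 * e ^ 3) ^ J * (S.card : ℝ) ^ J := h1
      _ ≤ (2 * e ^ 3) ^ J * (J.factorial * (MJ p S X J).card) :=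
          mul_le_mul_of_nonneg_left h2 (by positivity)
      _ = _ := by ring
  -- the translations
  obtain ⟨y0, hy0⟩ : ∃ y0 : ℕ, y0 = T / X ^ J := ⟨_, rfl⟩
  have hy0T : y0 < p := by
    rw [hy0]
    exact lt_of_le_of_lt (Nat.div_le_self _ _) hTp
  obtain ⟨Y, hY⟩ : ∃ Y : Finset (ZMod p), Y = (Finset.range (y0 + 1)).image
      fun k : ℕ => (k : ZMod p) * v := ⟨_, rfl⟩
  have hYcard' : Y.card = y0 + 1 := by
    rw [hY, Finset.card_image_of_injOn, Finset.card_range]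
    intro a ha b hb hab
    rw [Finset.mem_coe, Finset.mem_range] at ha hb
    exact natmul_inj v hv a b (by omega) (by omega) hab
  have hYcard : e < (Y.card : ℝ) := by
    rw [hYcard']
    push_cast
    have hXJ0 : (0 : ℝ) < (X : ℝ) ^ J := by positivity
    have h1 : T < X ^ J * (T / X ^ J + 1) := Nat.lt_mul_div_succ T (by positivity)
    have h2 : (T : ℝ) < (X : ℝ) ^ J * ((y0 : ℝ) + 1) := by
      rw [hy0]
      exact_mod_cast h1
    have h3 : (X : ℝ) ^ J * e ^ 2 < (X : ℝ) ^ J * ((y0 : ℝ) + 1) := lt_of_le_of_lt hXJe2 h2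
    have h4 : e ^ 2 < (y0 : ℝ) + 1 := lt_of_mul_lt_mul_left h3 hXJ0.le
    nlinarith
  refine ⟨X, S, Y, hS, by omega, hX2K, hsq, hTM, hYcard, ?_⟩
  intro t ht y hy
  rw [MJ, Finset.mem_image] at ht
  obtain ⟨n, hn, rfl⟩ := ht
  rw [Finset.mem_filter, Finset.mem_Icc] at hn
  rw [hY, Finset.mem_image] at hy
  obtain ⟨k, hk, rfl⟩ := hy
  rw [Finset.mem_range] at hk
  rw [uu_coe p n (coprime_of_lt' p n hn.1.1 (by omega)), mem_ap]
  refine ⟨-((n * k : ℕ) : ℤ), ?_, ?_⟩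
  · rw [abs_neg, Nat.abs_cast]
    have h1 : n * k ≤ X ^ J * (T / X ^ J) := Nat.mul_le_mul hn.1.2 (by omega)
    have h2 : X ^ J * (T / X ^ J) ≤ T := Nat.mul_div_le _ _
    exact_mod_cast h1.trans h2
  · push_cast
    ring

/-- The bound for the number of collisions. -/
theorem coll_final {p : ℕ} [Fact p.Prime] (A B : Finset (ZMod p)) (P : Finset (ZMod p))
    (T K : ℕ) (m e q C1 E : ℝ) (v : ZMod p) (hv : v ≠ 0) (hK1 : 1 ≤ K)
    (hC1 : C1 = (2 * (K : ℝ) ^ 2) ^ K + 4 * ((K.factorial : ℝ)) ^ 2) (hC11 : 1 ≤ C1)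
    (hT2 : T ^ 2 ≤ p) (he12 : 12 ≤ e) (heC : C1 ≤ e) (heF : (K.factorial : ℝ) ≤ e)
    (hlog : 8 * Real.log p ≤ e) (hEe : E = e ^ (16 * (K + 1))) (hTE : E ≤ T)
    (hq0 : 0 ≤ q) (hq2 : q ^ 2 = p) (hqe : q ≤ e ^ (8 * K * (K + 1)))
    (hm1 : 1 ≤ m) (hAP : (A.card : ℝ) ≤ P.card) (hTP : (T : ℝ) ≤ P.card)
    (hPe : (P.card : ℝ) ≤ e * A.card)
    (hmE : ((A.card : ℝ) ≤ m ∨ (Finset.addEnergy B B : ℝ) ≤ m * (B.card : ℝ) ^ 2))
    (hAm : (A.card : ℝ) ≤ q * m) (hBm : (B.card : ℝ) * min (A.card : ℝ) (B.card : ℝ) ≤ q * m)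
    (hyp1 : (p : ℝ) * E * m ≤ T * A.card * (B.card : ℝ) ^ 2) :
    ∃ (M : Finset (ZMod p)ˣ) (Y : Finset (ZMod p)), 0 < (M.card : ℝ) ∧ e < (Y.card : ℝ) ∧
      (∀ t ∈ M, ∀ y ∈ Y, -((t : ZMod p) * y) ∈ ap v T) ∧
      (∑ z : ZMod p × ZMod p, (∑ t ∈ M, (cnt P B (t • z) : ℝ)) ^ 2) * (p * e) ≤
        ((M.card : ℝ) * P.card * (B.card : ℝ) ^ 2) ^ 2 := by
  have hp : p.Prime := Fact.out
  have hp1 : (1 : ℝ) ≤ p := by exact_mod_cast hp.one_lt.le
  have hp0 : (0 : ℝ) < p := by linarith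
  have he0 : 0 < e := by linarith
  have he1 : 1 ≤ e := by linarith
  have hm0 : 0 ≤ m := by linarith
  have hEe16 : e ^ 16 ≤ E := by
    rw [hEe]
    exact pow_le_pow_right₀ he1 (by omega)
  have he16 : e ≤ e ^ 16 := by
    calc e = e ^ 1 := (pow_one e).symm
      _ ≤ e ^ 16 := pow_le_pow_right₀ he1 (by omega)
  have hE0 : 0 < E := by rw [hEe]; positivity
  have hT12 : (12 : ℝ) ≤ T := by linarith
  obtain ⟨J, d, hJ0, hJd, hJspec, hJp'⟩ := exists_J p T K hK1 (by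
    have : (2 : ℝ) ≤ T := by linarith
    exact_mod_cast this) hT2
  have hJK : J ≤ K := by omega
  have hJp : (p : ℝ) ^ J ≤ p * (T : ℝ) ^ (2 * (J + d)) := by
    rw [hJd]
    exact_mod_cast hJp'
  obtain ⟨X, S, Y, hS, hX1, hX2K, hsq2, hTM, hYcard, hmem⟩ := exists_family T J d e v hv hJ0 hT2
    he12 (by
      refine le_trans ?_ hTE
      rw [hEe]
      refine pow_le_pow_right₀ he1 ?_
      nlinarith) (by rw [hJd]; exact hJspec) hlog
  have hsq3 : ((S.card : ℝ) ^ (J + d)) ^ 2 ≤ q ^ 2 := by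
    rw [hq2]
    exact hsq2
  have hsq : (S.card : ℝ) ^ (J + d) ≤ q :=
    (pow_le_pow_iff_left₀ (by positivity) hq0 (by norm_num)).mp hsq3
  have hD0 : 0 ≤ (J.factorial : ℝ) * (2 * e ^ 3) ^ J := by positivity
  have hMpos : 0 < ((MJ p S X J).card : ℝ) := by
    by_contra hcon
    push Not at hcon
    have : ((J.factorial : ℝ) * (2 * e ^ 3) ^ J) * ((MJ p S X J).card : ℝ) ≤ 0 :=
      mul_nonpos_of_nonneg_of_nonpos hD0 hcon
    linarith
  refine ⟨MJ p S X J, Y, hMpos, hYcard, hmem, ?_⟩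
  obtain ⟨a0, ha0def⟩ : ∃ a0 : ℝ, a0 = (P.card : ℝ) * (B.card : ℝ) ^ 2 * (e * m) := ⟨_, rfl⟩
  have ha0 : ∑ z, f2 P B z ^ 2 ≤ a0 := by
    rw [ha0def]
    rcases hmE with h1 | h1
    · refine (sum_sq_f2_P P B).trans ?_
      refine mul_le_mul_of_nonneg_left ?_ (by positivity)
      exact hPe.trans (mul_le_mul_of_nonneg_left h1 he0.le)
    · refine (sum_sq_f2_E P B).trans ?_
      have h2 : m * (B.card : ℝ) ^ 2 ≤ (B.card : ℝ) ^ 2 * (e * m) := by
        have h3 : 0 ≤ m * (B.card : ℝ) ^ 2 := by positivity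
        nlinarith
      calc (P.card : ℝ) * (Finset.addEnergy B B : ℝ) ≤ P.card * ((B.card : ℝ) ^ 2 * (e * m)) :=
            mul_le_mul_of_nonneg_left (h1.trans h2) (by positivity)
        _ = _ := by ring
  have hcoll := collision_two (p := p) S X hS J d hJ0 hX2K hX1 P B a0 ha0
  have hcoll2 : (∑ z, W (MJ p S X J) (f2 P B) z ^ 2) ^ (J + d) ≤
      a0 ^ d * (C1 * q * a0) ^ J := by
    have h1 := coll_real J d _ a0 ((J + d : ℕ) : ℝ) S.card ((J + d).factorial : ℝ) P.card A.card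
      B.card q e m (Nat.cast_nonneg _) (Nat.cast_nonneg _) he1 hq0 hm0 (Nat.cast_nonneg _)
      (Nat.cast_nonneg _) (Nat.cast_nonneg _) ha0def hPe hAm hBm hsq hcoll
    have h2 : (2 * ((J + d : ℕ) : ℝ) ^ 2) ^ (J + d) + 4 * ((J + d).factorial : ℝ) ^ 2 = C1 := by
      rw [hJd, hC1]
    rw [h2] at h1
    exact h1
  have hfin : C1 ^ (J + d) * q * (2 * e ^ 2) ^ (J + d) *
      ((J.factorial : ℝ) * (2 * e ^ 3) ^ J) ^ (2 * (J + d)) ≤ E ^ (J + d) := by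
    rw [hJd]
    exact exps J K hJK e C1 q E he12 heC (by linarith) heF hq0 hqe hEe
  have hPB : 2 * ((p : ℝ) * e) ≤ (P.card : ℝ) ^ 2 * (B.card : ℝ) ^ 2 := by
    have h1 : (p : ℝ) * E ≤ p * E * m := by
      have : 0 ≤ (p : ℝ) * E := by positivity
      nlinarith
    have h2 : (T : ℝ) * A.card * (B.card : ℝ) ^ 2 ≤ P.card * P.card * (B.card : ℝ) ^ 2 := by
      refine mul_le_mul_of_nonneg_right ?_ (by positivity)
      exact mul_le_mul hTP hAP (by positivity) (by positivity)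
    have h3 : 2 * e ≤ E := by
      refine le_trans ?_ hEe16
      calc 2 * e ≤ e * e := by nlinarith
        _ = e ^ 2 := (sq e).symm
        _ ≤ e ^ 16 := pow_le_pow_right₀ he1 (by omega)
    calc 2 * ((p : ℝ) * e) = p * (2 * e) := by ring
      _ ≤ p * E := mul_le_mul_of_nonneg_left h3 hp0.le
      _ ≤ p * E * m := h1
      _ ≤ _ := hyp1
      _ ≤ _ := h2
      _ = _ := by ring
  exact numeric2 J d hJ0 p q e T (MJ p S X J).card P.card A.card B.card m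
    (∑ z, W (MJ p S X J) (f2 P B) z ^ 2) C1 ((J.factorial : ℝ) * (2 * e ^ 3) ^ J) E
    (∑ z : ZMod p × ZMod p, (∑ t ∈ MJ p S X J, (cnt P B (t • z) : ℝ)) ^ 2) hp1 hq0 hq2 he1
    (by linarith) hJp
    (Nat.cast_nonneg _) hTM hD0 (Nat.cast_nonneg _) hAP (Nat.cast_nonneg _) (Nat.cast_nonneg _)
    hm0 hC11 hE0 (Finset.sum_nonneg fun _ _ => by positivity) (by rw [← ha0def]; exact hcoll2)
    hyp1 hfin hPB (total2_le (MJ p S X J) P B)

theorem main2 (ε : ℝ) (hε : 0 < ε) :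
    ∃ p₀ : ℕ, ∃ δ : ℝ, 0 < δ ∧ ∀ p : ℕ, p.Prime → p₀ < p →
      ∀ (A B : Finset (ZMod p)) (v : ZMod p) (T : ℕ) (m : ℝ), v ≠ 0 →
        (p : ℝ) ^ ε ≤ T → T ^ 2 ≤ p →
        ((A + ap v T).card : ℝ) ≤ (p : ℝ) ^ δ * A.card →
        ((A.card : ℝ) ≤ m ∨ (Finset.addEnergy B B : ℝ) ≤ m * (B.card : ℝ) ^ 2) →
        (A.card : ℝ) ≤ Real.sqrt p * m →
        (B.card : ℝ) * min (A.card : ℝ) (B.card : ℝ) ≤ Real.sqrt p * m →
        (p : ℝ) ^ (1 + ε) * m ≤ T * A.card * (B.card : ℝ) ^ 2 →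
        ∀ χ : MulChar (ZMod p) ℂ, χ ≠ 1 → ∀ β : ZMod p → ℂ, (∀ b, ‖β b‖ ≤ 1) →
          ∑ a ∈ A, ‖∑ b ∈ B, β b * χ (a + b)‖ ≤ (p : ℝ) ^ (-δ) * A.card * B.card := by
  obtain ⟨K, hK1, hεK⟩ : ∃ K : ℕ, 1 ≤ K ∧ 1 ≤ ε * K := by
    refine ⟨⌈1 / ε⌉₊ + 1, by omega, ?_⟩
    have h1 : 1 / ε ≤ (⌈1 / ε⌉₊ : ℝ) := Nat.le_ceil _
    have h3 : 1 / ε ≤ ((⌈1 / ε⌉₊ + 1 : ℕ) : ℝ) := by push_cast; linarith
    calc 1 = ε * (1 / ε) := by field_simp
      _ ≤ ε * ((⌈1 / ε⌉₊ + 1 : ℕ) : ℝ) := mul_le_mul_of_nonneg_left h3 hε.le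
  have hKR : (0 : ℝ) < (K : ℝ) + 1 := by positivity
  obtain ⟨η, hη⟩ : ∃ η : ℝ, η = ε / (16 * (K + 1)) := ⟨_, rfl⟩
  have hη0 : 0 < η := by rw [hη]; positivity
  obtain ⟨C1, hC1⟩ : ∃ C1 : ℝ, C1 = (2 * (K : ℝ) ^ 2) ^ K + 4 * ((K.factorial : ℝ)) ^ 2 :=
    ⟨_, rfl⟩
  have hfac1 : (1 : ℝ) ≤ K.factorial := by exact_mod_cast Nat.factorial_pos K
  have hC11 : 1 ≤ C1 := by
    have : 0 ≤ (2 * (K : ℝ) ^ 2) ^ K := by positivity
    rw [hC1]
    nlinarith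
  obtain ⟨kk, p₁, δ₁, hkk, hδ₁, key⟩ := asymp_three η hη0
  obtain ⟨p₂, hp₂⟩ := large η (C1 + K.factorial + 12) hη0
  refine ⟨max p₁ p₂, min δ₁ η, lt_min hδ₁ hη0, ?_⟩
  intro p hp hpp A B v T m hv hT1 hT2 hAG hmE hAm hBm hyp χ hχ β hβ
  have : Fact p.Prime := ⟨hp⟩
  obtain ⟨hp1, heK, hlog⟩ := hp₂ p (lt_of_le_of_lt (le_max_right _ _) hpp)
  have hp0 : (0 : ℝ) < p := by linarith
  rcases A.eq_empty_or_nonempty with rfl | hA
  · simp
  rcases B.eq_empty_or_nonempty with rfl | hB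
  · simp
  have hApos : (1 : ℝ) ≤ A.card := by exact_mod_cast hA.card_pos
  have hBpos : (1 : ℝ) ≤ B.card := by exact_mod_cast hB.card_pos
  obtain ⟨e, he⟩ : ∃ e : ℝ, e = (p : ℝ) ^ η := ⟨_, rfl⟩
  rw [← he] at heK hlog
  have he12 : 12 ≤ e := by linarith
  have heC : C1 ≤ e := by linarith
  have heF : (K.factorial : ℝ) ≤ e := by linarith
  have he0 : 0 < e := by linarith
  have he1 : 1 ≤ e := by linarith
  have hEe : (p : ℝ) ^ ε = e ^ (16 * (K + 1)) := by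
    rw [he, ← Real.rpow_natCast, ← Real.rpow_mul hp0.le]
    congr 1
    rw [hη]
    push_cast
    field_simp
  have hq2 : Real.sqrt p ^ 2 = p := Real.sq_sqrt hp0.le
  have hq0 : 0 ≤ Real.sqrt p := Real.sqrt_nonneg _
  have hqe : Real.sqrt p ≤ e ^ (8 * K * (K + 1)) := by
    have h1 : Real.sqrt p ^ 2 ≤ (e ^ (8 * K * (K + 1))) ^ 2 := by
      rw [hq2]
      have h2 : (e ^ (8 * K * (K + 1))) ^ 2 = ((p : ℝ) ^ ε) ^ K := by
        rw [hEe, ← pow_mul, ← pow_mul]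
        congr 1
        ring
      rw [h2, ← Real.rpow_natCast, ← Real.rpow_mul hp0.le]
      calc (p : ℝ) = (p : ℝ) ^ (1 : ℝ) := (Real.rpow_one _).symm
        _ ≤ (p : ℝ) ^ (ε * K) := Real.rpow_le_rpow_of_exponent_le hp1.le hεK
    exact (pow_le_pow_iff_left₀ hq0 (by positivity) (by norm_num)).mp h1
  have hm1 : 1 ≤ m := by
    rcases hmE with h | h
    · linarith
    · have h1 : B.card * B.card ≤ Finset.addEnergy B B := Finset.le_addEnergy
      have h2 : (B.card : ℝ) * B.card ≤ m * (B.card : ℝ) ^ 2 := by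
        refine le_trans ?_ h
        exact_mod_cast h1
      have h3 : 1 * (B.card : ℝ) ^ 2 ≤ m * (B.card : ℝ) ^ 2 := by
        rw [one_mul, sq]
        rw [sq] at h2
        exact h2
      exact le_of_mul_le_mul_right h3 (by positivity)
  have hTp : T < p := by
    have h1 : (12 : ℝ) ≤ T := by
      refine le_trans ?_ hT1
      rw [hEe]
      calc (12 : ℝ) ≤ e := he12
        _ = e ^ 1 := (pow_one e).symm
        _ ≤ e ^ (16 * (K + 1)) := pow_le_pow_right₀ he1 (by omega)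
    have h2 : 12 ≤ T := by exact_mod_cast h1
    nlinarith
  obtain ⟨P, hP⟩ : ∃ P : Finset (ZMod p), P = A + ap v T := ⟨_, rfl⟩
  rw [← hP] at hAG
  have hne : (ap v T).Nonempty := ⟨0, (mem_ap v T 0).2 ⟨0, by simp, by simp⟩⟩
  have hAP : (A.card : ℝ) ≤ P.card := by
    rw [hP]
    exact_mod_cast Finset.card_le_card_add_right hne
  have hTP : (T : ℝ) ≤ P.card := by
    rw [hP]
    exact_mod_cast (card_ap_ge v hv T hTp).trans (Finset.card_le_card_add_left hA)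
  have hPpos : (1 : ℝ) ≤ P.card := hApos.trans hAP
  have hPe : (P.card : ℝ) ≤ e * A.card := by
    refine hAG.trans (mul_le_mul_of_nonneg_right ?_ (Nat.cast_nonneg _))
    rw [he]
    exact Real.rpow_le_rpow_of_exponent_le hp1.le (min_le_right _ _)
  have hyp1 : (p : ℝ) * (p : ℝ) ^ ε * m ≤ T * A.card * (B.card : ℝ) ^ 2 := by
    have h1 : (p : ℝ) ^ (1 + ε) = p * (p : ℝ) ^ ε := by rw [Real.rpow_add hp0, Real.rpow_one]
    rw [← h1]
    exact hyp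
  obtain ⟨M, Y, hMpos, hYcard, hmem, hQ⟩ := coll_final A B P T K m e (Real.sqrt p) C1
    ((p : ℝ) ^ ε) v hv hK1 hC1 hC11 hT2 he12 heC heF hlog hEe hT1 hq0 hq2 hqe hm1 hAP hTP hPe hmE
    hAm hBm hyp1
  have hmem' : ∀ a ∈ A, ∀ t ∈ M, ∀ y ∈ Y, a - (t : ZMod p) * y ∈ P := by
    intro a ha t ht y hy
    rw [sub_eq_add_neg, hP]
    exact Finset.add_mem_add ha (hmem t ht y hy)
  have h0 := pair_bound χ hχ A P Y B M hmem' β hβ kk hkk
  rw [ZMod.card] at h0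
  have hE0' : 0 ≤ ∑ a ∈ A, ‖∑ b ∈ B, β b * χ (a + b)‖ ^ 2 :=
    Finset.sum_nonneg fun _ _ => by positivity
  have hpe : (p : ℝ) ^ (1 + η) = p * e := by
    rw [Real.rpow_add hp0, Real.rpow_one, he]
  have hAG₁ : (P.card : ℝ) ≤ (p : ℝ) ^ δ₁ * A.card := by
    refine hAG.trans (mul_le_mul_of_nonneg_right ?_ (Nat.cast_nonneg _))
    exact Real.rpow_le_rpow_of_exponent_le hp1.le (min_le_left _ _)
  have h1 := key p (lt_of_le_of_lt (le_max_left _ _) hpp) M.card Y.card A.card P.card B.card _ _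
    hMpos (by rw [← he]; exact hYcard) (by positivity) (by positivity) hAG₁ (by positivity)
    (Finset.sum_nonneg fun _ _ => by positivity) hE0' h0 (by rw [hpe]; exact hQ)
  have h2 : (∑ a ∈ A, ‖∑ b ∈ B, β b * χ (a + b)‖) ^ 2 ≤
      (A.card : ℝ) * ∑ a ∈ A, ‖∑ b ∈ B, β b * χ (a + b)‖ ^ 2 :=
    sq_sum_le_card_mul_sum_sq
  have hδδ : (p : ℝ) ^ (-δ₁) ≤ (p : ℝ) ^ (-(min δ₁ η)) :=
    Real.rpow_le_rpow_of_exponent_le hp1.le (neg_le_neg (min_le_left _ _))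
  have h3 : (∑ a ∈ A, ‖∑ b ∈ B, β b * χ (a + b)‖) ^ 2 ≤
      ((p : ℝ) ^ (-(min δ₁ η)) * (A.card : ℝ) * (B.card : ℝ)) ^ 2 := by
    refine h2.trans ?_
    calc (A.card : ℝ) * ∑ a ∈ A, ‖∑ b ∈ B, β b * χ (a + b)‖ ^ 2
        ≤ (A.card : ℝ) * (((p : ℝ) ^ (-δ₁) * B.card) ^ 2 * A.card) :=
          mul_le_mul_of_nonneg_left h1 (by positivity)
      _ ≤ (A.card : ℝ) * (((p : ℝ) ^ (-(min δ₁ η)) * B.card) ^ 2 * A.card) := by
          refine mul_le_mul_of_nonneg_left ?_ (by positivity)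
          refine mul_le_mul_of_nonneg_right ?_ (by positivity)
          refine pow_le_pow_left₀ (by positivity) ?_ 2
          exact mul_le_mul_of_nonneg_right hδδ (by positivity)
      _ = _ := by ring
  exact (pow_le_pow_iff_left₀ (Finset.sum_nonneg fun _ _ => norm_nonneg _) (by positivity)
    (by norm_num)).mp h3

end Pool.Agent.helper46.PY
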