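import Mathlib
import Pool.Agent.helper46.PY.L

/-!
# Double character sums below the square root barrier, part M

The version with the mixed energy of `P` and `B`.
-/

set_option autoImplicit false

namespace Pool.Agent.helper46.PY

open Finset Pointwise Pool.Agent.helper82.Weil

/-- The number of `(x, x', b₁, b₂, b₃, b₄) ∈ P² × B⁴` with `x - x' = b₁ - b₂ = b₃ - b₄`. -/
def mixed {p : ℕ} (P B : Finset (ZMod p)) : ℕ :=
  (((P ×ˢ P) ×ˢ ((B ×ˢ B) ×ˢ (B ×ˢ B))).filter fun w =>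
    w.1.1 - w.1.2 = w.2.1.1 - w.2.1.2 ∧ w.1.1 - w.1.2 = w.2.2.1 - w.2.2.2).card

theorem le_mixed {p : ℕ} (P B : Finset (ZMod p)) : P.card * B.card ^ 2 ≤ mixed P B := by
  unfold mixed
  have h1 : P.card * B.card ^ 2 = (P ×ˢ (B ×ˢ B)).card := by
    rw [Finset.card_product, Finset.card_product, sq]
  rw [h1]
  refine Finset.card_le_card_of_injOn (fun w => ((w.1, w.1), ((w.2.1, w.2.1), (w.2.2, w.2.2))))
    ?_ ?_
  · intro w hw
    rw [mem_coe, mem_product, mem_product] at hw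
    obtain ⟨h2, h3, h4⟩ := hw
    simp only [mem_coe, mem_filter, mem_product, sub_self, and_self, and_true]
    exact ⟨h2, h3, h4⟩
  · intro w _ w' _ h
    simp only [Prod.mk.injEq] at h
    obtain ⟨⟨h2, _⟩, ⟨h3, _⟩, h4, _⟩ := h
    exact Prod.ext h2 (Prod.ext h3 h4)

theorem sum_sq_f2_mixed {p : ℕ} [Fact p.Prime] (P B : Finset (ZMod p)) :
    ∑ z, f2 P B z ^ 2 ≤ (mixed P B : ℝ) := by
  have h0 : ∑ z, cnt P B z ^ 2 ≤ mixed P B := by
    have h1 : ∑ z, cnt P B z ^ 2 =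
        (((P ×ˢ (B ×ˢ B)) ×ˢ (P ×ˢ (B ×ˢ B))).filter fun x =>
          (x.1.1 + x.1.2.1, x.1.1 + x.1.2.2) = (x.2.1 + x.2.2.1, x.2.1 + x.2.2.2)).card := by
      rw [Finset.card_eq_sum_card_fiberwise
        (f := fun x : (ZMod p × (ZMod p × ZMod p)) × (ZMod p × (ZMod p × ZMod p)) =>
        (x.1.1 + x.1.2.1, x.1.1 + x.1.2.2)) (t := Finset.univ)
        (fun x _ => Finset.mem_coe.mpr (Finset.mem_univ _))]
      refine Finset.sum_congr rfl fun z _ => ?_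
      unfold cnt
      rw [sq, ← Finset.card_product]
      congr 1
      ext x
      simp only [Finset.mem_filter, Finset.mem_product]
      constructor
      · rintro ⟨⟨a, b⟩, c, d⟩
        exact ⟨⟨⟨a, c⟩, by rw [b, d]⟩, b⟩
      · rintro ⟨⟨⟨a, b⟩, c⟩, d⟩
        exact ⟨⟨a, d⟩, ⟨b, by rw [← c, d]⟩⟩
    rw [h1, mixed]
    refine Finset.card_le_card_of_injOn
      (fun x => ((x.1.1, x.2.1), ((x.2.2.1, x.1.2.1), (x.2.2.2, x.1.2.2)))) ?_ ?_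
    · intro x hx
      rw [mem_coe, mem_filter, mem_product, mem_product, mem_product, mem_product,
        mem_product] at hx
      obtain ⟨⟨⟨a1, a2, a3⟩, b1, b2, b3⟩, hE⟩ := hx
      have e1 : x.1.1 + x.1.2.1 = x.2.1 + x.2.2.1 := congrArg Prod.fst hE
      have e2 : x.1.1 + x.1.2.2 = x.2.1 + x.2.2.2 := congrArg Prod.snd hE
      simp only [mem_coe, mem_filter, mem_product]
      refine ⟨⟨⟨a1, b1⟩, ⟨b2, a2⟩, b3, a3⟩, ?_, ?_⟩
      · linear_combination e1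
      · linear_combination e2
    · intro x hx y hy hxy
      simp only [Prod.mk.injEq] at hxy
      obtain ⟨⟨c1, c2⟩, ⟨c3, c4⟩, c5, c6⟩ := hxy
      exact Prod.ext (Prod.ext c1 (Prod.ext c4 c6)) (Prod.ext c2 (Prod.ext c3 c5))
  calc ∑ z, f2 P B z ^ 2 ≤ ∑ z, ((cnt P B z ^ 2 : ℕ) : ℝ) := by
        refine Finset.sum_le_sum fun z _ => ?_
        push_cast
        exact pow_le_pow_left₀ (f2_nonneg P B z) (f2_le P B z) 2
    _ ≤ _ := by
        rw [← Nat.cast_sum]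
        exact_mod_cast h0

/-- The bound for the number of collisions. -/
theorem coll_final3 {p : ℕ} [Fact p.Prime] (B : Finset (ZMod p)) (P : Finset (ZMod p))
    (T K : ℕ) (m e q C1 E : ℝ) (v : ZMod p) (hv : v ≠ 0) (hK1 : 1 ≤ K)
    (hC1 : C1 = (2 * (K : ℝ) ^ 2) ^ K + 4 * ((K.factorial : ℝ)) ^ 2) (hC11 : 1 ≤ C1)
    (hT2 : T ^ 2 ≤ p) (he12 : 12 ≤ e) (heC : C1 ≤ e) (heF : (K.factorial : ℝ) ≤ e)
    (hlog : 8 * Real.log p ≤ e) (hEe : E = e ^ (16 * (K + 1))) (hTE : E ≤ T)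
    (hq0 : 0 ≤ q) (hq2 : q ^ 2 = p) (hqe : q ≤ e ^ (8 * K * (K + 1)))
    (hm1 : 1 ≤ m) (hTP : (T : ℝ) ≤ P.card)
    (hmE : ∑ z, f2 P B z ^ 2 ≤ m * P.card * (B.card : ℝ) ^ 2)
    (hAm : (P.card : ℝ) ≤ q * m) (hBm : (B.card : ℝ) * min (P.card : ℝ) (B.card : ℝ) ≤ q * m)
    (hyp1 : (p : ℝ) * E * m ≤ T * P.card * (B.card : ℝ) ^ 2) :
    ∃ (M : Finset (ZMod p)ˣ) (Y : Finset (ZMod p)), 0 < (M.card : ℝ) ∧ e < (Y.card : ℝ) ∧
      (∀ t ∈ M, ∀ y ∈ Y, -((t : ZMod p) * y) ∈ ap v T) ∧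
      (∑ z : ZMod p × ZMod p, (∑ t ∈ M, (cnt P B (t • z) : ℝ)) ^ 2) * (p * e) ≤
        ((M.card : ℝ) * P.card * (B.card : ℝ) ^ 2) ^ 2 := by
  have hp : p.Prime := Fact.out
  have hp1 : (1 : ℝ) ≤ p := by exact_mod_cast hp.one_lt.le
  have hp0 : (0 : ℝ) < p := by linarith
  have he0 : 0 < e := by linarith
  have he1 : 1 ≤ e := by linarith
  have hm0 : 0 ≤ m := by linarith
  have hEe16 : e ^ 16 ≤ E := by
    rw [hEe]
    exact pow_le_pow_right₀ he1 (by omega)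
  have he16 : e ≤ e ^ 16 := by
    calc e = e ^ 1 := (pow_one e).symm
      _ ≤ e ^ 16 := pow_le_pow_right₀ he1 (by omega)
  have hE0 : 0 < E := by rw [hEe]; positivity
  have hT12 : (12 : ℝ) ≤ T := by linarith
  obtain ⟨J, d, hJ0, hJd, hJspec, hJp'⟩ := exists_J p T K hK1 (by
    have : (2 : ℝ) ≤ T := by linarith
    exact_mod_cast this) hT2
  have hJK : J ≤ K := by omega
  have hPe : (P.card : ℝ) ≤ e * P.card := by
    have h1 : (0 : ℝ) ≤ P.card := Nat.cast_nonneg _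
    nlinarith
  have hJp : (p : ℝ) ^ J ≤ p * (T : ℝ) ^ (2 * (J + d)) := by
    rw [hJd]
    exact_mod_cast hJp'
  obtain ⟨X, S, Y, hS, hX1, hX2K, hsq2, hTM, hYcard, hmem⟩ := exists_family T J d e v hv hJ0 hT2
    he12 (by
      refine le_trans ?_ hTE
      rw [hEe]
      refine pow_le_pow_right₀ he1 ?_
      nlinarith) (by rw [hJd]; exact hJspec) hlog
  have hsq3 : ((S.card : ℝ) ^ (J + d)) ^ 2 ≤ q ^ 2 := by
    rw [hq2]
    exact hsq2
  have hsq : (S.card : ℝ) ^ (J + d) ≤ q :=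
    (pow_le_pow_iff_left₀ (by positivity) hq0 (by norm_num)).mp hsq3
  have hD0 : 0 ≤ (J.factorial : ℝ) * (2 * e ^ 3) ^ J := by positivity
  have hMpos : 0 < ((MJ p S X J).card : ℝ) := by
    by_contra hcon
    push Not at hcon
    have : ((J.factorial : ℝ) * (2 * e ^ 3) ^ J) * ((MJ p S X J).card : ℝ) ≤ 0 :=
      mul_nonpos_of_nonneg_of_nonpos hD0 hcon
    linarith
  refine ⟨MJ p S X J, Y, hMpos, hYcard, hmem, ?_⟩
  obtain ⟨a0, ha0def⟩ : ∃ a0 : ℝ, a0 = (P.card : ℝ) * (B.card : ℝ) ^ 2 * (e * m) := ⟨_, rfl⟩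
  have ha0 : ∑ z, f2 P B z ^ 2 ≤ a0 := by
    rw [ha0def]
    refine hmE.trans ?_
    have h3 : 0 ≤ (P.card : ℝ) * (B.card : ℝ) ^ 2 * m := by positivity
    calc m * P.card * (B.card : ℝ) ^ 2 = 1 * ((P.card : ℝ) * (B.card : ℝ) ^ 2 * m) := by ring
      _ ≤ e * ((P.card : ℝ) * (B.card : ℝ) ^ 2 * m) := mul_le_mul_of_nonneg_right he1 h3
      _ = _ := by ring
  have hcoll := collision_two (p := p) S X hS J d hJ0 hX2K hX1 P B a0 ha0
  have hcoll2 : (∑ z, W (MJ p S X J) (f2 P B) z ^ 2) ^ (J + d) ≤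
      a0 ^ d * (C1 * q * a0) ^ J := by
    have h1 := coll_real J d _ a0 ((J + d : ℕ) : ℝ) S.card ((J + d).factorial : ℝ) P.card P.card
      B.card q e m (Nat.cast_nonneg _) (Nat.cast_nonneg _) he1 hq0 hm0 (Nat.cast_nonneg _)
      (Nat.cast_nonneg _) (Nat.cast_nonneg _) ha0def hPe hAm hBm hsq hcoll
    have h2 : (2 * ((J + d : ℕ) : ℝ) ^ 2) ^ (J + d) + 4 * ((J + d).factorial : ℝ) ^ 2 = C1 := by
      rw [hJd, hC1]
    rw [h2] at h1
    exact h1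
  have hfin : C1 ^ (J + d) * q * (2 * e ^ 2) ^ (J + d) *
      ((J.factorial : ℝ) * (2 * e ^ 3) ^ J) ^ (2 * (J + d)) ≤ E ^ (J + d) := by
    rw [hJd]
    exact exps J K hJK e C1 q E he12 heC (by linarith) heF hq0 hqe hEe
  have hPB : 2 * ((p : ℝ) * e) ≤ (P.card : ℝ) ^ 2 * (B.card : ℝ) ^ 2 := by
    have h1 : (p : ℝ) * E ≤ p * E * m := by
      have : 0 ≤ (p : ℝ) * E := by positivity
      nlinarith
    have h2 : (T : ℝ) * P.card * (B.card : ℝ) ^ 2 ≤ P.card * P.card * (B.card : ℝ) ^ 2 := by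
      refine mul_le_mul_of_nonneg_right ?_ (by positivity)
      exact mul_le_mul_of_nonneg_right hTP (by positivity)
    have h3 : 2 * e ≤ E := by
      refine le_trans ?_ hEe16
      calc 2 * e ≤ e * e := by nlinarith
        _ = e ^ 2 := (sq e).symm
        _ ≤ e ^ 16 := pow_le_pow_right₀ he1 (by omega)
    calc 2 * ((p : ℝ) * e) = p * (2 * e) := by ring
      _ ≤ p * E := mul_le_mul_of_nonneg_left h3 hp0.le
      _ ≤ p * E * m := h1
      _ ≤ _ := hyp1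
      _ ≤ _ := h2
      _ = _ := by ring
  exact numeric2 J d hJ0 p q e T (MJ p S X J).card P.card P.card B.card m
    (∑ z, W (MJ p S X J) (f2 P B) z ^ 2) C1 ((J.factorial : ℝ) * (2 * e ^ 3) ^ J) E
    (∑ z : ZMod p × ZMod p, (∑ t ∈ MJ p S X J, (cnt P B (t • z) : ℝ)) ^ 2) hp1 hq0 hq2 he1
    (by linarith) hJp
    (Nat.cast_nonneg _) hTM hD0 (Nat.cast_nonneg _) le_rfl (Nat.cast_nonneg _) (Nat.cast_nonneg _)
    hm0 hC11 hE0 (Finset.sum_nonneg fun _ _ => by positivity) (by rw [← ha0def]; exact hcoll2)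
    hyp1 hfin hPB (total2_le (MJ p S X J) P B)

theorem main3 (ε : ℝ) (hε : 0 < ε) :
    ∃ p₀ : ℕ, ∃ δ : ℝ, 0 < δ ∧ ∀ p : ℕ, p.Prime → p₀ < p →
      ∀ (A P B : Finset (ZMod p)) (v : ZMod p) (T : ℕ) (m : ℝ), v ≠ 0 →
        (p : ℝ) ^ ε ≤ T → T ^ 2 ≤ p → A + ap v T ⊆ P →
        (P.card : ℝ) ≤ (p : ℝ) ^ δ * A.card →
        (mixed P B : ℝ) ≤ m * P.card * (B.card : ℝ) ^ 2 →
        (P.card : ℝ) ≤ Real.sqrt p * m →
        (B.card : ℝ) * min (P.card : ℝ) (B.card : ℝ) ≤ Real.sqrt p * m →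
        (p : ℝ) ^ (1 + ε) * m ≤ T * P.card * (B.card : ℝ) ^ 2 →
        ∀ χ : MulChar (ZMod p) ℂ, χ ≠ 1 → ∀ β : ZMod p → ℂ, (∀ b, ‖β b‖ ≤ 1) →
          ∑ a ∈ A, ‖∑ b ∈ B, β b * χ (a + b)‖ ≤ (p : ℝ) ^ (-δ) * A.card * B.card := by
  obtain ⟨K, hK1, hεK⟩ : ∃ K : ℕ, 1 ≤ K ∧ 1 ≤ ε * K := by
    refine ⟨⌈1 / ε⌉₊ + 1, by omega, ?_⟩
    have h1 : 1 / ε ≤ (⌈1 / ε⌉₊ : ℝ) := Nat.le_ceil _
    have h3 : 1 / ε ≤ ((⌈1 / ε⌉₊ + 1 : ℕ) : ℝ) := by push_cast; linarith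
    calc 1 = ε * (1 / ε) := by field_simp
      _ ≤ ε * ((⌈1 / ε⌉₊ + 1 : ℕ) : ℝ) := mul_le_mul_of_nonneg_left h3 hε.le
  have hKR : (0 : ℝ) < (K : ℝ) + 1 := by positivity
  obtain ⟨η, hη⟩ : ∃ η : ℝ, η = ε / (16 * (K + 1)) := ⟨_, rfl⟩
  have hη0 : 0 < η := by rw [hη]; positivity
  obtain ⟨C1, hC1⟩ : ∃ C1 : ℝ, C1 = (2 * (K : ℝ) ^ 2) ^ K + 4 * ((K.factorial : ℝ)) ^ 2 :=
    ⟨_, rfl⟩
  have hfac1 : (1 : ℝ) ≤ K.factorial := by exact_mod_cast Nat.factorial_pos K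
  have hC11 : 1 ≤ C1 := by
    have : 0 ≤ (2 * (K : ℝ) ^ 2) ^ K := by positivity
    rw [hC1]
    nlinarith
  obtain ⟨kk, p₁, δ₁, hkk, hδ₁, key⟩ := asymp_three η hη0
  obtain ⟨p₂, hp₂⟩ := large η (C1 + K.factorial + 12) hη0
  refine ⟨max p₁ p₂, min δ₁ η, lt_min hδ₁ hη0, ?_⟩
  intro p hp hpp A P B v T m hv hT1 hT2 hsub hAG hmE hAm hBm hyp χ hχ β hβ
  have : Fact p.Prime := ⟨hp⟩
  obtain ⟨hp1, heK, hlog⟩ := hp₂ p (lt_of_le_of_lt (le_max_right _ _) hpp)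
  have hp0 : (0 : ℝ) < p := by linarith
  rcases A.eq_empty_or_nonempty with rfl | hA
  · simp
  rcases B.eq_empty_or_nonempty with rfl | hB
  · simp
  have hApos : (1 : ℝ) ≤ A.card := by exact_mod_cast hA.card_pos
  have hBpos : (1 : ℝ) ≤ B.card := by exact_mod_cast hB.card_pos
  obtain ⟨e, he⟩ : ∃ e : ℝ, e = (p : ℝ) ^ η := ⟨_, rfl⟩
  rw [← he] at heK hlog
  have he12 : 12 ≤ e := by linarith
  have heC : C1 ≤ e := by linarith
  have heF : (K.factorial : ℝ) ≤ e := by linarith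
  have he0 : 0 < e := by linarith
  have he1 : 1 ≤ e := by linarith
  have hEe : (p : ℝ) ^ ε = e ^ (16 * (K + 1)) := by
    rw [he, ← Real.rpow_natCast, ← Real.rpow_mul hp0.le]
    congr 1
    rw [hη]
    push_cast
    field_simp
  have hq2 : Real.sqrt p ^ 2 = p := Real.sq_sqrt hp0.le
  have hq0 : 0 ≤ Real.sqrt p := Real.sqrt_nonneg _
  have hqe : Real.sqrt p ≤ e ^ (8 * K * (K + 1)) := by
    have h1 : Real.sqrt p ^ 2 ≤ (e ^ (8 * K * (K + 1))) ^ 2 := by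
      rw [hq2]
      have h2 : (e ^ (8 * K * (K + 1))) ^ 2 = ((p : ℝ) ^ ε) ^ K := by
        rw [hEe, ← pow_mul, ← pow_mul]
        congr 1
        ring
      rw [h2, ← Real.rpow_natCast, ← Real.rpow_mul hp0.le]
      calc (p : ℝ) = (p : ℝ) ^ (1 : ℝ) := (Real.rpow_one _).symm
        _ ≤ (p : ℝ) ^ (ε * K) := Real.rpow_le_rpow_of_exponent_le hp1.le hεK
    exact (pow_le_pow_iff_left₀ hq0 (by positivity) (by norm_num)).mp h1
  have hTp : T < p := by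
    have h1 : (12 : ℝ) ≤ T := by
      refine le_trans ?_ hT1
      rw [hEe]
      calc (12 : ℝ) ≤ e := he12
        _ = e ^ 1 := (pow_one e).symm
        _ ≤ e ^ (16 * (K + 1)) := pow_le_pow_right₀ he1 (by omega)
    have h2 : 12 ≤ T := by exact_mod_cast h1
    nlinarith
  have hne : (ap v T).Nonempty := ⟨0, (mem_ap v T 0).2 ⟨0, by simp, by simp⟩⟩
  have hAP : (A.card : ℝ) ≤ P.card := by
    exact_mod_cast (Finset.card_le_card_add_right hne).trans (Finset.card_le_card hsub)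
  have hTP : (T : ℝ) ≤ P.card := by
    exact_mod_cast ((card_ap_ge v hv T hTp).trans (Finset.card_le_card_add_left hA)).trans
      (Finset.card_le_card hsub)
  have hPpos : (1 : ℝ) ≤ P.card := hApos.trans hAP
  have hm1 : 1 ≤ m := by
    have h1 : P.card * B.card ^ 2 ≤ mixed P B := le_mixed P B
    have h2 : 1 * ((P.card : ℝ) * (B.card : ℝ) ^ 2) ≤ m * ((P.card : ℝ) * (B.card : ℝ) ^ 2) := by
      calc 1 * ((P.card : ℝ) * (B.card : ℝ) ^ 2) = ((P.card * B.card ^ 2 : ℕ) : ℝ) := by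
            push_cast
            ring
        _ ≤ (mixed P B : ℝ) := by exact_mod_cast h1
        _ ≤ m * P.card * (B.card : ℝ) ^ 2 := hmE
        _ = _ := by ring
    exact le_of_mul_le_mul_right h2 (by positivity)
  have hyp1 : (p : ℝ) * (p : ℝ) ^ ε * m ≤ T * P.card * (B.card : ℝ) ^ 2 := by
    have h1 : (p : ℝ) ^ (1 + ε) = p * (p : ℝ) ^ ε := by rw [Real.rpow_add hp0, Real.rpow_one]
    rw [← h1]
    exact hyp
  obtain ⟨M, Y, hMpos, hYcard, hmem, hQ⟩ := coll_final3 B P T K m e (Real.sqrt p) C1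
    ((p : ℝ) ^ ε) v hv hK1 hC1 hC11 hT2 he12 heC heF hlog hEe hT1 hq0 hq2 hqe hm1 hTP
    ((sum_sq_f2_mixed P B).trans hmE) hAm hBm hyp1
  have hmem' : ∀ a ∈ A, ∀ t ∈ M, ∀ y ∈ Y, a - (t : ZMod p) * y ∈ P := by
    intro a ha t ht y hy
    rw [sub_eq_add_neg]
    exact hsub (Finset.add_mem_add ha (hmem t ht y hy))
  have h0 := pair_bound χ hχ A P Y B M hmem' β hβ kk hkk
  rw [ZMod.card] at h0
  have hE0' : 0 ≤ ∑ a ∈ A, ‖∑ b ∈ B, β b * χ (a + b)‖ ^ 2 :=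
    Finset.sum_nonneg fun _ _ => by positivity
  have hpe : (p : ℝ) ^ (1 + η) = p * e := by
    rw [Real.rpow_add hp0, Real.rpow_one, he]
  have hAG₁ : (P.card : ℝ) ≤ (p : ℝ) ^ δ₁ * A.card := by
    refine hAG.trans (mul_le_mul_of_nonneg_right ?_ (Nat.cast_nonneg _))
    exact Real.rpow_le_rpow_of_exponent_le hp1.le (min_le_left _ _)
  have h1 := key p (lt_of_le_of_lt (le_max_left _ _) hpp) M.card Y.card A.card P.card B.card _ _
    hMpos (by rw [← he]; exact hYcard) (by positivity) (by positivity) hAG₁ (by positivity)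
    (Finset.sum_nonneg fun _ _ => by positivity) hE0' h0 (by rw [hpe]; exact hQ)
  have h2 : (∑ a ∈ A, ‖∑ b ∈ B, β b * χ (a + b)‖) ^ 2 ≤
      (A.card : ℝ) * ∑ a ∈ A, ‖∑ b ∈ B, β b * χ (a + b)‖ ^ 2 :=
    sq_sum_le_card_mul_sum_sq
  have hδδ : (p : ℝ) ^ (-δ₁) ≤ (p : ℝ) ^ (-(min δ₁ η)) :=
    Real.rpow_le_rpow_of_exponent_le hp1.le (neg_le_neg (min_le_left _ _))
  have h3 : (∑ a ∈ A, ‖∑ b ∈ B, β b * χ (a + b)‖) ^ 2 ≤
      ((p : ℝ) ^ (-(min δ₁ η)) * (A.card : ℝ) * (B.card : ℝ)) ^ 2 := by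
    refine h2.trans ?_
    calc (A.card : ℝ) * ∑ a ∈ A, ‖∑ b ∈ B, β b * χ (a + b)‖ ^ 2
        ≤ (A.card : ℝ) * (((p : ℝ) ^ (-δ₁) * B.card) ^ 2 * A.card) :=
          mul_le_mul_of_nonneg_left h1 (by positivity)
      _ ≤ (A.card : ℝ) * (((p : ℝ) ^ (-(min δ₁ η)) * B.card) ^ 2 * A.card) := by
          refine mul_le_mul_of_nonneg_left ?_ (by positivity)
          refine mul_le_mul_of_nonneg_right ?_ (by positivity)
          refine pow_le_pow_left₀ (by positivity) ?_ 2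
          exact mul_le_mul_of_nonneg_right hδδ (by positivity)
      _ = _ := by ring
  exact (pow_le_pow_iff_left₀ (Finset.sum_nonneg fun _ _ => norm_nonneg _) (by positivity)
    (by norm_num)).mp h3

end Pool.Agent.helper46.PY
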